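import Pool.Agent.LibH11.QTrace

/-! The coefficients of the `gl_N` invariants at `q = 1 + X` are of finite type; their behaviour
under twisting. -/

namespace Pool.Agent.LibH11

open PowerSeries

variable {n N : ℕ}

/-! ### Restriction to knots -/

theorem Vanishes.ite {A : Type*} [AddCommGroup A] : ∀ {k : ℕ} {f : Br n → A}, Vanishes k f →
    ∀ Q : Equiv.Perm (Fin (n + 1)) → Prop, [DecidablePred Q] →
      Vanishes k (fun b => if Q (perm b) then f b else 0) := by
  intro k
  induction k with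
  | zero => intro f hf Q _ b; simp only [hf b, ite_self]
  | succ k ih =>
    intro f hf Q _ a i
    have := ih (hf a i) (fun g => Q (perm (a * sg i) * g))
    refine (congrArg (Vanishes k) ?_).mp this
    funext x
    have h1 : perm (a * sg i * x) = perm (a * sg i) * perm x := map_mul _ _ _
    have h2 : perm (a * (sg i)⁻¹ * x) = perm (a * sg i) * perm x := by
      rw [map_mul, map_mul, map_mul, map_inv]; simp
    beta_reduce
    rw [h1, h2]
    by_cases hQ : Q (perm (a * sg i) * perm x)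
    · rw [if_pos hQ, if_pos hQ, if_pos hQ]
    · rw [if_neg hQ, if_neg hQ, if_neg hQ, sub_zero]

open Classical in
theorem onBraids_eq_ite {A : Type*} [AddCommGroup A] {v : Knot → A} {f : Br n → A}
    (hf : ∀ (b : Br n) (h : IsKnot b), v (closure b h) = f b) :
    onBraids v n = fun b : Br n =>
      if (fun g : Equiv.Perm (Fin (n + 1)) => ∀ x y, g.SameCycle x y) (perm b) then f b else 0 := by
  funext b
  unfold onBraids
  by_cases h : IsKnot b
  · rw [dif_pos h]; exact (hf b h).trans (if_pos h).symm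
  · rw [dif_neg h]; exact (if_neg h).symm

/-! ### The ring and the parameter -/

/-- `q = 1 + X`. -/
noncomputable def qq : (PowerSeries ℤ)ˣ :=
  (PowerSeries.isUnit_iff_constantCoeff (φ := (1 + X : PowerSeries ℤ)) |>.mpr (by simp)).unit

theorem qq_val : (qq : PowerSeries ℤ) = 1 + X := rfl

@[simp] theorem cc_qq : constantCoeff (qq : PowerSeries ℤ) = 1 := by
  rw [qq_val]; simp

@[simp] theorem cc_qq_inv : constantCoeff ((qq⁻¹ : (PowerSeries ℤ)ˣ) : PowerSeries ℤ) = 1 := by
  have h : constantCoeff ((qq : PowerSeries ℤ) * ((qq⁻¹ : (PowerSeries ℤ)ˣ) : PowerSeries ℤ)) = 1 := by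
    rw [Units.mul_inv]; simp
  rw [map_mul, cc_qq, one_mul] at h
  exact h

/-- The normalisation. -/
noncomputable def aa (N : ℕ) : (PowerSeries ℤ)ˣ := qq ^ N

@[simp] theorem cc_aa (N : ℕ) : constantCoeff (aa N : PowerSeries ℤ) = 1 := by
  unfold aa; rw [Units.val_pow_eq_pow_val, map_pow, cc_qq, one_pow]

@[simp] theorem cc_aa_inv (N : ℕ) :
    constantCoeff (((aa N)⁻¹ : (PowerSeries ℤ)ˣ) : PowerSeries ℤ) = 1 := by
  have h : constantCoeff ((aa N : PowerSeries ℤ) *
      (((aa N)⁻¹ : (PowerSeries ℤ)ˣ) : PowerSeries ℤ)) = 1 := by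
    rw [Units.mul_inv]; simp
  rw [map_mul, cc_aa, one_mul] at h
  exact h

@[simp] theorem cc_zz : constantCoeff (zz qq : PowerSeries ℤ) = 0 := by
  unfold zz; rw [map_sub]; simp

/-- The representation over the power series. -/
noncomputable abbrev rp (N n : ℕ) : Br n →* (Module.End (PowerSeries ℤ)
    ((Fin (n + 1) → Fin N) → PowerSeries ℤ))ˣ := rep (Fin N) qq (aa N) n

/-- The quantum trace over the power series. -/
noncomputable abbrev tr' {N n : ℕ} (A : Module.End (PowerSeries ℤ)
    ((Fin (n + 1) → Fin N) → PowerSeries ℤ)) : PowerSeries ℤ := qtr qq (aa N) A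

theorem rp_diff (i : Fin n) : ∃ Y : Module.End (PowerSeries ℤ)
    ((Fin (n + 1) → Fin N) → PowerSeries ℤ),
    (rp N n (sg i)).val - (rp N n (sg i)⁻¹).val = (X : PowerSeries ℤ) • Y := by
  have h1 : (X : PowerSeries ℤ) ∣ (((aa N)⁻¹ : (PowerSeries ℤ)ˣ) : PowerSeries ℤ) - aa N := by
    rw [X_dvd_iff]; simp
  have h2 : (X : PowerSeries ℤ) ∣ (aa N : PowerSeries ℤ) * zz qq := by
    rw [X_dvd_iff]; simp
  obtain ⟨u, hu⟩ := h1
  obtain ⟨w, hw⟩ := h2
  refine ⟨u • op (qq : PowerSeries ℤ) (zz qq) i.castSucc i.succ + w • 1, ?_⟩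
  rw [map_inv, rep_sg, smul_add, smul_smul, smul_smul, ← hu, ← hw]
  change (((aa N)⁻¹ : (PowerSeries ℤ)ˣ) : PowerSeries ℤ) •
    op (qq : PowerSeries ℤ) (zz qq) i.castSucc i.succ -
    (aa N : PowerSeries ℤ) • (op (qq : PowerSeries ℤ) (zz qq) i.castSucc i.succ -
      zz qq • 1) = _
  rw [smul_sub, sub_smul, smul_smul]
  abel

theorem vanishes_coeff : ∀ (k : ℕ) (A : Module.End (PowerSeries ℤ)
    ((Fin (n + 1) → Fin N) → PowerSeries ℤ)),
    Vanishes (k + 1) (fun b : Br n => coeff k (tr' (A * (rp N n b).val))) := by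
  have key : ∀ (A : Module.End (PowerSeries ℤ) ((Fin (n + 1) → Fin N) → PowerSeries ℤ))
      (a : Br n) (i : Fin n), ∃ B : Module.End (PowerSeries ℤ)
      ((Fin (n + 1) → Fin N) → PowerSeries ℤ), ∀ x : Br n,
      tr' (A * (rp N n (a * sg i * x)).val) - tr' (A * (rp N n (a * (sg i)⁻¹ * x)).val) =
        X * tr' (B * (rp N n x).val) := by
    intro A a i
    obtain ⟨Y, hY⟩ := rp_diff (N := N) i
    refine ⟨A * (rp N n a).val * Y, fun x => ?_⟩
    rw [← qtr_sub, ← qtr_smul]
    congr 1
    rw [← mul_sub, map_mul, map_mul, map_mul, map_mul, Units.val_mul, Units.val_mul,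
      Units.val_mul, Units.val_mul, ← sub_mul, ← mul_sub, hY]
    simp only [mul_smul_comm, smul_mul_assoc, mul_assoc]
  intro k
  induction k with
  | zero =>
    intro A a i x
    obtain ⟨B, hB⟩ := key A a i
    simp only
    rw [← map_sub, hB, coeff_zero_X_mul]
  | succ k ih =>
    intro A a i
    obtain ⟨B, hB⟩ := key A a i
    refine (congrArg (Vanishes (k + 1)) ?_).mp (ih B)
    funext x
    rw [← map_sub, hB, coeff_succ_X_mul]

/-- The coefficients of the `gl_N` invariant. -/
noncomputable def glCoeff (N k : ℕ) (K : Knot) : ℤ := coeff k (glInv qq N K)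

theorem glCoeff_closure (N k : ℕ) (b : Br n) (h : IsKnot b) :
    glCoeff N k (closure b h) = coeff k (tr' (rp N n b).val) := rfl

theorem glCoeff_order (N k : ℕ) : HasOrderLE (glCoeff N k) k := by
  intro n
  classical
  rw [onBraids_eq_ite (f := fun b => coeff k (tr' (rp N n b).val))
    (fun b h => glCoeff_closure N k b h)]
  have := vanishes_coeff (n := n) (N := N) k 1
  simp only [one_mul] at this
  exact this.ite (fun g : Equiv.Perm (Fin (n + 1)) => ∀ x y, g.SameCycle x y)

end Pool.Agent.LibH11
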