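import Pool.Agent.LibH11.Ker

/-! Finite generation: the values of a finite type invariant generate a finitely generated group. -/

namespace Pool.Agent.LibH11

variable {A : Type*} [AddCommGroup A] {n : ℕ}

theorem sameCycle_of_step {α β : Type*} (σ : Equiv.Perm α) (ρ : Equiv.Perm β) (r : α → β)
    (h : ∀ z, ρ.SameCycle (r z) (r (σ z))) {x y : α} (hxy : σ.SameCycle x y) :
    ρ.SameCycle (r x) (r y) := by
  obtain ⟨i, rfl⟩ := hxy
  induction i using Int.induction_on with
  | zero => simpa using Equiv.Perm.SameCycle.refl ρ (r x)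
  | succ i ih =>
    have := h ((σ ^ (i : ℤ)) x)
    rw [add_comm, zpow_add, zpow_one, Equiv.Perm.mul_apply]
    exact ih.trans this
  | pred i ih =>
    have := h ((σ ^ (-(i : ℤ) - 1)) x)
    rw [← Equiv.Perm.mul_apply, ← zpow_one_add, show (1 + (-(i : ℤ) - 1)) = -(i : ℤ) by ring] at this
    exact ih.trans this.symm

theorem IsKnot.congr {a b : Br n} (h : perm a = perm b) : IsKnot a ↔ IsKnot b := by
  unfold IsKnot; rw [h]

theorem isKnot_conj (a b : Br n) : IsKnot (a * b * a⁻¹) ↔ IsKnot b := by
  unfold IsKnot
  simp only [map_mul, map_inv, Equiv.Perm.sameCycle_conj]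
  constructor
  · intro h x y
    have := h (perm a x) (perm a y)
    simpa using this
  · intro h x y
    exact h _ _

theorem not_isKnot_incl (b : Br n) : ¬ IsKnot (incl b) := by
  intro h
  have h1 := h (Fin.last (n + 1)) 0
  have h2 := h1.eq_of_left (perm_incl_last b)
  simp [Fin.ext_iff] at h2

theorem isKnot_stab (b : Br n) : IsKnot (incl b * sg (Fin.last n)) ↔ IsKnot b := by
  have hlast : ∀ y : Fin (n + 1), perm (incl b * sg (Fin.last n)) y.castSucc =
      if y = Fin.last n then Fin.last (n + 1) else (perm b y).castSucc := by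
    intro y
    rw [map_mul, Equiv.Perm.mul_apply, perm_sg]
    split_ifs with hy
    · subst hy
      rw [Equiv.swap_apply_left, Fin.succ_last, perm_incl_last]
    · rw [Equiv.swap_apply_of_ne_of_ne, perm_incl_castSucc]
      · intro h; exact hy (Fin.castSucc_injective _ h)
      · rw [Fin.succ_last]; exact (Fin.castSucc_lt_last y).ne
  have hl : perm (incl b * sg (Fin.last n)) (Fin.last (n + 1)) =
      (perm b (Fin.last n)).castSucc := by
    rw [map_mul, Equiv.Perm.mul_apply, perm_sg, ← Fin.succ_last, Equiv.swap_apply_right,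
      perm_incl_castSucc]
  set σ := perm (incl b * sg (Fin.last n)) with hσ
  constructor
  · intro h x y
    -- retraction
    let r : Fin (n + 2) → Fin (n + 1) := fun z => Fin.lastCases (Fin.last n) (fun y => y) z
    have hr1 : ∀ y : Fin (n + 1), r y.castSucc = y := fun y => by simp [r]
    have hr2 : r (Fin.last (n + 1)) = Fin.last n := by simp [r]
    have hstep : ∀ z, (perm b).SameCycle (r z) (r (σ z)) := by
      intro z
      induction z using Fin.lastCases with
      | last =>
        rw [hl, hr1, hr2]
        exact (Equiv.Perm.sameCycle_apply_right.mpr (Equiv.Perm.SameCycle.refl _ _))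
      | cast y =>
        rw [hlast, hr1]
        split_ifs with hy
        · rw [hr2, hy]
        · rw [hr1]
          exact (Equiv.Perm.sameCycle_apply_right.mpr (Equiv.Perm.SameCycle.refl _ _))
    have := sameCycle_of_step σ (perm b) r hstep (h x.castSucc y.castSucc)
    rwa [hr1, hr1] at this
  · intro h
    have hstep : ∀ z, σ.SameCycle (Fin.castSucc z) (Fin.castSucc (perm b z)) := by
      intro z
      by_cases hz : z = Fin.last n
      · have h1 : σ (σ z.castSucc) = (perm b z).castSucc := by
          rw [hlast, if_pos hz, hl, hz]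
        rw [← h1]
        exact Equiv.Perm.sameCycle_apply_right.mpr (Equiv.Perm.sameCycle_apply_right.mpr
          (Equiv.Perm.SameCycle.refl _ _))
      · have h1 : σ z.castSucc = (perm b z).castSucc := by rw [hlast, if_neg hz]
        rw [← h1]
        exact Equiv.Perm.sameCycle_apply_right.mpr (Equiv.Perm.SameCycle.refl _ _)
    have hall : ∀ x : Fin (n + 2), σ.SameCycle x (Fin.castSucc (Fin.last n)) := by
      intro x
      induction x using Fin.lastCases with
      | last =>
        have h1 : σ (Fin.castSucc (Fin.last n)) = Fin.last (n + 1) := by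
          rw [hlast, if_pos rfl]
        rw [← h1]
        exact Equiv.Perm.sameCycle_apply_left.mpr (Equiv.Perm.SameCycle.refl _ _)
      | cast y =>
        exact sameCycle_of_step (perm b) σ Fin.castSucc hstep (h y (Fin.last n))
    intro x y
    exact (hall x).trans (hall y).symm

theorem isKnot_stabNeg (b : Br n) : IsKnot (incl b * (sg (Fin.last n))⁻¹) ↔ IsKnot b := by
  rw [← isKnot_stab b]
  apply IsKnot.congr
  simp

theorem onBraids_of_not {v : Knot → A} {b : Br n} (h : ¬ IsKnot b) : onBraids v n b = 0 := by
  unfold onBraids; rw [dif_neg h]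

theorem onBraids_of {v : Knot → A} {b : Br n} (h : IsKnot b) :
    onBraids v n b = v (closure b h) := by
  unfold onBraids; rw [dif_pos h]

theorem onBraids_conj (v : Knot → A) (a b : Br n) :
    onBraids v n (a * b * a⁻¹) = onBraids v n b := by
  by_cases h : IsKnot b
  · have h' := (isKnot_conj a b).mpr h
    rw [onBraids_of h, onBraids_of h']
    exact congrArg v (Quot.sound (r := fun x y : KnotBraid => MarkovMove x.1 y.1)
      (a := ⟨⟨n, b⟩, h⟩) (b := ⟨⟨n, a * b * a⁻¹⟩, h'⟩) (MarkovMove.conj n a b)).symm
  · have h' := mt (isKnot_conj a b).mp h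
    rw [onBraids_of_not h, onBraids_of_not h']

theorem onBraids_stab (v : Knot → A) (b : Br n) :
    onBraids v (n + 1) (incl b * sg (Fin.last n)) = onBraids v n b := by
  by_cases h : IsKnot b
  · have h' := (isKnot_stab b).mpr h
    rw [onBraids_of h, onBraids_of h']
    exact congrArg v (Quot.sound (r := fun x y : KnotBraid => MarkovMove x.1 y.1)
      (a := ⟨⟨n, b⟩, h⟩) (b := ⟨⟨n + 1, incl b * sg (Fin.last n)⟩, h'⟩)
        (MarkovMove.stabPos n b)).symm
  · have h' := mt (isKnot_stab b).mp h
    rw [onBraids_of_not h, onBraids_of_not h']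

theorem onBraids_incl (v : Knot → A) (b : Br n) : onBraids v (n + 1) (incl b) = 0 :=
  onBraids_of_not (not_isKnot_incl b)

/-! ### Untouched strands -/

/-- The permutation of a singular braid (double points resolved). -/
def endPerm : List (Br n × Fin n) → Br n → Equiv.Perm (Fin (n + 1))
  | [], b => perm b
  | (a, i) :: L, b => perm a * Equiv.swap i.castSucc i.succ * endPerm L b

/-- The strand ending at position `y` does not pass through any double point. -/
def Unt (y : Fin (n + 1)) : List (Br n × Fin n) → Br n → Prop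
  | [], _ => True
  | (_, i) :: L, b => Unt y L b ∧ endPerm L b y ≠ i.castSucc ∧ endPerm L b y ≠ i.succ

theorem exists_unt (L : List (Br n × Fin n)) (b : Br n) (h : 2 * L.length < n + 1) :
    ∃ y, Unt y L b := by
  classical
  have key : ∀ L : List (Br n × Fin n),
      (Finset.univ.filter (fun y => ¬ Unt y L b)).card ≤ 2 * L.length := by
    intro L
    induction L with
    | nil => simp [Unt]
    | cons c L ih =>
      obtain ⟨a, i⟩ := c
      have hsub : Finset.univ.filter (fun y => ¬ Unt y ((a, i) :: L) b) ⊆
          Finset.univ.filter (fun y => ¬ Unt y L b) ∪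
            {(endPerm L b)⁻¹ i.castSucc, (endPerm L b)⁻¹ i.succ} := by
        intro y hy
        simp only [Finset.mem_filter, Finset.mem_univ, true_and, Unt, Finset.mem_union,
          Finset.mem_insert, Finset.mem_singleton] at hy ⊢
        by_contra hcon
        push Not at hcon
        apply hy
        refine ⟨hcon.1, ?_, ?_⟩
        · intro h; apply hcon.2.1; rw [← h]; simp
        · intro h; apply hcon.2.2; rw [← h]; simp
      calc _ ≤ _ := Finset.card_le_card hsub
        _ ≤ _ := Finset.card_union_le _ _
        _ ≤ 2 * L.length + 2 := Nat.add_le_add ih (Finset.card_le_two)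
        _ = 2 * ((a, i) :: L).length := by simp; ring
  by_contra hcon
  push Not at hcon
  have h1 := key L
  rw [Finset.filter_true_of_mem (fun y _ => hcon y)] at h1
  simp at h1
  omega

theorem exists_incl_perm {g : Br (n + 1)} (h : perm g (Fin.last (n + 1)) = Fin.last (n + 1)) :
    ∃ g' : Br n, perm (incl g') = perm g := by
  obtain ⟨y, hy, h', p, hp, rfl⟩ := exists_form g
  have hpp := perm_mem_sqN hp
  simp only [map_mul, hpp, mul_one, Equiv.Perm.mul_apply, perm_incl_last] at h
  have h2 := perm_cyc_last (n := n + 1) ⟨y, by omega⟩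
  simp only at h2
  rw [h2] at h
  have hy' : y = n + 1 := by simpa [Fin.ext_iff] using h
  subst hy'
  exact ⟨h', by simp [cyc_self, hpp]⟩

theorem sg_cyc (i : Fin (n + 1)) (y : Fin (n + 2)) (h1 : y ≠ i.castSucc) (h2 : y ≠ i.succ) :
    ∃ i' : Fin n, sg i * cyc (n + 1) y = cyc (n + 1) y * incl (sg i') := by
  have hi := i.isLt
  have hy := y.isLt
  have h1' : (y : ℕ) ≠ i := fun h => h1 (Fin.ext (by simpa using h))
  have h2' : (y : ℕ) ≠ i + 1 := fun h => h2 (Fin.ext (by simpa using h))
  rcases Nat.lt_or_ge y i with h | h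
  · refine ⟨⟨i - 1, by omega⟩, ?_⟩
    rw [sg_cyc_near i h, incl_sg]
    rfl
  · refine ⟨⟨i, by omega⟩, ?_⟩
    rw [sg_cyc_far i (by omega), incl_sg]
    rfl

theorem sing_zero (L : List (Br n × Fin n)) (b : Br n) : sing (fun _ => (0 : A)) L b = 0 :=
  (vanishes_zero : Vanishes L.length (fun _ : Br n => (0 : A))).sing_eq_zero b

/-- Removing an untouched strand. -/
theorem remove_strand : ∀ (L : List (Br (n + 1) × Fin (n + 1))) (b : Br (n + 1))
    (y : Fin (n + 2)), Unt y L b → ∃ (L' : List (Br n × Fin n)) (b' : Br n),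
      L'.length = L.length ∧ ∀ f : Br (n + 1) → A, Vanishes (L.length + 1) f →
        sing f L b = sing (fun x => f (cyc (n + 1) (endPerm L b y) * incl x *
          (cyc (n + 1) y)⁻¹)) L' b' := by
  intro L
  induction L with
  | nil =>
    intro b y _
    have hz : perm ((cyc (n + 1) (perm b y))⁻¹ * b * cyc (n + 1) y) (Fin.last (n + 1)) =
        Fin.last (n + 1) := by
      rw [map_mul, map_mul, map_inv, Equiv.Perm.mul_apply, Equiv.Perm.mul_apply, perm_cyc_last,
        Equiv.Perm.inv_eq_iff_eq, perm_cyc_last]
    obtain ⟨b', hb'⟩ := exists_incl_perm hz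
    refine ⟨[], b', rfl, ?_⟩
    intro f hf
    simp only [sing_nil, endPerm]
    have hp : perm b = perm (cyc (n + 1) (perm b y) * incl b' * (cyc (n + 1) y)⁻¹) := by
      rw [map_mul, map_mul, hb', map_inv, map_mul, map_mul, map_inv]
      group
    have := (Vanishes.congr_perm (k := 0) hp hf) 1
    simpa [sub_eq_zero] using this
  | cons c L ih =>
    obtain ⟨a, i⟩ := c
    intro b y hU
    obtain ⟨hU, hy1, hy2⟩ := hU
    obtain ⟨L', b', hL', hmain⟩ := ih b y hU
    set z1 := endPerm L b y with hz1
    have hz : endPerm ((a, i) :: L) b y = perm a z1 := by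
      simp only [endPerm, Equiv.Perm.mul_apply]
      rw [← hz1, Equiv.swap_apply_of_ne_of_ne hy1 hy2]
    rw [hz]
    have hfix : perm ((cyc (n + 1) (perm a z1))⁻¹ * a * cyc (n + 1) z1) (Fin.last (n + 1)) =
        Fin.last (n + 1) := by
      rw [map_mul, map_mul, map_inv, Equiv.Perm.mul_apply, Equiv.Perm.mul_apply, perm_cyc_last,
        Equiv.Perm.inv_eq_iff_eq, perm_cyc_last]
    obtain ⟨a', ha'⟩ := exists_incl_perm hfix
    obtain ⟨i', hi'⟩ := sg_cyc i z1 hy1 hy2
    have hi'inv : (sg i)⁻¹ * cyc (n + 1) z1 = cyc (n + 1) z1 * incl (sg i')⁻¹ := by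
      rw [map_inv, inv_mul_eq_iff_eq_mul, ← mul_assoc, hi', mul_assoc, mul_inv_cancel, mul_one]
    refine ⟨(a', i') :: L', b', by simp [hL'], ?_⟩
    intro f hf
    rw [sing_cons, sing_cons, hmain (dif a i f) (hf a i)]
    have hp : perm (a * cyc (n + 1) z1) = perm (cyc (n + 1) (perm a z1) * incl a') := by
      rw [map_mul (perm) (cyc (n + 1) (perm a z1)), ha']
      simp only [map_mul, map_inv]
      group
    have hH := ((Vanishes.congr_perm hp hf).right (cyc (n + 1) y)⁻¹).incl
    have hH1 := hH 1 i'
    rw [← sub_eq_zero, ← sing_sub]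
    have hV : Vanishes L'.length (fun x : Br n =>
        dif a i f (cyc (n + 1) z1 * incl x * (cyc (n + 1) y)⁻¹) -
        dif a' i' (fun x => f (cyc (n + 1) (perm a z1) * incl x * (cyc (n + 1) y)⁻¹)) x) := by
      rw [hL']
      refine (congrArg (Vanishes L.length) ?_).mp hH1
      funext x
      have e1 : a * sg i * (cyc (n + 1) z1 * incl x * (cyc (n + 1) y)⁻¹) =
          a * cyc (n + 1) z1 * (incl (1 * sg i' * x) * (cyc (n + 1) y)⁻¹) := by
        have : a * sg i * (cyc (n + 1) z1 * incl x * (cyc (n + 1) y)⁻¹) =
          a * (sg i * cyc (n + 1) z1) * (incl x * (cyc (n + 1) y)⁻¹) := by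
            simp only [mul_assoc]
        rw [this, hi']
        simp only [map_mul, one_mul, mul_assoc]
      have e2 : a * (sg i)⁻¹ * (cyc (n + 1) z1 * incl x * (cyc (n + 1) y)⁻¹) =
          a * cyc (n + 1) z1 * (incl (1 * (sg i')⁻¹ * x) * (cyc (n + 1) y)⁻¹) := by
        have : a * (sg i)⁻¹ * (cyc (n + 1) z1 * incl x * (cyc (n + 1) y)⁻¹) =
          a * ((sg i)⁻¹ * cyc (n + 1) z1) * (incl x * (cyc (n + 1) y)⁻¹) := by
            simp only [mul_assoc]
        rw [this, hi'inv]
        simp only [map_mul, one_mul, mul_assoc]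
      have e3 : ∀ w : Br n, cyc (n + 1) (perm a z1) * incl (a' * w) * (cyc (n + 1) y)⁻¹ =
          cyc (n + 1) (perm a z1) * incl a' * (incl w * (cyc (n + 1) y)⁻¹) := by
        intro w; simp only [map_mul, mul_assoc]
      simp only [dif]
      rw [e1, e2, mul_assoc a' (sg i') x, mul_assoc a' (sg i')⁻¹ x, e3, e3]
      simp only [one_mul]
      abel
    exact hV.sing_eq_zero b'

/-- The set of values on singular braids with `j` double points. -/
def singVals (f : Br n → A) (j : ℕ) : Set A :=
  {a | ∃ (L : List (Br n × Fin n)) (b : Br n), L.length = j ∧ sing f L b = a}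

theorem sing_left_mem (f : Br n → A) (β : Br n) (L : List (Br n × Fin n)) (b : Br n) :
    sing (fun x => f (β * x)) L b ∈ singVals f L.length := by
  match L with
  | [] => exact ⟨[], β * b, rfl, rfl⟩
  | (a, i) :: L =>
    refine ⟨(β * a, i) :: L, b, rfl, ?_⟩
    simp only [sing_cons]
    congr 1
    funext x
    simp only [dif, mul_assoc]

theorem sing_right (L : List (Br n × Fin n)) : ∀ (f : Br n → A) (α : Br n) (b : Br n),
    sing (fun x => f (x * α)) L b = sing f L (b * α) := by
  induction L with
  | nil => intro f α b; rfl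
  | cons c L ih =>
    obtain ⟨a, i⟩ := c
    intro f α b
    simp only [sing_cons]
    rw [← ih]
    congr 1
    funext x
    simp only [dif, mul_assoc]

theorem singVals_finite {f : Br n → A} {j : ℕ} (hf : Vanishes (j + 1) f) :
    (singVals f j).Finite := by
  classical
  let key : List (Br n × Fin n) → List (Equiv.Perm (Fin (n + 1)) × Fin n) :=
    fun L => L.map (fun c => (perm c.1, c.2))
  let ψ : List (Equiv.Perm (Fin (n + 1)) × Fin n) × Equiv.Perm (Fin (n + 1)) → A :=
    fun lp => if h : ∃ (L : List (Br n × Fin n)) (b : Br n), L.length = j ∧ key L = lp.1 ∧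
      perm b = lp.2 then sing f h.choose h.choose_spec.choose else 0
  have hfin : ({l : List (Equiv.Perm (Fin (n + 1)) × Fin n) | l.length = j} ×ˢ
      (Set.univ : Set (Equiv.Perm (Fin (n + 1))))).Finite :=
    (List.finite_length_eq _ j).prod Set.finite_univ
  refine (hfin.image ψ).subset ?_
  rintro _ ⟨L, b, hL, rfl⟩
  refine ⟨(key L, perm b), ⟨by simp [key, hL], trivial⟩, ?_⟩
  have h : ∃ (L' : List (Br n × Fin n)) (b' : Br n), L'.length = j ∧ key L' = key L ∧
      perm b' = perm b := ⟨L, b, hL, rfl, rfl⟩
  change (if h : _ then _ else _) = _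
  rw [dif_pos h]
  have hs := h.choose_spec.choose_spec
  refine sing_congr_perm _ _ f _ _ ?_ hs.2.1 hs.2.2
  rw [hs.1]
  exact hf

theorem singVals_reduce (v : Knot → A) {j : ℕ} (hj : 2 * j < n + 2)
    (hf : Vanishes (j + 1) (onBraids v (n + 1))) :
    singVals (onBraids v (n + 1)) j ⊆ singVals (onBraids v n) j ∪ {0} := by
  rintro _ ⟨L, b, hL, rfl⟩
  obtain ⟨y, hy⟩ := exists_unt L b (by rw [hL]; exact hj)
  obtain ⟨L', b', hL', hmain⟩ := remove_strand (A := A) L b y hy
  rw [hmain _ (by rw [hL]; exact hf)]
  set z := endPerm L b y with hz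
  have hconj : ∀ x : Br n, onBraids v (n + 1) (cyc (n + 1) z * incl x * (cyc (n + 1) y)⁻¹) =
      onBraids v (n + 1) ((cyc (n + 1) y)⁻¹ * cyc (n + 1) z * incl x) := by
    intro x
    rw [← onBraids_conj v (cyc (n + 1) y) ((cyc (n + 1) y)⁻¹ * cyc (n + 1) z * incl x)]
    congr 1
    group
  simp only [hconj]
  by_cases hzy : z = y
  · right
    rw [hzy]
    simp only [inv_mul_cancel, one_mul, onBraids_incl]
    exact sing_zero _ _
  · left
    -- write the permutation of `g` through the last generator
    set g := (cyc (n + 1) y)⁻¹ * cyc (n + 1) z with hg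
    have hgl : perm g (Fin.last (n + 1)) ≠ Fin.last (n + 1) := by
      rw [hg, map_mul, map_inv, Equiv.Perm.mul_apply, perm_cyc_last, ne_eq,
        Equiv.Perm.inv_eq_iff_eq, perm_cyc_last]
      exact hzy
    obtain ⟨u', hu'⟩ := Fin.exists_castSucc_eq.mpr hgl
    have hfix : perm ((incl (cyc n u') * sg (Fin.last n))⁻¹ * g) (Fin.last (n + 1)) =
        Fin.last (n + 1) := by
      rw [map_mul, map_inv, Equiv.Perm.mul_apply, Equiv.Perm.inv_eq_iff_eq,
        map_mul perm (incl (cyc n u')) (sg (Fin.last n)),
        Equiv.Perm.mul_apply, perm_sg, ← Fin.succ_last, Equiv.swap_apply_right,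
        perm_incl_castSucc, perm_cyc_last, Fin.succ_last]
      exact hu'.symm
    obtain ⟨β, hβ⟩ := exists_incl_perm hfix
    have hp : perm g = perm (incl (cyc n u') * sg (Fin.last n) * incl β) := by
      rw [map_mul (perm) _ (incl β), hβ, ← map_mul]
      group
    have hV := (Vanishes.congr_perm hp hf).incl
    have e1 : sing (fun x => onBraids v (n + 1) (g * incl x)) L' b' =
        sing (fun x => onBraids v (n + 1)
          (incl (cyc n u') * sg (Fin.last n) * incl β * incl x)) L' b' := by
      rw [← sub_eq_zero, ← sing_sub]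
      refine Vanishes.sing_eq_zero ?_ b'
      rw [hL', hL]
      exact hV
    rw [e1]
    have e2 : ∀ x : Br n, onBraids v (n + 1)
          (incl (cyc n u') * sg (Fin.last n) * incl β * incl x) =
        onBraids v n (β * x * cyc n u') := by
      intro x
      rw [← onBraids_stab v (β * x * cyc n u'), ← onBraids_conj v (incl (β * x))
        (incl (cyc n u') * sg (Fin.last n) * incl β * incl x)]
      congr 1
      simp only [map_mul]
      group
    simp only [e2]
    have e3 := sing_right L' (fun x => onBraids v n (β * x)) (cyc n u') b'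
    simp only [← mul_assoc] at e3
    rw [e3]
    have := sing_left_mem (onBraids v n) β L' (b' * cyc n u')
    rwa [hL', hL] at this

/-- For an invariant of order at most `j`, the set of all values on singular knots with `j`
double points is finite. -/
theorem allSingVals_finite (v : Knot → A) {j : ℕ} (hf : ∀ n, Vanishes (j + 1) (onBraids v n)) :
    {a : A | ∃ n, a ∈ singVals (onBraids v n) j}.Finite := by
  have hfin : ((⋃ m ∈ Finset.range (2 * j + 1), singVals (onBraids v m) j) ∪ {0}).Finite := by
    refine Set.Finite.union ?_ (Set.finite_singleton 0)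
    refine Set.Finite.biUnion (Finset.finite_toSet _) ?_
    intro m _
    exact singVals_finite (hf m)
  refine hfin.subset ?_
  rintro a ⟨n, hn⟩
  induction n generalizing a with
  | zero =>
    left
    simp only [Set.mem_iUnion]
    exact ⟨0, by simp, hn⟩
  | succ n ih =>
    by_cases h : 2 * j < n + 2
    · rcases singVals_reduce v h (hf (n + 1)) hn with h1 | h1
      · exact ih h1
      · right; exact h1
    · left
      simp only [Set.mem_iUnion]
      exact ⟨n + 1, by simp; omega, hn⟩

theorem sing_mem_span (f : Br n → A) (S : AddSubgroup A) (hS : ∀ b, f b ∈ S)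
    (L : List (Br n × Fin n)) (b : Br n) : sing f L b ∈ S := by
  induction L generalizing f with
  | nil => exact hS b
  | cons c L ih =>
    obtain ⟨a, i⟩ := c
    exact ih _ (fun x => S.sub_mem (hS _) (hS _))

/-- The values of an invariant of finite type generate a finitely generated group. -/
theorem span_range_fg : ∀ (j : ℕ) {A : Type*} [AddCommGroup A] (v : Knot → A),
    (∀ n, Vanishes j (onBraids v n)) → (Submodule.span ℤ (Set.range v)).FG := by
  intro j
  induction j with
  | zero =>
    intro A _ v hv
    have : Set.range v ⊆ {0} := by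
      rintro _ ⟨K, rfl⟩
      induction K using Quot.ind with
      | _ x =>
        obtain ⟨⟨n, b⟩, h⟩ := x
        have := hv n b
        rwa [onBraids_of h] at this
    refine Submodule.FG.of_le (T := Submodule.span ℤ {0}) ⟨{0}, by simp⟩ (Submodule.span_mono this)
  | succ j ih =>
    intro A _ v hv
    set T := {a : A | ∃ n, a ∈ singVals (onBraids v n) j} with hT
    have hTfin : T.Finite := allSingVals_finite v hv
    set H : Submodule ℤ A := Submodule.span ℤ T with hH
    have hHfg : H.FG := Submodule.fg_span hTfin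
    have hq : ∀ n, Vanishes j (onBraids (fun K => H.mkQ (v K)) n) := by
      intro n
      have e : onBraids (fun K => H.mkQ (v K)) n = fun b => H.mkQ.toAddMonoidHom (onBraids v n b) := by
        funext b
        by_cases hb : IsKnot b
        · rw [onBraids_of hb, onBraids_of hb]; rfl
        · rw [onBraids_of_not hb, onBraids_of_not hb]; simp
      rw [e, vanishes_iff_sing]
      intro L hL b
      rw [sing_map]
      have : sing (onBraids v n) L b ∈ H := Submodule.subset_span ⟨n, L, b, hL, rfl⟩
      simpa using this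
    have h1 := ih (fun K => H.mkQ (v K)) hq
    refine Submodule.fg_of_fg_map_of_fg_inf_ker H.mkQ ?_ ?_
    · rw [Submodule.map_span, ← Set.range_comp]
      exact h1
    · rw [Submodule.ker_mkQ]
      exact Submodule.FG.of_le hHfg inf_le_right

end Pool.Agent.LibH11
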