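import Pool.Agent.LibH11.Cube
import Pool.Agent.LibH11.Fg

/-! Changing the coefficients of finite type invariants. -/

namespace Pool.Agent.LibH11

variable {A : Type*} [AddCommGroup A] {C : Type*} [AddCommGroup C] {n : ℕ}

theorem onBraids_comp (v : Knot → A) (φ : A → C) (h0 : φ 0 = 0) (n : ℕ) :
    onBraids (fun K => φ (v K)) n = fun b => φ (onBraids v n b) := by
  funext b
  by_cases hb : IsKnot b
  · rw [onBraids_of hb, onBraids_of hb]
  · rw [onBraids_of_not hb, onBraids_of_not hb, h0]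

theorem HasOrderLE.map {v : Knot → A} {k : ℕ} (h : HasOrderLE v k) (φ : A →+ C) :
    HasOrderLE (fun K => φ (v K)) k := by
  intro n
  rw [onBraids_comp v φ (map_zero φ)]
  exact (h n).map φ

theorem HasOrderLE.of_map {v : Knot → A} {k : ℕ} (φ : A →+ C) (hφ : Function.Injective φ)
    (h : HasOrderLE (fun K => φ (v K)) k) : HasOrderLE v k := by
  intro n
  have h1 := h n
  rw [onBraids_comp v φ (map_zero φ)] at h1
  rw [vanishes_iff_sing] at h1 ⊢
  intro L hL b
  have h2 := h1 L hL b
  rw [sing_map] at h2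
  exact hφ (by rw [h2, map_zero])

/-- The `j`-th digit in base `p` of a residue modulo a power of `p`. -/
def digit (p : ℕ) {m : ℕ} (j : ℕ) (a : ZMod m) : ZMod p := ((a.val / p ^ j : ℕ) : ZMod p)

theorem digit_zero (p : ℕ) {m : ℕ} [NeZero m] (j : ℕ) : digit p j (0 : ZMod m) = 0 := by
  simp [digit]

theorem choose_pow_cast {p : ℕ} [hp : Fact p.Prime] (j : ℕ) : ∀ G : ℕ,
    ((G.choose (p ^ j) : ℕ) : ZMod p) = ((G / p ^ j : ℕ) : ZMod p) := by
  induction j with
  | zero => intro G; simp
  | succ j ih =>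
    intro G
    have h1 := Choose.choose_modEq_choose_mod_mul_choose_div_nat (n := G) (k := p ^ (j + 1)) (p := p)
    have h2 := (ZMod.natCast_eq_natCast_iff _ _ _).mpr h1
    rw [h2]
    have hpos : 0 < p := hp.out.pos
    have e1 : p ^ (j + 1) % p = 0 := by simp [pow_succ]
    have e2 : p ^ (j + 1) / p = p ^ j := by
      rw [pow_succ, Nat.mul_div_cancel _ hpos]
    rw [e1, e2, Nat.choose_zero_right, one_mul, ih, Nat.div_div_eq_div_mul, pow_succ,
      mul_comm]

theorem digit_cast {p : ℕ} [hp : Fact p.Prime] {k j : ℕ} (hj : j < k) (G : ℕ) :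
    digit p j (G : ZMod (p ^ k)) = ((G / p ^ j : ℕ) : ZMod p) := by
  unfold digit
  rw [ZMod.val_natCast]
  have hpos : 0 < p := hp.out.pos
  conv_rhs => rw [← Nat.mod_add_div G (p ^ k)]
  have e : p ^ k = p ^ j * (p * p ^ (k - j - 1)) := by
    rw [← pow_succ', ← pow_add]; congr 1; omega
  have e2 : (G % p ^ k + p ^ k * (G / p ^ k)) / p ^ j =
      G % p ^ k / p ^ j + p * (p ^ (k - j - 1) * (G / p ^ k)) := by
    have e3 : ∀ q : ℕ, p ^ k * q = p ^ j * (p * (p ^ (k - j - 1) * q)) := by
      intro q; rw [e]; ring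
    rw [e3 (G / p ^ k), Nat.add_mul_div_left _ _ (pow_pos hpos j)]
  rw [e2]
  simp

theorem vanishes_digit {p : ℕ} [hp : Fact p.Prime] {k j d : ℕ} (hj : j < k)
    {f : Br n → ZMod (p ^ k)} (hf : Vanishes (d + 1) f) :
    Vanishes (d * p ^ j + 1) (fun x => digit p j (f x)) := by
  have : NeZero (p ^ k) := ⟨pow_ne_zero _ hp.out.ne_zero⟩
  rw [vanishes_iff_sing]
  intro L hL b
  rw [sing_eq_alt]
  obtain ⟨G, hG, hG'⟩ := (deg_of_vanishes L d f b hf).lift
  have e : (fun x => digit p j (f (pt L b x))) =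
      fun x => (Int.castRingHom (ZMod p)).toAddMonoidHom ((G x).choose (p ^ j) : ℤ) := by
    funext x
    rw [← hG', digit_cast hj]
    simp [choose_pow_cast]
  rw [e, alt_map, alt_choose_eq_zero hG (by omega), map_zero]

theorem eq_of_digits {p : ℕ} (hp : 0 < p) : ∀ (k a b : ℕ), a < p ^ k → b < p ^ k →
    (∀ j < k, a / p ^ j % p = b / p ^ j % p) → a = b := by
  intro k
  induction k with
  | zero => intro a b ha hb _; simp at ha hb; omega
  | succ k ih =>
    intro a b ha hb h
    have h0 := h 0 (Nat.succ_pos _)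
    simp at h0
    have h1 : a / p = b / p := by
      apply ih
      · rw [Nat.div_lt_iff_lt_mul hp]; rwa [pow_succ] at ha
      · rw [Nat.div_lt_iff_lt_mul hp]; rwa [pow_succ] at hb
      · intro j hj
        have := h (j + 1) (by omega)
        rwa [pow_succ', ← Nat.div_div_eq_div_mul, ← Nat.div_div_eq_div_mul] at this
    rw [← Nat.mod_add_div a p, ← Nat.mod_add_div b p, h0, h1]

theorem exists_digit_ne {p : ℕ} [hp : Fact p.Prime] {k : ℕ} {a b : ZMod (p ^ k)} (h : a ≠ b) :
    ∃ j < k, digit p j a ≠ digit p j b := by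
  have : NeZero (p ^ k) := ⟨pow_ne_zero _ hp.out.ne_zero⟩
  by_contra hcon
  push Not at hcon
  apply h
  apply ZMod.val_injective
  apply eq_of_digits hp.out.pos k _ _ (ZMod.val_lt a) (ZMod.val_lt b)
  intro j hj
  have := hcon j hj
  unfold digit at this
  rwa [ZMod.natCast_eq_natCast_iff, Nat.ModEq] at this

/-- From coefficients modulo a prime power to coefficients modulo the prime. -/
theorem exists_prime_of_primePow {p : ℕ} [hp : Fact p.Prime] {k : ℕ} {v : Knot → ZMod (p ^ k)}
    {d : ℕ} (hv : HasOrderLE v d) {K K' : Knot} (h : v K ≠ v K') :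
    ∃ w : Knot → ZMod p, HasOrderLE w (d * p ^ (k - 1)) ∧ w K ≠ w K' := by
  have : NeZero (p ^ k) := ⟨pow_ne_zero _ hp.out.ne_zero⟩
  obtain ⟨j, hj, hne⟩ := exists_digit_ne h
  refine ⟨fun K => digit p j (v K), ?_, hne⟩
  intro n
  rw [onBraids_comp v (digit p j) (digit_zero p j)]
  refine (vanishes_digit hj (hv n)).mono ?_
  have : p ^ j ≤ p ^ (k - 1) := Nat.pow_le_pow_right hp.out.pos (by omega)
  have := Nat.mul_le_mul_left d this
  omega

/-- A finite type invariant takes its values in a finitely generated group. -/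
theorem HasOrderLE.restrict {v : Knot → A} {d : ℕ} (hv : HasOrderLE v d) :
    ∃ (S : Submodule ℤ A) (v' : Knot → S), S.FG ∧ HasOrderLE v' d ∧ ∀ K, (v' K : A) = v K := by
  refine ⟨Submodule.span ℤ (Set.range v), fun K => ⟨v K, Submodule.subset_span ⟨K, rfl⟩⟩,
    span_range_fg (d + 1) v hv, ?_, fun K => rfl⟩
  exact HasOrderLE.of_map (Submodule.span ℤ (Set.range v)).subtype.toAddMonoidHom
    (Submodule.subtype_injective _) hv

end Pool.Agent.LibH11
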