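import Pool.Agent.LibH11.Fg

/-! The representations of the braid groups on tensor powers given by the R-matrix of `gl_N`. -/

namespace Pool.Agent.LibH11

section Local

variable {P C R : Type*} [DecidableEq P] [LinearOrder C] [CommRing R]

/-- The R-matrix at the places `x`, `y`, on functions of the colourings `P → C`. -/
def op (q z : R) (x y : P) : ((P → C) → R) →ₗ[R] ((P → C) → R) where
  toFun f s := if s x = s y then q * f s else
    f (s ∘ Equiv.swap x y) + (if s x < s y then z * f s else 0)
  map_add' f g := by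
    funext s
    simp only [Pi.add_apply]
    split_ifs <;> ring
  map_smul' c f := by
    funext s
    simp only [Pi.smul_apply, smul_eq_mul, RingHom.id_apply]
    split_ifs <;> ring

theorem op_apply (q z : R) (x y : P) (f : (P → C) → R) (s : P → C) :
    op q z x y f s = if s x = s y then q * f s else
      f (s ∘ Equiv.swap x y) + (if s x < s y then z * f s else 0) := rfl

theorem op_op {q z : R} (hz : q * q = 1 + z * q) {x y : P} (f : (P → C) → R) :
    op q z x y (op q z x y f) = f + z • op q z x y f := by
  funext s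
  have e1 : (s ∘ Equiv.swap x y) ∘ Equiv.swap x y = s := by
    rw [Function.comp_assoc, ← Equiv.coe_trans]; simp
  simp only [op_apply, Pi.add_apply, Pi.smul_apply, smul_eq_mul, Function.comp_apply,
    Equiv.swap_apply_left, Equiv.swap_apply_right, e1]
  rcases lt_trichotomy (s x) (s y) with h | h | h
  · simp only [h.ne, h.ne', if_false, h, h.not_gt, if_true]; ring
  · simp only [h, if_true]; linear_combination (f s) * hz
  · simp only [h.ne, h.ne', if_false, h, h.not_gt, if_true]; ring

theorem op_far {q z : R} {x y u v : P} (h1 : x ≠ u) (h2 : x ≠ v) (h3 : y ≠ u) (h4 : y ≠ v)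
    (f : (P → C) → R) :
    op q z x y (op q z u v f) = op q z u v (op q z x y f) := by
  funext s
  have e1 : (s ∘ Equiv.swap x y) ∘ Equiv.swap u v = (s ∘ Equiv.swap u v) ∘ Equiv.swap x y := by
    have : Equiv.swap x y * Equiv.swap u v = Equiv.swap u v * Equiv.swap x y := by
      refine (Equiv.Perm.Disjoint.commute ?_).eq
      rw [Equiv.Perm.disjoint_iff_eq_or_eq]
      intro w
      by_cases hw : w = x ∨ w = y
      · right
        apply Equiv.swap_apply_of_ne_of_ne <;> (rintro rfl; tauto)
      · left
        exact Equiv.swap_apply_of_ne_of_ne (fun h => hw (Or.inl h)) (fun h => hw (Or.inr h))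
    funext w
    exact congrArg s (DFunLike.congr_fun this w)
  have a1 : Equiv.swap x y u = u := Equiv.swap_apply_of_ne_of_ne h1.symm h3.symm
  have a2 : Equiv.swap x y v = v := Equiv.swap_apply_of_ne_of_ne h2.symm h4.symm
  have a3 : Equiv.swap u v x = x := Equiv.swap_apply_of_ne_of_ne h1 h2
  have a4 : Equiv.swap u v y = y := Equiv.swap_apply_of_ne_of_ne h3 h4
  simp only [op_apply, Function.comp_apply, a1, a2, a3, a4, e1]
  split_ifs <;> ring

theorem op_braid {q z : R} (hz : q * q = 1 + z * q) {x y w : P} (h1 : x ≠ y) (h2 : y ≠ w)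
    (h3 : x ≠ w) (f : (P → C) → R) :
    op q z x y (op q z y w (op q z x y f)) = op q z y w (op q z x y (op q z y w f)) := by
  funext s
  have e1 : ∀ s : P → C, (s ∘ Equiv.swap x y) ∘ Equiv.swap x y = s := by
    intro s; rw [Function.comp_assoc, ← Equiv.coe_trans]; simp
  have e2 : ∀ s : P → C, (s ∘ Equiv.swap y w) ∘ Equiv.swap y w = s := by
    intro s; rw [Function.comp_assoc, ← Equiv.coe_trans]; simp
  have e3 : ((s ∘ Equiv.swap x y) ∘ Equiv.swap y w) ∘ Equiv.swap x y =
      ((s ∘ Equiv.swap y w) ∘ Equiv.swap x y) ∘ Equiv.swap y w := by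
    have b1 : Equiv.swap x y * Equiv.swap y w * Equiv.swap x y = Equiv.swap x w := by
      rw [Equiv.swap_comm x y, Equiv.swap_comm y w]
      exact Equiv.swap_mul_swap_mul_swap h2.symm h3.symm
    have b2 : Equiv.swap y w * Equiv.swap x y * Equiv.swap y w = Equiv.swap w x :=
      Equiv.swap_mul_swap_mul_swap h1 h3
    have b3 : Equiv.swap x y * Equiv.swap y w * Equiv.swap x y =
      Equiv.swap y w * Equiv.swap x y * Equiv.swap y w := by rw [b1, b2, Equiv.swap_comm]
    funext v
    exact congrArg s (DFunLike.congr_fun b3 v)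
  have a1 : Equiv.swap x y w = w := Equiv.swap_apply_of_ne_of_ne h3.symm h2.symm
  have a2 : Equiv.swap y w x = x := Equiv.swap_apply_of_ne_of_ne h1 h3
  simp only [op_apply, Function.comp_apply, a1, a2, Equiv.swap_apply_left,
    Equiv.swap_apply_right, e1, e2, e3]
  have tri : ∀ a b : C, (a < b ∧ ¬ a = b ∧ ¬ b = a ∧ ¬ b < a) ∨ a = b ∨
      (b < a ∧ ¬ a = b ∧ ¬ b = a ∧ ¬ a < b) := by
    intro a b
    rcases lt_trichotomy a b with h | h | h
    · exact Or.inl ⟨h, h.ne, h.ne', h.not_gt⟩
    · exact Or.inr (Or.inl h)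
    · exact Or.inr (Or.inr ⟨h, h.ne', h.ne, h.not_gt⟩)
  rcases tri (s x) (s y) with ⟨p1, p2, p3, p4⟩ | p | ⟨p1, p2, p3, p4⟩ <;>
  rcases tri (s y) (s w) with ⟨q1, q2, q3, q4⟩ | q' | ⟨q1, q2, q3, q4⟩ <;>
  rcases tri (s x) (s w) with ⟨r1, r2, r3, r4⟩ | r | ⟨r1, r2, r3, r4⟩ <;>
  first
  | (exfalso; order)
  | (simp only [*, if_true, if_false, lt_irrefl] <;>
     first
     | ring1
     | linear_combination (z * f s) * hz
     | linear_combination -(z * f s) * hz)

end Local

section Rep

variable {C R : Type*} [LinearOrder C] [CommRing R] {n : ℕ}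

/-- `q - q⁻¹` -/
def zz (q : Rˣ) : R := (q : R) - ((q⁻¹ : Rˣ) : R)

theorem zz_eq (q : Rˣ) : (q : R) * q = 1 + zz q * q := by
  unfold zz
  rw [sub_mul, Units.inv_mul]; ring

/-- The image of the generator `σ_i`, normalised by a factor `a⁻¹`. -/
def opU (q a : Rˣ) (i : Fin n) : (Module.End R ((Fin (n + 1) → C) → R))ˣ where
  val := ((a⁻¹ : Rˣ) : R) • op (q : R) (zz q) i.castSucc i.succ
  inv := (a : R) • (op (q : R) (zz q) i.castSucc i.succ - zz q • 1)
  val_inv := by
    refine LinearMap.ext fun f => funext fun s => ?_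
    have h := op_op (zz_eq q) (x := i.castSucc) (y := i.succ) f
    have ha : (a : R) * ((a⁻¹ : Rˣ) : R) = 1 := Units.mul_inv a
    simp only [Module.End.mul_apply, LinearMap.smul_apply, LinearMap.sub_apply, map_smul,
      map_sub, Module.End.one_apply, h, Pi.smul_apply, Pi.sub_apply, Pi.add_apply, smul_eq_mul]
    linear_combination (f s) * ha
  inv_val := by
    refine LinearMap.ext fun f => funext fun s => ?_
    have h := op_op (zz_eq q) (x := i.castSucc) (y := i.succ) f
    have ha : (a : R) * ((a⁻¹ : Rˣ) : R) = 1 := Units.mul_inv a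
    simp only [Module.End.mul_apply, LinearMap.smul_apply, LinearMap.sub_apply, map_smul,
      Module.End.one_apply, h, Pi.smul_apply, Pi.sub_apply, Pi.add_apply, smul_eq_mul]
    linear_combination (f s) * ha

theorem castSucc_ne_succ' (i : Fin n) : i.castSucc ≠ i.succ := by
  simp [Fin.ext_iff]

/-- The representation of the braid group on the tensor power. -/
def rep (C : Type*) [LinearOrder C] (q a : Rˣ) (n : ℕ) :
    Br n →* (Module.End R ((Fin (n + 1) → C) → R))ˣ :=
  liftBr (fun i => opU q a i)
    (by
      intro i j hij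
      apply Units.ext
      ext1 f
      have h := op_far (q := (q : R)) (z := zz q) (x := i.castSucc) (y := i.succ)
        (u := j.castSucc) (v := j.succ) (by simp [Fin.ext_iff]; omega)
        (by simp [Fin.ext_iff]; omega) (by simp [Fin.ext_iff]; omega)
        (by simp [Fin.ext_iff]; omega) f
      simp only [opU, Units.val_mul, Module.End.mul_apply, LinearMap.smul_apply, map_smul, h])
    (by
      intro i j hij
      apply Units.ext
      ext1 f
      have hij' : i.succ = j.castSucc := by
        simp only [Fin.ext_iff, Fin.val_castSucc, Fin.val_succ]; omega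
      have h := op_braid (zz_eq q) (x := i.castSucc) (y := i.succ) (w := j.succ)
        (castSucc_ne_succ' i) (by rw [hij']; exact castSucc_ne_succ' j)
        (by simp [Fin.ext_iff]; omega) f
      simp only [opU, Units.val_mul, Module.End.mul_apply, LinearMap.smul_apply, map_smul,
        ← hij', h])

@[simp] theorem rep_sg (q a : Rˣ) (i : Fin n) : rep C q a n (sg i) = opU q a i := by
  simp [rep]

/-- Induction on braids. -/
theorem br_induction {P : Br n → Prop} (h1 : P 1) (hs : ∀ i, P (sg i))
    (hm : ∀ x y, P x → P y → P (x * y)) (hi : ∀ x, P x → P x⁻¹) (b : Br n) : P b := by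
  have : b ∈ Subgroup.closure (Set.range (PresentedGroup.of (rels := braidRels n))) := by
    rw [PresentedGroup.closure_range_of]; trivial
  induction this using Subgroup.closure_induction with
  | mem x hx => obtain ⟨i, rfl⟩ := hx; exact hs i
  | one => exact h1
  | mul x y _ _ hx hy => exact hm x y hx hy
  | inv x _ hx => exact hi x hx

omit [LinearOrder C] in
theorem snoc_comp_swap (t : Fin (n + 1) → C) (c : C) (x y : Fin (n + 1)) :
    (Fin.snoc t c : Fin (n + 2) → C) ∘ Equiv.swap x.castSucc y.castSucc =
      Fin.snoc (t ∘ Equiv.swap x y) c := by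
  funext w
  refine Fin.lastCases ?_ (fun w => ?_) w
  · simp only [Function.comp_apply]
    rw [Equiv.swap_apply_of_ne_of_ne (Fin.castSucc_lt_last x).ne' (Fin.castSucc_lt_last y).ne',
      Fin.snoc_last, Fin.snoc_last]
  · simp only [Function.comp_apply, Fin.snoc_castSucc]
    have : Equiv.swap x.castSucc y.castSucc w.castSucc = (Equiv.swap x y w).castSucc := by
      rw [Equiv.swap_apply_def, Equiv.swap_apply_def]
      simp only [Fin.castSucc_inj]
      split_ifs <;> rfl
    rw [this, Fin.snoc_castSucc]

theorem op_snoc (q z : R) (x y : Fin (n + 1)) (f : (Fin (n + 2) → C) → R)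
    (t : Fin (n + 1) → C) (c : C) :
    op q z x.castSucc y.castSucc f (Fin.snoc t c) =
      op q z x y (fun t' => f (Fin.snoc t' c)) t := by
  simp only [op_apply, Fin.snoc_castSucc, snoc_comp_swap]

theorem rep_incl (q a : Rˣ) (b : Br n) : ∀ (f : (Fin (n + 2) → C) → R)
    (t : Fin (n + 1) → C) (c : C),
    (rep C q a (n + 1) (incl b)).val f (Fin.snoc t c) =
      (rep C q a n b).val (fun t' => f (Fin.snoc t' c)) t := by
  induction b using br_induction with
  | h1 => intro f t c; simp
  | hs i =>
    intro f t c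
    rw [incl_sg, rep_sg, rep_sg]
    simp only [opU, LinearMap.smul_apply, Pi.smul_apply]
    rw [show i.castSucc.succ = i.succ.castSucc from Fin.succ_castSucc i, op_snoc]
  | hm x y hx hy =>
    intro f t c
    rw [map_mul, map_mul, map_mul, Units.val_mul, Units.val_mul, Module.End.mul_apply,
      Module.End.mul_apply, hx]
    refine congrArg (fun g => (rep C q a n x).val g t) ?_
    funext t'
    exact hy f t' c
  | hi x hx =>
    intro f t c
    rw [map_inv, map_inv, map_inv]
    set A' := rep C q a (n + 1) (incl x)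
    set A := rep C q a n x
    have h1 : f = A'.val (A'⁻¹.val f) := by
      rw [← Module.End.mul_apply, Units.mul_inv]; rfl
    have h2 : (fun t' => f (Fin.snoc t' c)) = A.val (fun t' => (A'⁻¹.val f) (Fin.snoc t' c)) := by
      funext t'
      conv_lhs => rw [h1]
      exact hx _ t' c
    rw [h2, ← Module.End.mul_apply, Units.inv_mul]
    rfl

end Rep

end Pool.Agent.LibH11
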