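import Pool.Agent.LibH11.BraidKnots

/-! Calculus of functions on braid groups that vanish on singular braids. -/

namespace Pool.Agent.LibH11

variable {A : Type*} [AddCommGroup A] {C : Type*} [AddCommGroup C] {n : ℕ}

/-- The difference of the two resolutions of a double point. -/
def dif (a : Br n) (i : Fin n) (f : Br n → A) : Br n → A :=
  fun x => f (a * sg i * x) - f (a * (sg i)⁻¹ * x)

theorem vanishes_succ {k : ℕ} {f : Br n → A} :
    Vanishes (k + 1) f ↔ ∀ a i, Vanishes k (dif a i f) := Iff.rfl

theorem Vanishes.map {k : ℕ} : ∀ {f : Br n → A}, Vanishes k f → ∀ φ : A →+ C,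
    Vanishes k (fun x => φ (f x)) := by
  induction k with
  | zero => intro f h φ x; simp [h x]
  | succ k ih =>
    intro f h φ a i
    have := ih (h a i) φ
    simpa only [map_sub] using this

theorem Vanishes.add {k : ℕ} : ∀ {f g : Br n → A}, Vanishes k f → Vanishes k g →
    Vanishes k (fun x => f x + g x) := by
  induction k with
  | zero => intro f g hf hg x; simp [hf x, hg x]
  | succ k ih =>
    intro f g hf hg a i
    have := ih (hf a i) (hg a i)
    refine (congrArg (Vanishes k) ?_).mp this
    funext x; beta_reduce; abel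

theorem Vanishes.sub {k : ℕ} : ∀ {f g : Br n → A}, Vanishes k f → Vanishes k g →
    Vanishes k (fun x => f x - g x) := by
  induction k with
  | zero => intro f g hf hg x; simp [hf x, hg x]
  | succ k ih =>
    intro f g hf hg a i
    have := ih (hf a i) (hg a i)
    refine (congrArg (Vanishes k) ?_).mp this
    funext x; beta_reduce; abel

theorem Vanishes.neg {k : ℕ} : ∀ {f : Br n → A}, Vanishes k f →
    Vanishes k (fun x => - f x) := by
  induction k with
  | zero => intro f hf x; simp [hf x]
  | succ k ih =>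
    intro f hf a i
    have := ih (hf a i)
    refine (congrArg (Vanishes k) ?_).mp this
    funext x; beta_reduce; abel

theorem vanishes_zero {k : ℕ} : Vanishes k (fun _ : Br n => (0 : A)) := by
  induction k with
  | zero => intro x; rfl
  | succ k ih =>
    intro a i
    simpa using ih

theorem vanishes_const {k : ℕ} (c : A) : Vanishes (k + 1) (fun _ : Br n => c) := by
  intro a i
  simpa using (vanishes_zero : Vanishes k (fun _ : Br n => (0 : A)))

theorem Vanishes.sum {k : ℕ} {ι : Type*} (s : Finset ι) (f : ι → Br n → A)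
    (h : ∀ i ∈ s, Vanishes k (f i)) : Vanishes k (fun x => ∑ i ∈ s, f i x) := by
  classical
  induction s using Finset.induction_on with
  | empty => simpa using (vanishes_zero : Vanishes k (fun _ : Br n => (0 : A)))
  | insert i s hi ih =>
    simp only [Finset.sum_insert hi]
    exact (h i (Finset.mem_insert_self _ _)).add
      (ih (fun j hj => h j (Finset.mem_insert_of_mem hj)))

theorem Vanishes.left {k : ℕ} : ∀ {f : Br n → A}, Vanishes k f → ∀ b : Br n,
    Vanishes k (fun x => f (b * x)) := by
  induction k with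
  | zero => intro f h b x; exact h _
  | succ k ih =>
    intro f h b a i
    have := h (b * a) i
    simpa only [mul_assoc] using this

theorem Vanishes.right {k : ℕ} : ∀ {f : Br n → A}, Vanishes k f → ∀ b : Br n,
    Vanishes k (fun x => f (x * b)) := by
  induction k with
  | zero => intro f h b x; exact h _
  | succ k ih =>
    intro f h b a i
    have := ih (h a i) b
    simpa only [mul_assoc] using this

theorem Vanishes.succ {k : ℕ} {f : Br n → A} (h : Vanishes k f) : Vanishes (k + 1) f := by
  intro a i
  exact (h.left (a * sg i)).sub (h.left (a * (sg i)⁻¹))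

theorem Vanishes.mono {k l : ℕ} {f : Br n → A} (h : Vanishes k f) (hkl : k ≤ l) :
    Vanishes l f := by
  induction hkl with
  | refl => exact h
  | step _ ih => exact ih.succ

theorem Vanishes.incl {k : ℕ} : ∀ {f : Br (n + 1) → A}, Vanishes k f →
    Vanishes k (fun x : Br n => f (incl x)) := by
  induction k with
  | zero => intro f h x; exact h _
  | succ k ih =>
    intro f h a i
    have := ih (h (LibH11.incl a) i.castSucc)
    refine (congrArg (Vanishes k) ?_).mp this
    funext x
    simp [LibH11.incl]

/-! ### The cyclic braids and the kernel of `perm` -/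

@[simp] theorem perm_sg (i : Fin n) : perm (sg i) = Equiv.swap i.castSucc i.succ := by
  simp [perm]

@[simp] theorem incl_sg (i : Fin n) : incl (sg i) = (sg i.castSucc : Br (n + 1)) := by
  simp [incl]

/-- The braid `σ_y σ_{y+1} ⋯ σ_{n-1}`. -/
def cyc (n y : ℕ) : Br n := (((List.finRange n).drop y).map sg).prod

theorem cyc_self : cyc n n = 1 := by
  simp [cyc, List.drop_eq_nil_of_le]

theorem cyc_lt {y : ℕ} (h : y < n) : cyc n y = sg ⟨y, h⟩ * cyc n (y + 1) := by
  unfold cyc
  rw [List.drop_eq_getElem_cons (by simpa using h)]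
  simp

theorem sg_comm' {i j : Fin n} (h : (i : ℕ) + 2 ≤ j ∨ (j : ℕ) + 2 ≤ i) :
    (sg i * sg j : Br n) = sg j * sg i := by
  rcases h with h | h
  · exact sg_comm i j h
  · exact (sg_comm j i h).symm

theorem sg_cyc_far (i : Fin n) {y : ℕ} (h : (i : ℕ) + 2 ≤ y) :
    sg i * cyc n y = cyc n y * sg i := by
  have : Commute (sg i) (cyc n y) := by
    refine Commute.list_prod_right _ _ ?_
    intro z hz
    rw [List.mem_map] at hz
    obtain ⟨j, hj, rfl⟩ := hz
    rw [List.mem_iff_getElem] at hj
    obtain ⟨m, hm, rfl⟩ := hj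
    refine sg_comm' (Or.inl ?_)
    simp
    omega
  exact this.eq

theorem sg_cyc_near (i : Fin n) {y : ℕ} (h : y < (i : ℕ)) :
    sg i * cyc n y = cyc n y * sg ⟨i - 1, by omega⟩ := by
  obtain ⟨d, hd⟩ : ∃ d, (i : ℕ) = y + 1 + d := ⟨i - (y + 1), by omega⟩
  induction d generalizing y with
  | zero =>
    have hi : (i : ℕ) = y + 1 := by omega
    have hy : y < n := by omega
    have hy1 : y + 1 < n := by omega
    have ei : i = ⟨y + 1, hy1⟩ := Fin.ext hi
    have e1 : (⟨(i : ℕ) - 1, by omega⟩ : Fin n) = ⟨y, hy⟩ := Fin.ext (by simp; omega)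
    rw [e1, ei, cyc_lt hy, cyc_lt hy1]
    have hb := sg_braid (⟨y, hy⟩ : Fin n) ⟨y + 1, hy1⟩ rfl
    have hf := sg_cyc_far (⟨y, hy⟩ : Fin n) (y := y + 1 + 1) (by simp)
    calc sg ⟨y + 1, hy1⟩ * (sg ⟨y, hy⟩ * (sg ⟨y + 1, hy1⟩ * cyc n (y + 1 + 1)))
        = (sg ⟨y + 1, hy1⟩ * sg ⟨y, hy⟩ * sg ⟨y + 1, hy1⟩) * cyc n (y + 1 + 1) := by
          simp only [mul_assoc]
      _ = sg ⟨y, hy⟩ * sg ⟨y + 1, hy1⟩ * (sg ⟨y, hy⟩ * cyc n (y + 1 + 1)) := by
          rw [← hb]; simp only [mul_assoc]
      _ = sg ⟨y, hy⟩ * (sg ⟨y + 1, hy1⟩ * cyc n (y + 1 + 1)) * sg ⟨y, hy⟩ := by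
          rw [hf]; simp only [mul_assoc]
  | succ d ih =>
    have hy : y < n := by omega
    rw [cyc_lt hy]
    have h1 : (sg i * sg ⟨y, hy⟩ : Br n) = sg ⟨y, hy⟩ * sg i :=
      sg_comm' (Or.inr (by simp; omega))
    rw [← mul_assoc, h1, mul_assoc, ih (y := y + 1) (by omega) (by omega), mul_assoc]

theorem perm_incl_castSucc (b : Br n) (x : Fin (n + 1)) :
    perm (incl b) x.castSucc = (perm b x).castSucc := by
  induction b using PresentedGroup.induction_on with
  | _ w =>
    induction w using FreeGroup.induction_on generalizing x with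
    | C1 => simp
    | of i =>
      change perm (incl (sg i)) x.castSucc = (perm (sg i) x).castSucc
      simp only [incl_sg, perm_sg, Equiv.swap_apply_def, Fin.ext_iff, Fin.val_castSucc,
        Fin.val_succ]
      split_ifs <;> simp_all
    | inv_of i _ =>
      change perm (incl (sg i)⁻¹) x.castSucc = (perm (sg i)⁻¹ x).castSucc
      simp only [map_inv, incl_sg, perm_sg, Equiv.swap_inv, Equiv.swap_apply_def, Fin.ext_iff,
        Fin.val_castSucc, Fin.val_succ]
      split_ifs <;> simp_all
    | mul u w hu hw =>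
      simp only [map_mul, Equiv.Perm.mul_apply] at *
      rw [hw, hu]

theorem perm_incl_last (b : Br n) :
    perm (incl b) (Fin.last (n + 1)) = Fin.last (n + 1) := by
  induction b using PresentedGroup.induction_on with
  | _ w =>
    induction w using FreeGroup.induction_on with
    | C1 => simp
    | of i =>
      change perm (incl (sg i)) (Fin.last (n + 1)) = _
      rw [incl_sg, perm_sg]
      apply Equiv.swap_apply_of_ne_of_ne
      · intro h; simp [Fin.ext_iff] at h; omega
      · intro h; simp [Fin.ext_iff] at h; omega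
    | inv_of i _ =>
      change perm (incl (sg i)⁻¹) (Fin.last (n + 1)) = _
      rw [map_inv, incl_sg, map_inv, perm_sg, Equiv.swap_inv]
      apply Equiv.swap_apply_of_ne_of_ne
      · intro h; simp [Fin.ext_iff] at h; omega
      · intro h; simp [Fin.ext_iff] at h; omega
    | mul u w hu hw =>
      simp only [map_mul, Equiv.Perm.mul_apply] at *
      rw [hw, hu]

theorem perm_cyc_last (y : Fin (n + 1)) : perm (cyc n y) (Fin.last n) = y := by
  obtain ⟨y, hy⟩ := y
  obtain ⟨d, hd⟩ : ∃ d, n = y + d := ⟨n - y, by omega⟩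
  induction d generalizing y with
  | zero =>
    have : y = n := by omega
    subst this
    simp [cyc_self, Fin.last]
  | succ d ih =>
    have hyn : y < n := by omega
    change perm (cyc n y) (Fin.last n) = _
    rw [cyc_lt hyn, map_mul, Equiv.Perm.mul_apply]
    have := ih (y + 1) (by omega) (by omega)
    change perm (cyc n (y + 1)) (Fin.last n) = _ at this
    rw [this, perm_sg]
    have e : (⟨y + 1, by omega⟩ : Fin (n + 1)) = Fin.succ ⟨y, hyn⟩ := rfl
    rw [e, Equiv.swap_apply_right]
    rfl

end Pool.Agent.LibH11
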