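import Pool.Agent.LibH11.Fg

/-! The exponent sum of a braid, and twisting families of knots. -/

namespace Pool.Agent.LibH11

variable {n : ℕ}

/-- The exponent sum (writhe) of a braid: the homomorphism to the integers (written
multiplicatively) that sends every generator `σ_i` to `1`. -/
def expSum {n : ℕ} : Br n →* Multiplicative ℤ :=
  liftBr (fun _ => Multiplicative.ofAdd 1) (fun _ _ _ => rfl) (fun _ _ _ => rfl)

@[simp] theorem expSum_sg (i : Fin n) : expSum (sg i) = Multiplicative.ofAdd 1 := by
  simp [expSum]

theorem isKnot_twist {b p : Br n} (hb : IsKnot b) (hp : perm p = 1) (m : ℤ) :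
    IsKnot (b * p ^ m) := by
  rw [IsKnot.congr (b := b) (by rw [map_mul, map_zpow, hp, one_zpow, mul_one])]
  exact hb

/-- The knot obtained from the closure of `b` by inserting `m` copies of the pure braid `p`:
the closure of `b p^m`. -/
def twist (b p : Br n) (hb : IsKnot b) (hp : perm p = 1) (m : ℤ) : Knot :=
  closure (b * p ^ m) (isKnot_twist hb hp m)

end Pool.Agent.LibH11
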