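import Pool.Agent.LibH11.GlFT
import Pool.Agent.LibH11.TwistDefs

/-! The behaviour of the coefficients of the `gl_N` invariants under twisting by a pure braid. -/

namespace Pool.Agent.LibH11

open PowerSeries

variable {n N : ℕ}

/-! ### Permutation matrices on colourings -/

/-- The permutation `g` of the places as a matrix on the colourings. -/
def pm (N : ℕ) {n : ℕ} (g : Equiv.Perm (Fin (n + 1))) :
    Matrix (Fin (n + 1) → Fin N) (Fin (n + 1) → Fin N) ℤ :=
  Matrix.of fun s t => if s ∘ g = t then 1 else 0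

theorem pm_one : pm N (1 : Equiv.Perm (Fin (n + 1))) = 1 := by
  ext s t
  simp only [pm, Matrix.of_apply, Equiv.Perm.coe_one, Function.comp_id, Matrix.one_apply]
  congr

theorem pm_mul (g h : Equiv.Perm (Fin (n + 1))) : pm N (g * h) = pm N g * pm N h := by
  ext s t
  rw [Matrix.mul_apply]
  simp only [pm, Matrix.of_apply]
  simp only [ite_mul, one_mul, zero_mul, Finset.sum_ite_eq, Finset.mem_univ, if_true]
  rfl

theorem pm_transpose (g : Equiv.Perm (Fin (n + 1))) : (pm N g).transpose = pm N g⁻¹ := by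
  ext s t
  simp only [pm, Matrix.transpose_apply, Matrix.of_apply]
  have : t ∘ g = s ↔ s ∘ ⇑g⁻¹ = t := by
    constructor
    · rintro rfl; funext x; simp
    · rintro rfl; funext x; simp
  simp only [this]

/-! ### Reduction modulo `X` -/

/-- Endomorphisms over the power series. -/
abbrev EN (n N : ℕ) : Type :=
  Module.End (PowerSeries ℤ) ((Fin (n + 1) → Fin N) → PowerSeries ℤ)

/-- The matrix modulo `X`. -/
noncomputable def red (A : EN n N) :
    Matrix (Fin (n + 1) → Fin N) (Fin (n + 1) → Fin N) ℤ :=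
  (LinearMap.toMatrix' A).map constantCoeff

theorem red_mul (A B : EN n N) : red (A * B) = red A * red B := by
  unfold red
  rw [LinearMap.toMatrix'_mul, Matrix.map_mul]

theorem red_one : red (1 : EN n N) = 1 := by
  unfold red
  rw [LinearMap.toMatrix'_one]
  exact Matrix.map_one _ (map_zero _) (map_one _)

theorem red_smul (r : PowerSeries ℤ) (A : EN n N) : red (r • A) = constantCoeff r • red A := by
  ext s t
  simp [red, LinearMap.toMatrix'_apply]

theorem red_add (A B : EN n N) : red (A + B) = red A + red B := by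
  ext s t
  simp [red, LinearMap.toMatrix'_apply]

theorem red_sub (A B : EN n N) : red (A - B) = red A - red B := by
  ext s t
  simp [red, LinearMap.toMatrix'_apply]

theorem red_neg (A : EN n N) : red (-A) = - red A := by
  ext s t
  simp [red, LinearMap.toMatrix'_apply]

theorem red_pow (A : EN n N) (k : ℕ) : red (A ^ k) = red A ^ k := by
  induction k with
  | zero => rw [pow_zero, pow_zero, red_one]
  | succ k ih => rw [pow_succ, pow_succ, red_mul, ih]

theorem red_op (x y : Fin (n + 1)) :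
    red (op (qq : PowerSeries ℤ) (zz qq) x y : EN n N) = pm N (Equiv.swap x y) := by
  ext s t
  simp only [red, Matrix.map_apply, LinearMap.toMatrix'_apply, op_apply, pm, Matrix.of_apply,
    Pi.single_apply]
  by_cases h : s x = s y
  · have h1 : s ∘ Equiv.swap x y = s := by
      funext w
      simp only [Function.comp_apply, Equiv.swap_apply_def]
      split_ifs with h2 h3
      · rw [h2, h]
      · rw [h3, h]
      · rfl
    rw [if_pos h, h1]
    split_ifs <;> simp
  · rw [if_neg h]
    split_ifs <;> simp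

theorem red_rp (b : Br n) : red (rp N n b).val = pm N (perm b) := by
  induction b using br_induction with
  | h1 => rw [map_one, map_one, pm_one, Units.val_one, red_one]
  | hs i =>
    rw [rep_sg]
    change red (((((aa N)⁻¹ : (PowerSeries ℤ)ˣ) : PowerSeries ℤ)) •
      (op (qq : PowerSeries ℤ) (zz qq) i.castSucc i.succ : EN n N)) = _
    rw [red_smul, cc_aa_inv, one_smul, red_op, perm_sg]
  | hm x y hx hy => rw [map_mul, map_mul, Units.val_mul, red_mul, hx, hy, pm_mul]
  | hi x hx =>
    have h1 : red (rp N n x⁻¹).val * red (rp N n x).val = 1 := by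
      rw [← red_mul, ← Units.val_mul, ← map_mul, inv_mul_cancel, map_one, Units.val_one, red_one]
    have h2 : red (rp N n x).val * pm N (perm x⁻¹) = 1 := by
      rw [hx, ← pm_mul, map_inv, mul_inv_cancel, pm_one]
    exact left_inv_eq_right_inv h1 h2

theorem cc_tr (A : EN n N) : constantCoeff (tr' A) = (red A).trace := by
  unfold tr'
  rw [qtr_eq, map_sum, Matrix.trace]
  apply Finset.sum_congr rfl
  intro s _
  rw [map_mul]
  have : constantCoeff (mus qq (aa N) s : PowerSeries ℤ) = 1 := by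
    unfold mus mu
    rw [map_prod]
    apply Finset.prod_eq_one
    intro i _
    rw [map_mul, map_pow, cc_qq, one_pow, cc_aa_inv, one_mul]
  rw [this, one_mul]
  rfl

/-! ### First order terms -/

/-- The first order term of the representation at a pure braid. -/
def Der (N : ℕ) {n : ℕ} (p : Br n)
    (B : Matrix (Fin (n + 1) → Fin N) (Fin (n + 1) → Fin N) ℤ) : Prop :=
  ∃ Y : EN n N, (rp N n p).val = 1 + (X : PowerSeries ℤ) • Y ∧ red Y = B

theorem Der.red_eq {p : Br n} {B} (h : Der N p B) : red (rp N n p).val = 1 := by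
  obtain ⟨Y, h1, -⟩ := h
  rw [h1, red_add, red_one, red_smul]; simp

theorem der_one : Der N (1 : Br n) 0 :=
  ⟨0, by rw [map_one, Units.val_one, smul_zero, add_zero], by
    ext s t; simp [red]⟩

theorem Der.mul {p p' : Br n} {B B'} (h : Der N p B) (h' : Der N p' B') :
    Der N (p * p') (B + B') := by
  obtain ⟨Y, h1, h2⟩ := h
  obtain ⟨Y', h1', h2'⟩ := h'
  refine ⟨Y + Y' + (X : PowerSeries ℤ) • (Y * Y'), ?_, ?_⟩
  · rw [map_mul, Units.val_mul, h1, h1']
    rw [add_mul, one_mul, mul_add, mul_one, smul_mul_assoc, mul_smul_comm, smul_add, smul_add]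
    abel
  · rw [red_add, red_add, red_smul, h2, h2']; simp

theorem Der.inv {p : Br n} {B} (h : Der N p B) : Der N p⁻¹ (-B) := by
  obtain ⟨Y, h1, h2⟩ := h
  have h3 : Der N p B := ⟨Y, h1, h2⟩
  refine ⟨-((rp N n p⁻¹).val * Y), ?_, ?_⟩
  · have h4 : (rp N n p⁻¹).val * (rp N n p).val = 1 := by
      rw [← Units.val_mul, ← map_mul, inv_mul_cancel, map_one, Units.val_one]
    rw [h1, mul_add, mul_one, mul_smul_comm] at h4
    rw [smul_neg, ← h4]; abel
  · have h5 : red (rp N n p⁻¹).val = 1 := by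
      have h6 : red (rp N n p⁻¹).val * red (rp N n p).val = 1 := by
        rw [← red_mul, ← Units.val_mul, ← map_mul, inv_mul_cancel, map_one, Units.val_one,
          red_one]
      rw [h3.red_eq, mul_one] at h6
      exact h6
    rw [red_neg, red_mul, h5, h2, one_mul]

theorem Der.conj {p : Br n} {B} (h : Der N p B) (g : Br n) :
    Der N (g * p * g⁻¹) (pm N (perm g) * B * pm N (perm g⁻¹)) := by
  obtain ⟨Y, h1, h2⟩ := h
  refine ⟨(rp N n g).val * Y * (rp N n g⁻¹).val, ?_, ?_⟩
  · have h4 : (rp N n g).val * (rp N n g⁻¹).val = 1 := by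
      rw [← Units.val_mul, ← map_mul, mul_inv_cancel, map_one, Units.val_one]
    rw [map_mul, map_mul, Units.val_mul, Units.val_mul, h1, mul_add, mul_one, add_mul, h4,
      mul_smul_comm, smul_mul_assoc]
  · rw [red_mul, red_mul, red_rp, red_rp, h2]

theorem c1_mul {φ ψ : PowerSeries ℤ} (h1 : constantCoeff φ = 1) (h2 : constantCoeff ψ = 1) :
    coeff 1 (φ * ψ) = coeff 1 φ + coeff 1 ψ := by
  rw [coeff_one_mul, h1, h2]; ring

theorem c1_qq : coeff 1 (qq : PowerSeries ℤ) = 1 := by
  rw [qq_val]; simp [coeff_one, coeff_one_X]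

theorem c1_qq_inv : coeff 1 ((qq⁻¹ : (PowerSeries ℤ)ˣ) : PowerSeries ℤ) = -1 := by
  have h := c1_mul cc_qq cc_qq_inv
  rw [Units.mul_inv, c1_qq] at h
  simp [coeff_one] at h
  linarith

theorem c1_aa (N : ℕ) : coeff 1 (aa N : PowerSeries ℤ) = N := by
  induction N with
  | zero => simp [aa, coeff_one]
  | succ N ih =>
    have : (aa (N + 1) : PowerSeries ℤ) = aa N * qq := by
      unfold aa; rw [pow_succ, Units.val_mul]
    rw [this, c1_mul (cc_aa N) cc_qq, ih, c1_qq]; push_cast; ring

theorem c1_aa_inv (N : ℕ) : coeff 1 (((aa N)⁻¹ : (PowerSeries ℤ)ˣ) : PowerSeries ℤ) = -N := by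
  have h := c1_mul (cc_aa N) (cc_aa_inv N)
  rw [Units.mul_inv, c1_aa] at h
  simp [coeff_one] at h
  linarith

theorem eq_one_add {φ : PowerSeries ℤ} (h : constantCoeff φ = 1) :
    ∃ u : PowerSeries ℤ, φ = 1 + X * u ∧ constantCoeff u = coeff 1 φ := by
  have h1 : (X : PowerSeries ℤ) ∣ φ - 1 := by rw [X_dvd_iff, map_sub, h]; simp
  obtain ⟨u, hu⟩ := h1
  refine ⟨u, by rw [← hu]; ring, ?_⟩
  have : φ = 1 + X * u := by rw [← hu]; ring
  rw [this]
  simp [coeff_one]

theorem der_sq (i : Fin n) : Der N (sg i * sg i)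
    ((2 : ℤ) • (pm N (Equiv.swap i.castSucc i.succ) - (N : ℤ) • 1)) := by
  obtain ⟨u, hu1, hu2⟩ := eq_one_add (φ := (((aa N)⁻¹ : (PowerSeries ℤ)ˣ) : PowerSeries ℤ) *
    (((aa N)⁻¹ : (PowerSeries ℤ)ˣ) : PowerSeries ℤ)) (by rw [map_mul, cc_aa_inv, one_mul])
  rw [c1_mul (cc_aa_inv N) (cc_aa_inv N), c1_aa_inv] at hu2
  obtain ⟨w, hw⟩ : (X : PowerSeries ℤ) ∣ zz qq := by rw [X_dvd_iff]; exact cc_zz
  have hw2 : constantCoeff w = 2 := by
    have h1 : coeff 1 (zz qq : PowerSeries ℤ) = 2 := by
      unfold zz; rw [map_sub, c1_qq, c1_qq_inv]; norm_num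
    rw [hw, coeff_one_mul] at h1
    simpa using h1
  set T : EN n N := op (qq : PowerSeries ℤ) (zz qq) i.castSucc i.succ with hT
  refine ⟨u • 1 + ((1 + X * u) * w) • T, ?_, ?_⟩
  · rw [map_mul, rep_sg, Units.val_mul]
    have h1 : T * T = 1 + zz qq • T := by
      refine LinearMap.ext fun f => ?_
      exact op_op (zz_eq qq) (x := i.castSucc) (y := i.succ) f
    change ((((aa N)⁻¹ : (PowerSeries ℤ)ˣ) : PowerSeries ℤ) • T) *
      ((((aa N)⁻¹ : (PowerSeries ℤ)ˣ) : PowerSeries ℤ) • T) = _
    rw [smul_mul_assoc, mul_smul_comm, smul_smul, h1, hu1, hw, smul_add, smul_add, smul_smul,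
      smul_smul, smul_smul, add_smul, one_smul]
    rw [show (1 + X * u) * (X * w) = X * ((1 + X * u) * w) by ring]
    abel
  · rw [red_add, red_smul, red_smul, red_one, hT, red_op, hu2, map_mul, hw2]
    simp only [map_add, map_mul, map_one, constantCoeff_X, zero_mul, add_zero, one_mul]
    rw [smul_sub, smul_smul]
    rw [show (-(N : ℤ) + -(N : ℤ)) = - (2 * (N : ℤ)) by ring, neg_smul]
    abel

/-! ### Pure braids -/

/-- The linking numbers of a pure braid and the first order term. -/
def HasLk {n : ℕ} (p : Br n) (l : Equiv.Perm (Fin (n + 1)) → ℤ) : Prop :=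
  (∀ g, l g ≠ 0 → g * g = 1) ∧ (expSum p).toAdd = 2 * ∑ g, l g ∧
    ∀ N, Der N p (∑ g, (2 * l g) • (pm N g - (N : ℤ) • 1))

theorem HasLk.mul {p p' : Br n} {l l'} (h : HasLk p l) (h' : HasLk p' l') :
    HasLk (p * p') (fun g => l g + l' g) := by
  refine ⟨?_, ?_, ?_⟩
  · intro g hg
    by_cases h1 : l g = 0
    · exact h'.1 g (by intro h2; apply hg; simp only [h1, h2, add_zero])
    · exact h.1 g h1
  · rw [map_mul, toAdd_mul, h.2.1, h'.2.1, Finset.sum_add_distrib, mul_add]
  · intro N
    have := (h.2.2 N).mul (h'.2.2 N)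
    rw [← Finset.sum_add_distrib] at this
    simpa only [mul_add, add_smul] using this

theorem HasLk.inv {p : Br n} {l} (h : HasLk p l) : HasLk p⁻¹ (fun g => - l g) := by
  refine ⟨?_, ?_, ?_⟩
  · intro g hg
    exact h.1 g (by intro h2; apply hg; simp only [h2, neg_zero])
  · rw [map_inv, toAdd_inv, h.2.1, Finset.sum_neg_distrib, mul_neg]
  · intro N
    have := (h.2.2 N).inv
    rw [← Finset.sum_neg_distrib] at this
    simpa only [mul_neg, neg_smul] using this

theorem hasLk_one : HasLk (1 : Br n) (fun _ => 0) := by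
  refine ⟨fun g hg => absurd rfl hg, by simp, fun N => ?_⟩
  simpa using (der_one : Der N (1 : Br n) 0)

theorem hasLk_conj_sq (g : Br n) (i : Fin n) : HasLk (g * (sg i * sg i) * g⁻¹)
    (fun h => if h = perm g * Equiv.swap i.castSucc i.succ * perm g⁻¹ then 1 else 0) := by
  refine ⟨?_, ?_, ?_⟩
  · intro h hh
    have h1 : h = perm g * Equiv.swap i.castSucc i.succ * perm g⁻¹ := by
      by_contra hne; exact hh (if_neg hne)
    rw [h1, map_inv]
    calc perm g * Equiv.swap i.castSucc i.succ * (perm g)⁻¹ *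
          (perm g * Equiv.swap i.castSucc i.succ * (perm g)⁻¹) =
        perm g * (Equiv.swap i.castSucc i.succ * Equiv.swap i.castSucc i.succ) * (perm g)⁻¹ := by
          group
      _ = 1 := by rw [Equiv.swap_mul_self]; group
  · have h1 : expSum (g * (sg i * sg i) * g⁻¹) =
        Multiplicative.ofAdd 1 * Multiplicative.ofAdd 1 := by
      simp only [map_mul, map_inv, expSum_sg]
      rw [mul_comm (expSum g), mul_assoc, mul_inv_cancel, mul_one]
    rw [h1, Finset.sum_ite_eq' Finset.univ]
    simp only [Finset.mem_univ, if_true, mul_one]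
    rfl
  · intro N
    have h1 := (der_sq (N := N) i).conj g
    have h2 : ∑ h : Equiv.Perm (Fin (n + 1)),
        (2 * (if h = perm g * Equiv.swap i.castSucc i.succ * perm g⁻¹ then (1 : ℤ) else 0)) •
          (pm N h - (N : ℤ) • (1 : Matrix (Fin (n + 1) → Fin N) (Fin (n + 1) → Fin N) ℤ)) =
        (2 : ℤ) • (pm N (perm g * Equiv.swap i.castSucc i.succ * perm g⁻¹) - (N : ℤ) • 1) := by
      rw [Finset.sum_eq_single (perm g * Equiv.swap i.castSucc i.succ * perm g⁻¹)]
      · rw [if_pos rfl, mul_one]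
      · intro h _ hne
        rw [if_neg hne, mul_zero, zero_smul]
      · intro h; exact absurd (Finset.mem_univ _) h
    rw [h2]
    convert h1 using 1
    rw [pm_mul, pm_mul, mul_smul_comm, smul_mul_assoc, mul_sub, sub_mul, mul_smul_comm, mul_one,
      smul_mul_assoc, ← pm_mul (perm g) (perm g⁻¹), map_inv, mul_inv_cancel, pm_one]

theorem exists_hasLk {p : Br n} (hp : perm p = 1) : ∃ l, HasLk p l := by
  have hp' := mem_sqN_of_perm hp
  clear hp
  unfold sqN Subgroup.normalClosure at hp'
  induction hp' using Subgroup.closure_induction with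
  | mem p hp =>
    rw [Group.mem_conjugatesOfSet_iff] at hp
    obtain ⟨_, ⟨i, rfl⟩, hc⟩ := hp
    rw [isConj_iff] at hc
    obtain ⟨g, rfl⟩ := hc
    exact ⟨_, hasLk_conj_sq g i⟩
  | one => exact ⟨_, hasLk_one⟩
  | mul p q _ _ hp hq =>
    obtain ⟨l, hl⟩ := hp
    obtain ⟨l', hl'⟩ := hq
    exact ⟨_, hl.mul hl'⟩
  | inv p _ hp =>
    obtain ⟨l, hl⟩ := hp
    exact ⟨_, hl.inv⟩

/-! ### The top difference along a twisting family -/

theorem top_diff {p : Br n} (hp : perm p = 1) {B} (h : Der N p B) : ∀ (k : ℕ) (A : EN n N),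
    (fwdDiff (1 : ℤ))^[k] (fun m : ℤ => coeff k (tr' (A * (rp N n (p ^ m)).val))) =
      fun _ => (red A * B ^ k).trace := by
  obtain ⟨Y, h1, h2⟩ := h
  intro k
  induction k with
  | zero =>
    intro A
    funext m
    simp only [Function.iterate_zero, id_eq, pow_zero, mul_one, coeff_zero_eq_constantCoeff]
    rw [cc_tr, red_mul, red_rp, map_zpow, hp, one_zpow, pm_one, mul_one]
  | succ k ih =>
    intro A
    rw [Function.iterate_succ_apply, pow_succ' B, ← mul_assoc, ← h2, ← red_mul, h2, ← ih (A * Y)]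
    congr 1
    funext m
    simp only [fwdDiff]
    rw [← map_sub, ← qtr_sub, ← mul_sub]
    have e1 : (rp N n (p ^ (m + 1))).val - (rp N n (p ^ m)).val =
        (X : PowerSeries ℤ) • (Y * (rp N n (p ^ m)).val) := by
      rw [add_comm m 1, zpow_add, zpow_one, map_mul, Units.val_mul, h1, add_mul, one_mul,
        add_sub_cancel_left, smul_mul_assoc]
    rw [e1, mul_smul_comm, qtr_smul, coeff_succ_X_mul, mul_assoc]

end Pool.Agent.LibH11
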