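import Mathlib

/-!
Oriented knots as closed braids modulo Markov moves, and finite type (Vassiliev) invariants.
By the theorems of Alexander and Markov, oriented knots in the 3-sphere up to isotopy correspond
bijectively to braids whose permutation is one single cycle, up to conjugation and stabilisation.
By Birman, every singular knot is the closure of a singular braid.
-/

namespace Pool.Agent.LibH11

/-- Relators of Artin's presentation of the braid group on `n + 1` strands, on the generators
`σ_0, …, σ_{n-1}`. -/
def braidRels (n : ℕ) : Set (FreeGroup (Fin n)) :=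
  {r | ∃ i j : Fin n, (i : ℕ) + 2 ≤ (j : ℕ) ∧
      r = FreeGroup.of i * FreeGroup.of j * (FreeGroup.of j * FreeGroup.of i)⁻¹} ∪
  {r | ∃ i j : Fin n, (i : ℕ) + 1 = (j : ℕ) ∧
      r = FreeGroup.of i * FreeGroup.of j * FreeGroup.of i *
        (FreeGroup.of j * FreeGroup.of i * FreeGroup.of j)⁻¹}

/-- The braid group on `n + 1` strands. -/
abbrev Br (n : ℕ) : Type := PresentedGroup (braidRels n)

/-- The standard generator `σ_i`: strands `i` and `i + 1` cross. -/
def sg {n : ℕ} (i : Fin n) : Br n := PresentedGroup.of i

/-- The homomorphism out of the braid group given by images of the generators that satisfy the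
braid relations. -/
def liftBr {n : ℕ} {G : Type*} [Group G] (f : Fin n → G)
    (h1 : ∀ i j : Fin n, (i : ℕ) + 2 ≤ (j : ℕ) → f i * f j = f j * f i)
    (h2 : ∀ i j : Fin n, (i : ℕ) + 1 = (j : ℕ) → f i * f j * f i = f j * f i * f j) :
    Br n →* G :=
  PresentedGroup.toGroup (f := f) (rels := braidRels n) (by
    rintro r (⟨i, j, hij, rfl⟩ | ⟨i, j, hij, rfl⟩)
    · simp only [map_mul, map_inv, FreeGroup.lift_apply_of]
      rw [h1 i j hij, mul_inv_cancel]
    · simp only [map_mul, map_inv, FreeGroup.lift_apply_of]
      rw [h2 i j hij, mul_inv_cancel])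

@[simp] theorem liftBr_sg {n : ℕ} {G : Type*} [Group G] (f : Fin n → G)
    (h1 : ∀ i j : Fin n, (i : ℕ) + 2 ≤ (j : ℕ) → f i * f j = f j * f i)
    (h2 : ∀ i j : Fin n, (i : ℕ) + 1 = (j : ℕ) → f i * f j * f i = f j * f i * f j) (i : Fin n) :
    liftBr f h1 h2 (sg i) = f i := by
  simp [liftBr, sg]

theorem sg_comm {n : ℕ} (i j : Fin n) (h : (i : ℕ) + 2 ≤ (j : ℕ)) :
    (sg i * sg j : Br n) = sg j * sg i := by
  have : PresentedGroup.mk (braidRels n)
      (FreeGroup.of i * FreeGroup.of j * (FreeGroup.of j * FreeGroup.of i)⁻¹) = 1 :=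
    PresentedGroup.one_of_mem (Or.inl ⟨i, j, h, rfl⟩)
  rw [map_mul, map_inv, mul_inv_eq_one, map_mul, map_mul] at this
  exact this

theorem sg_braid {n : ℕ} (i j : Fin n) (h : (i : ℕ) + 1 = (j : ℕ)) :
    (sg i * sg j * sg i : Br n) = sg j * sg i * sg j := by
  have : PresentedGroup.mk (braidRels n)
      (FreeGroup.of i * FreeGroup.of j * FreeGroup.of i *
        (FreeGroup.of j * FreeGroup.of i * FreeGroup.of j)⁻¹) = 1 :=
    PresentedGroup.one_of_mem (Or.inr ⟨i, j, h, rfl⟩)
  rw [map_mul, map_inv, mul_inv_eq_one, map_mul, map_mul, map_mul, map_mul] at this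
  exact this

/-- The permutation of the `n + 1` strand positions underlying a braid. -/
def perm {n : ℕ} : Br n →* Equiv.Perm (Fin (n + 1)) :=
  liftBr (fun i => Equiv.swap i.castSucc i.succ)
    (by
      intro i j hij
      refine (Equiv.Perm.Disjoint.commute ?_).eq
      rw [Equiv.Perm.disjoint_iff_eq_or_eq]
      intro x
      by_cases hx : x = i.castSucc ∨ x = i.succ
      · right
        apply Equiv.swap_apply_of_ne_of_ne <;>
        · rintro rfl
          simp only [Fin.ext_iff, Fin.val_castSucc, Fin.val_succ] at hx
          omega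
      · left
        exact Equiv.swap_apply_of_ne_of_ne (fun h => hx (Or.inl h)) (fun h => hx (Or.inr h)))
    (by
      intro i j hij
      have hij' : i.succ = j.castSucc := by
        simp only [Fin.ext_iff, Fin.val_castSucc, Fin.val_succ]; omega
      have h1 : i.castSucc ≠ j.succ := by
        simp only [ne_eq, Fin.ext_iff, Fin.val_castSucc, Fin.val_succ]; omega
      have h2 : i.castSucc ≠ j.castSucc := by
        simp only [ne_eq, Fin.ext_iff, Fin.val_castSucc]; omega
      have h3 : j.castSucc ≠ j.succ := by
        simp only [ne_eq, Fin.ext_iff, Fin.val_castSucc, Fin.val_succ]; omega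
      have e1 : Equiv.swap i.castSucc j.castSucc * Equiv.swap j.castSucc j.succ *
          Equiv.swap i.castSucc j.castSucc = Equiv.swap i.castSucc j.succ := by
        rw [Equiv.swap_comm i.castSucc j.castSucc, Equiv.swap_comm j.castSucc j.succ]
        exact Equiv.swap_mul_swap_mul_swap h3.symm h1.symm
      have e2 : Equiv.swap j.castSucc j.succ * Equiv.swap i.castSucc j.castSucc *
          Equiv.swap j.castSucc j.succ = Equiv.swap j.succ i.castSucc :=
        Equiv.swap_mul_swap_mul_swap h2 h1
      rw [hij', e1, e2, Equiv.swap_comm])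

/-- The inclusion of braids on `n + 1` strands into braids on `n + 2` strands. -/
def incl {n : ℕ} : Br n →* Br (n + 1) :=
  liftBr (fun i => sg i.castSucc)
    (by
      intro i j hij
      exact sg_comm _ _ (by simpa using hij))
    (by
      intro i j hij
      exact sg_braid _ _ (by simpa using hij))

/-- The closure of the braid is a knot: the permutation of the strands is one single cycle. -/
def IsKnot {n : ℕ} (b : Br n) : Prop :=
  ∀ x y : Fin (n + 1), (perm b).SameCycle x y

/-- Braid diagrams of knots: a number of strands and a braid with connected closure. -/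
def KnotBraid : Type := {x : (Σ n : ℕ, Br n) // IsKnot x.2}

/-- The two Markov moves. -/
inductive MarkovMove : (Σ n : ℕ, Br n) → (Σ n : ℕ, Br n) → Prop
  | conj (n : ℕ) (a b : Br n) : MarkovMove ⟨n, b⟩ ⟨n, a * b * a⁻¹⟩
  | stabPos (n : ℕ) (b : Br n) : MarkovMove ⟨n, b⟩ ⟨n + 1, incl b * sg (Fin.last n)⟩
  | stabNeg (n : ℕ) (b : Br n) : MarkovMove ⟨n, b⟩ ⟨n + 1, incl b * (sg (Fin.last n))⁻¹⟩

/-- Oriented knots in the 3-sphere up to isotopy: closed braids modulo Markov moves. -/
def Knot : Type := Quot (fun x y : KnotBraid => MarkovMove x.1 y.1)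

/-- The knot that is the closure of a braid. -/
def closure {n : ℕ} (b : Br n) (h : IsKnot b) : Knot := Quot.mk _ ⟨⟨n, b⟩, h⟩

open Classical in
/-- The values of a knot invariant on closures of braids with `n + 1` strands, extended by zero to
the braids whose closure is not a knot. -/
noncomputable def onBraids {A : Type*} [AddCommGroup A] (v : Knot → A) (n : ℕ) (b : Br n) : A :=
  if h : IsKnot b then v (closure b h) else 0

/-- `Vanishes k f` says that the Vassiliev extension of the function `f` on braids to singular
braids is zero on all singular braids `a_1 τ_{i_1} a_2 τ_{i_2} ⋯ a_k τ_{i_k} x` with `k` double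
points, a double point `τ_i` being resolved as `σ_i` minus `σ_i⁻¹`. -/
def Vanishes {A : Type*} [AddCommGroup A] {n : ℕ} : ℕ → (Br n → A) → Prop
  | 0, f => ∀ x, f x = 0
  | k + 1, f => ∀ (a : Br n) (i : Fin n),
      Vanishes k (fun x => f (a * sg i * x) - f (a * (sg i)⁻¹ * x))

/-- The knot invariant `v` is of finite type of order at most `k`: its Vassiliev extension
vanishes on all singular knots with `k + 1` double points. -/
def HasOrderLE {A : Type*} [AddCommGroup A] (v : Knot → A) (k : ℕ) : Prop :=
  ∀ n : ℕ, Vanishes (k + 1) (onBraids v n)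

/-- The knot invariant `v` is of finite type. -/
def IsFiniteType {A : Type*} [AddCommGroup A] (v : Knot → A) : Prop := ∃ k : ℕ, HasOrderLE v k

end Pool.Agent.LibH11
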