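import Pool.Agent.LibH11.Coeff

/-! Separation by invariants with values in prime fields. -/

namespace Pool.Agent.LibH11

open scoped DirectSum

theorem exists_hom_int {S : Type*} [AddCommGroup S] [AddGroup.FG S] {δ : S}
    (h : ∀ m : ℕ, 0 < m → m • δ ≠ 0) : ∃ φ : S →+ ℤ, φ δ ≠ 0 := by
  classical
  obtain ⟨n, ι, hι, p, hp, e, ⟨E⟩⟩ := AddCommGroup.equiv_free_prod_directSum_zmod S
  by_cases h1 : (E δ).1 = 0
  · exfalso
    apply h (∏ i, p i ^ e i) (Finset.prod_pos fun i _ => pow_pos (hp i).pos _)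
    apply E.injective
    rw [map_zero, map_nsmul]
    refine Prod.ext ?_ ?_
    · simp [h1]
    · rw [Prod.smul_snd]
      refine DFinsupp.ext fun i => ?_
      rw [DirectSum.smul_apply]
      have : (p i ^ e i : ℕ) ∣ ∏ i, p i ^ e i := Finset.dvd_prod_of_mem _ (Finset.mem_univ i)
      obtain ⟨c, hc⟩ := this
      rw [hc, mul_comm, mul_smul]
      simp [nsmul_eq_mul]
  · obtain ⟨i, hi⟩ : ∃ i, (E δ).1 i ≠ 0 := by
      by_contra hcon
      push Not at hcon
      exact h1 (Finsupp.ext hcon)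
    exact ⟨(Finsupp.applyAddHom i).comp ((AddMonoidHom.fst _ _).comp E.toAddMonoidHom), hi⟩

theorem exists_pow_cast_ne {p : ℕ} (hp : 1 < p) {z : ℤ} (hz : z ≠ 0) :
    ∃ k : ℕ, (z : ZMod (p ^ k)) ≠ 0 := by
  refine ⟨z.natAbs, ?_⟩
  intro h
  rw [ZMod.intCast_zmod_eq_zero_iff_dvd] at h
  have h1 := Int.natAbs_dvd_natAbs.mpr h
  simp only [Int.natAbs_natCast] at h1
  have h2 := Nat.le_of_dvd (Int.natAbs_pos.mpr hz) h1
  have h3 := Nat.lt_pow_self hp (n := z.natAbs)
  omega

theorem exists_hom_primePow {S : Type*} [AddCommGroup S] [AddGroup.FG S] {δ : S} (h : δ ≠ 0) :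
    ∃ (p k : ℕ) (_ : p.Prime) (φ : S →+ ZMod (p ^ k)), φ δ ≠ 0 := by
  classical
  obtain ⟨n, ι, hι, p, hp, e, ⟨E⟩⟩ := AddCommGroup.equiv_free_prod_directSum_zmod S
  by_cases h1 : (E δ).1 = 0
  · have h2 : (E δ).2 ≠ 0 := by
      intro h2
      apply h
      apply E.injective
      rw [map_zero]
      exact Prod.ext h1 h2
    obtain ⟨i, hi⟩ : ∃ i, (E δ).2 i ≠ 0 := by
      by_contra hcon
      push Not at hcon
      exact h2 (DFinsupp.ext hcon)
    exact ⟨p i, e i, hp i, (DFinsupp.evalAddMonoidHom i).comp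
      ((AddMonoidHom.snd _ _).comp E.toAddMonoidHom), hi⟩
  · obtain ⟨i, hi⟩ : ∃ i, (E δ).1 i ≠ 0 := by
      by_contra hcon
      push Not at hcon
      exact h1 (Finsupp.ext hcon)
    obtain ⟨k, hk⟩ := exists_pow_cast_ne (p := 2) (by norm_num) hi
    exact ⟨2, k, Nat.prime_two, (Int.castAddHom (ZMod (2 ^ k))).comp
      ((Finsupp.applyAddHom i).comp ((AddMonoidHom.fst _ _).comp E.toAddMonoidHom)), hk⟩

theorem fg_instance {A : Type*} [AddCommGroup A] {S : Submodule ℤ A} (h : S.FG) :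
    AddGroup.FG S := by
  have : Module.Finite ℤ S := Module.Finite.iff_fg.mpr h
  exact Module.Finite.iff_addGroup_fg.mp this

/-- Separation by some abelian group valued invariant gives separation by a prime field. -/
theorem exists_prime_separating {A : Type*} [AddCommGroup A] {v : Knot → A}
    (hv : IsFiniteType v) {K K' : Knot} (h : v K ≠ v K') :
    ∃ (p : ℕ) (_ : p.Prime) (w : Knot → ZMod p), IsFiniteType w ∧ w K ≠ w K' := by
  obtain ⟨d, hd⟩ := hv
  obtain ⟨S, v', hS, hv', hvv'⟩ := hd.restrict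
  have := fg_instance hS
  have hδ : v' K - v' K' ≠ 0 := by
    intro h0
    apply h
    rw [← hvv', ← hvv', sub_eq_zero.mp h0]
  obtain ⟨p, k, hp, φ, hφ⟩ := exists_hom_primePow hδ
  have : Fact p.Prime := ⟨hp⟩
  obtain ⟨w, hw, hne⟩ := exists_prime_of_primePow (hv'.map φ) (K := K) (K' := K') (by
    intro h0
    apply hφ
    rw [map_sub, h0, sub_self])
  exact ⟨p, hp, w, ⟨_, hw⟩, hne⟩

/-- Separation up to torsion gives separation with values in every prime field, with a bound on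
the order. -/
theorem exists_separating_of_prime {A : Type*} [AddCommGroup A] {v : Knot → A} {d : ℕ}
    (hd : HasOrderLE v d) {K K' : Knot} (h : ∀ m : ℕ, 0 < m → m • v K ≠ m • v K') :
    ∃ D : ℕ, 0 < D ∧ ∀ p : ℕ, p.Prime → ∃ w : Knot → ZMod p,
      HasOrderLE w (d * p ^ padicValNat p D) ∧ w K ≠ w K' := by
  obtain ⟨S, v', hS, hv', hvv'⟩ := hd.restrict
  have := fg_instance hS
  have hδ : ∀ m : ℕ, 0 < m → m • (v' K - v' K') ≠ 0 := by
    intro m hm h0
    apply h m hm
    rw [smul_sub, sub_eq_zero] at h0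
    have := congrArg (fun s : S => (s : A)) h0
    simpa [hvv'] using this
  obtain ⟨φ, hφ⟩ := exists_hom_int hδ
  refine ⟨(φ (v' K - v' K')).natAbs, Int.natAbs_pos.mpr hφ, ?_⟩
  intro p hp
  have : Fact p.Prime := ⟨hp⟩
  set D := (φ (v' K - v' K')).natAbs with hD
  have hDpos : D ≠ 0 := (Int.natAbs_pos.mpr hφ).ne'
  obtain ⟨w, hw, hne⟩ := exists_prime_of_primePow (k := padicValNat p D + 1)
    (v := fun K => ((φ (v' K) : ℤ) : ZMod (p ^ (padicValNat p D + 1))))
    ((hv'.map φ).map (Int.castAddHom (ZMod (p ^ (padicValNat p D + 1))))) (K := K) (K' := K') (by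
      intro h0
      have h1 : ((φ (v' K - v' K') : ℤ) : ZMod (p ^ (padicValNat p D + 1))) = 0 := by
        rw [map_sub, Int.cast_sub, h0, sub_self]
      rw [ZMod.intCast_zmod_eq_zero_iff_dvd] at h1
      have h2 := Int.natAbs_dvd_natAbs.mpr h1
      rw [Int.natAbs_natCast] at h2
      exact pow_succ_padicValNat_not_dvd hDpos h2)
  exact ⟨w, by simpa using hw, hne⟩

end Pool.Agent.LibH11
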