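import Pool.Agent.LibH11.Ker

/-! Functions on discrete cubes, their degree, and lifting from `ZMod` to the integers. -/

namespace Pool.Agent.LibH11

variable {A : Type*} [AddCommGroup A] {n : ℕ}

/-- Fixing the first coordinate of a function on a cube. -/
def fc {M : Type*} {s : ℕ} (c : Bool) (F : (Fin (s + 1) → Bool) → M) : (Fin s → Bool) → M :=
  fun x => F (Fin.cons c x)

/-- The alternating sum of a function on a cube. -/
def alt : ∀ s : ℕ, ((Fin s → Bool) → A) → A
  | 0, F => F Fin.elim0
  | s + 1, F => alt s (fc true F) - alt s (fc false F)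

/-- The function on the cube has degree at most `d`. -/
def Deg : ℕ → ∀ s : ℕ, ((Fin s → Bool) → A) → Prop
  | _, 0, _ => True
  | 0, s + 1, F => Deg 0 s (fc true F) ∧ fc true F = fc false F
  | d + 1, s + 1, F => Deg (d + 1) s (fc false F) ∧ Deg d s (fun x => fc true F x - fc false F x)

theorem deg_zero_fun : ∀ (s d : ℕ), Deg d s (fun _ => (0 : A)) := by
  intro s
  induction s with
  | zero => intro d; cases d <;> trivial
  | succ s ih =>
    intro d
    cases d with
    | zero => exact ⟨ih 0, rfl⟩
    | succ d =>
      refine ⟨ih (d + 1), ?_⟩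
      simpa [fc] using ih d

theorem deg_const : ∀ (s d : ℕ) (c : A), Deg d s (fun _ => c) := by
  intro s
  induction s with
  | zero => intro d; cases d <;> intro c <;> trivial
  | succ s ih =>
    intro d c
    cases d with
    | zero => exact ⟨ih 0 c, rfl⟩
    | succ d =>
      refine ⟨ih (d + 1) c, ?_⟩
      simpa [fc] using deg_zero_fun (A := A) s d

theorem Deg.add : ∀ {s d : ℕ} {F G : (Fin s → Bool) → A}, Deg d s F → Deg d s G →
    Deg d s (fun x => F x + G x) := by
  intro s
  induction s with
  | zero => intro d; cases d <;> intros <;> trivial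
  | succ s ih =>
    intro d F G hF hG
    cases d with
    | zero =>
      refine ⟨ih hF.1 hG.1, ?_⟩
      funext x
      have h1 := congrFun hF.2 x
      have h2 := congrFun hG.2 x
      simp only [fc] at h1 h2 ⊢
      rw [h1, h2]
    | succ d =>
      refine ⟨ih hF.1 hG.1, ?_⟩
      have := ih hF.2 hG.2
      refine (congrArg (Deg d s) ?_).mp this
      funext x
      simp only [fc]
      abel

theorem Deg.neg : ∀ {s d : ℕ} {F : (Fin s → Bool) → A}, Deg d s F →
    Deg d s (fun x => - F x) := by
  intro s
  induction s with
  | zero => intro d; cases d <;> intros <;> trivial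
  | succ s ih =>
    intro d F hF
    cases d with
    | zero =>
      refine ⟨ih hF.1, ?_⟩
      funext x
      have h1 := congrFun hF.2 x
      simp only [fc] at h1 ⊢
      rw [h1]
    | succ d =>
      refine ⟨ih hF.1, ?_⟩
      have := ih hF.2
      refine (congrArg (Deg d s) ?_).mp this
      funext x
      simp only [fc]
      abel

theorem Deg.sub {s d : ℕ} {F G : (Fin s → Bool) → A} (hF : Deg d s F) (hG : Deg d s G) :
    Deg d s (fun x => F x - G x) := by
  simpa [sub_eq_add_neg] using hF.add hG.neg

theorem Deg.succ : ∀ {s d : ℕ} {F : (Fin s → Bool) → A}, Deg d s F → Deg (d + 1) s F := by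
  intro s
  induction s with
  | zero => intro d F _; trivial
  | succ s ih =>
    intro d F hF
    cases d with
    | zero =>
      refine ⟨?_, ?_⟩
      · rw [← hF.2]; exact ih hF.1
      · have : (fun x => fc true F x - fc false F x) = fun _ => (0 : A) := by
          funext x; rw [hF.2]; simp
        rw [this]; exact deg_zero_fun _ _
    | succ d => exact ⟨ih hF.1, ih hF.2⟩

theorem Deg.fcTrue {s d : ℕ} {F : (Fin (s + 1) → Bool) → A} (h : Deg d (s + 1) F) :
    Deg d s (fc true F) := by
  cases d with
  | zero => exact h.1
  | succ d =>
    have := h.2.succ.add h.1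
    simpa using this

theorem Deg.fcFalse {s d : ℕ} {F : (Fin (s + 1) → Bool) → A} (h : Deg d (s + 1) F) :
    Deg d s (fc false F) := by
  cases d with
  | zero => rw [← h.2]; exact h.1
  | succ d => exact h.1

theorem Deg.mul {R : Type*} [CommRing R] : ∀ {s a b : ℕ} {F G : (Fin s → Bool) → R},
    Deg a s F → Deg b s G → Deg (a + b) s (fun x => F x * G x) := by
  intro s
  induction s with
  | zero => intro a b F G _ _; unfold Deg; trivial
  | succ s ih =>
    intro a b F G hF hG
    cases a with
    | zero =>
      cases b with
      | zero =>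
        refine ⟨ih hF.1 hG.1, ?_⟩
        funext x
        have h1 := congrFun hF.2 x
        have h2 := congrFun hG.2 x
        simp only [fc] at h1 h2 ⊢
        rw [h1, h2]
      | succ b =>
        rw [Nat.zero_add]
        have h0 := hF.fcFalse
        have h1 := ih h0 hG.1
        have h2 := ih h0 hG.2
        rw [Nat.zero_add] at h1 h2
        refine ⟨h1, ?_⟩
        refine (congrArg (Deg b s) ?_).mp h2
        funext x
        have h3 := congrFun hF.2 x
        simp only [fc] at h3 ⊢
        rw [h3]; ring
    | succ a =>
      cases b with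
      | zero =>
        have h0 := hG.fcFalse
        have h1 := ih hF.1 h0
        have h2 := ih hF.2 h0
        refine ⟨h1, ?_⟩
        refine (congrArg (Deg a s) ?_).mp h2
        funext x
        have h3 := congrFun hG.2 x
        simp only [fc] at h3 ⊢
        rw [h3]; ring
      | succ b =>
        have h1 := ih hF.1 hG.1
        have h2 := ih hF.2 hG.fcTrue
        have h3 := ih hF.1 hG.2
        rw [show a + (b + 1) = a + b + 1 by ring] at h2
        rw [show a + 1 + b = a + b + 1 by ring] at h3
        rw [show a + 1 + (b + 1) = (a + b + 1) + 1 by ring] at h1 ⊢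
        refine ⟨h1, ?_⟩
        refine (congrArg (Deg (a + b + 1) s) ?_).mp (h2.add h3)
        funext x
        simp only [fc]
        ring

theorem Deg.alt_eq_zero : ∀ {s d : ℕ} {F : (Fin s → Bool) → A}, Deg d s F → d < s →
    alt s F = 0 := by
  intro s
  induction s with
  | zero => intro d F _ h; omega
  | succ s ih =>
    intro d F hF h
    cases d with
    | zero =>
      simp only [alt]
      rw [hF.2, sub_self]
    | succ d =>
      have h1 := ih hF.2 (by omega)
      have key : ∀ (s : ℕ) (F G : (Fin s → Bool) → A),
          alt s (fun x => F x - G x) = alt s F - alt s G := by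
        intro s
        induction s with
        | zero => intro F G; rfl
        | succ s ih =>
          intro F G
          simp only [alt]
          have e1 : fc true (fun x => F x - G x) = fun x => fc true F x - fc true G x := rfl
          have e2 : fc false (fun x => F x - G x) = fun x => fc false F x - fc false G x := rfl
          rw [e1, e2, ih, ih]
          abel
      rw [key] at h1
      exact h1

theorem alt_map {C : Type*} [AddCommGroup C] (φ : A →+ C) : ∀ (s : ℕ) (F : (Fin s → Bool) → A),
    alt s (fun x => φ (F x)) = φ (alt s F) := by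
  intro s
  induction s with
  | zero => intro F; rfl
  | succ s ih =>
    intro F
    simp only [alt, map_sub]
    rw [← ih, ← ih]
    rfl

/-- Lifting a function of degree at most `d` on a cube along a surjection onto `ZMod m`. -/
theorem Deg.lift {m : ℕ} [NeZero m] : ∀ {s d : ℕ} {F : (Fin s → Bool) → ZMod m}, Deg d s F →
    ∃ G : (Fin s → Bool) → ℕ, Deg d s (fun x => (G x : ℤ)) ∧ ∀ x, (G x : ZMod m) = F x := by
  intro s
  induction s with
  | zero =>
    intro d F _
    refine ⟨fun x => (F x).val, ?_, fun x => by simp⟩
    unfold Deg; trivial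
  | succ s ih =>
    intro d F hF
    cases d with
    | zero =>
      obtain ⟨G, hG, hG'⟩ := ih hF.1
      refine ⟨fun x => G (Fin.tail x), ⟨?_, ?_⟩, ?_⟩
      · refine (congrArg (Deg 0 s) ?_).mp hG
        funext x; simp [fc]
      · funext x; simp [fc]
      · intro x
        rw [hG', ← Fin.cons_self_tail x]
        simp only [Fin.tail_cons]
        cases hx : x 0
        · have := congrFun hF.2 (Fin.tail x)
          simpa [fc] using this
        · rfl
    | succ d =>
      obtain ⟨G1, hG1, hG1'⟩ := ih hF.1
      obtain ⟨D, hD, hD'⟩ := ih hF.2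
      refine ⟨fun x => if x 0 then G1 (Fin.tail x) + D (Fin.tail x) else G1 (Fin.tail x),
        ⟨?_, ?_⟩, ?_⟩
      · refine (congrArg (Deg (d + 1) s) ?_).mp hG1
        funext x; simp [fc]
      · refine (congrArg (Deg d s) ?_).mp hD
        funext x; simp [fc]
      · intro x
        rw [← Fin.cons_self_tail x]
        simp only [Fin.tail_cons, Fin.cons_zero]
        cases hx : x 0
        · simp [hG1', fc]
        · simp [hG1', hD', fc]

theorem Deg.prod {R : Type*} [CommRing R] {s d : ℕ} {ι : Type*} (S : Finset ι)
    (F : ι → (Fin s → Bool) → R) (h : ∀ i ∈ S, Deg d s (F i)) :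
    Deg (d * S.card) s (fun x => ∏ i ∈ S, F i x) := by
  classical
  induction S using Finset.induction_on with
  | empty => simpa using deg_const s 0 (1 : R)
  | insert i S hi ih =>
    simp only [Finset.prod_insert hi, Finset.card_insert_of_notMem hi]
    rw [show d * (S.card + 1) = d + d * S.card by ring]
    exact (h i (Finset.mem_insert_self _ _)).mul
      (ih (fun j hj => h j (Finset.mem_insert_of_mem hj)))

/-- The alternating sum of a binomial coefficient of a function of small degree vanishes. -/
theorem alt_choose_eq_zero {s d m : ℕ} {G : (Fin s → Bool) → ℕ}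
    (hG : Deg d s (fun x => (G x : ℤ))) (h : d * m < s) :
    alt s (fun x => ((G x).choose m : ℤ)) = 0 := by
  have h1 : Deg (d * (Finset.range m).card) s
      (fun x => ∏ l ∈ Finset.range m, ((G x : ℤ) - (l : ℤ))) :=
    Deg.prod _ _ (fun l _ => hG.sub (deg_const s d (l : ℤ)))
  rw [Finset.card_range] at h1
  have h2 := h1.alt_eq_zero h
  have h3 : ∀ g : ℕ, ∏ l ∈ Finset.range m, ((g : ℤ) - (l : ℤ)) =
      (m.factorial : ℤ) * (g.choose m : ℤ) := by
    intro g
    rw [← Nat.cast_mul, ← Nat.descFactorial_eq_factorial_mul_choose]
    induction m with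
    | zero => simp
    | succ m ih => 
      have ih' := ih (by
        calc d * m ≤ d * (m + 1) := Nat.mul_le_mul_left _ (Nat.le_succ _)
          _ < s := h)
      clear ih
      rw [Finset.prod_range_succ, Nat.descFactorial_succ]
      have : ∏ l ∈ Finset.range m, ((g : ℤ) - (l : ℤ)) = (g.descFactorial m : ℤ) := by
        clear ih' h1 h2 h
        induction m with
        | zero => simp
        | succ m ih =>
          rw [Finset.prod_range_succ, Nat.descFactorial_succ, ih]
          push_cast
          by_cases hgm : m ≤ g
          · rw [Nat.cast_sub hgm]; ring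
          · rw [Nat.descFactorial_eq_zero_iff_lt.mpr (by omega)]; simp
      rw [this]
      push_cast
      by_cases hgm : m ≤ g
      · rw [Nat.cast_sub hgm]; ring
      · rw [Nat.descFactorial_eq_zero_iff_lt.mpr (by omega)]; simp
  simp only [h3] at h2
  have h4 := alt_map (AddMonoidHom.mulLeft (m.factorial : ℤ)) s
    (fun x => ((G x).choose m : ℤ))
  simp only [AddMonoidHom.coe_mulLeft] at h4
  rw [h4] at h2
  rcases mul_eq_zero.mp h2 with h5 | h5
  · exact absurd h5 (by exact_mod_cast m.factorial_ne_zero)
  · exact h5

/-! ### Cubes of resolutions of singular braids -/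

/-- The resolutions of a singular braid. -/
def pt : ∀ (L : List (Br n × Fin n)), Br n → (Fin L.length → Bool) → Br n
  | [], b, _ => b
  | (a, i) :: L, b, x => (if x 0 then a * sg i else a * (sg i)⁻¹) * pt L b (Fin.tail x)

theorem sing_eq_alt : ∀ (L : List (Br n × Fin n)) (f : Br n → A) (b : Br n),
    sing f L b = alt L.length (fun x => f (pt L b x)) := by
  intro L
  induction L with
  | nil => intro f b; rfl
  | cons c L ih =>
    obtain ⟨a, i⟩ := c
    intro f b
    rw [sing_cons]
    have h1 : sing (dif a i f) L b = sing (fun x => f (a * sg i * x)) L b -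
        sing (fun x => f (a * (sg i)⁻¹ * x)) L b := sing_sub L _ _ b
    rw [h1, ih, ih]
    simp only [List.length_cons, alt]
    congr 1

theorem deg_of_vanishes : ∀ (L : List (Br n × Fin n)) (d : ℕ) (f : Br n → A) (b : Br n),
    Vanishes (d + 1) f → Deg d L.length (fun x => f (pt L b x)) := by
  intro L
  induction L with
  | nil => intro d f b _; unfold Deg; split <;> simp_all
  | cons c L ih =>
    obtain ⟨a, i⟩ := c
    intro d f b hf
    cases d with
    | zero =>
      refine ⟨ih 0 (fun x => f (a * sg i * x)) b (hf.left _), ?_⟩
      funext x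
      have := hf a i (pt L b x)
      simpa [fc, pt, sub_eq_zero] using this
    | succ d =>
      refine ⟨ih (d + 1) (fun x => f (a * (sg i)⁻¹ * x)) b (hf.left _), ?_⟩
      have := ih d (dif a i f) b (hf a i)
      refine (congrArg (Deg d L.length) ?_).mp this
      funext x
      simp [fc, pt, dif]

end Pool.Agent.LibH11
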