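import Pool.Agent.LibH11.Vanish

/-! The kernel of the permutation homomorphism is normally generated by the squares of the
generators, and functions vanishing on singular braids are unchanged to leading order when braids
are changed within their permutation class. -/

namespace Pool.Agent.LibH11

variable {A : Type*} [AddCommGroup A] {C : Type*} [AddCommGroup C] {n : ℕ}

/-- The normal subgroup generated by the squares of the generators. -/
def sqN (n : ℕ) : Subgroup (Br n) := Subgroup.normalClosure (Set.range fun i : Fin n => sg i * sg i)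

instance : (sqN n).Normal := Subgroup.normalClosure_normal

theorem sq_mem (i : Fin n) : sg i * sg i ∈ sqN n :=
  Subgroup.subset_normalClosure ⟨i, rfl⟩

theorem incl_mem_sqN {b : Br n} (h : b ∈ sqN n) : incl b ∈ sqN (n + 1) := by
  have : sqN n ≤ (sqN (n + 1)).comap incl := by
    apply Subgroup.normalClosure_le_normal
    rintro _ ⟨i, rfl⟩
    simp only [Subgroup.coe_comap, Set.mem_preimage, map_mul, incl_sg]
    exact sq_mem _
  exact this h

/-- Every braid is of the form `c_y · incl h · p` with `p` in the normal closure of squares. -/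
theorem exists_form (b : Br (n + 1)) :
    ∃ (y : ℕ) (_ : y ≤ n + 1) (h : Br n) (p : Br (n + 1)), p ∈ sqN (n + 1) ∧
      b = cyc (n + 1) y * incl h * p := by
  -- the set of such braids is stable under left multiplication by generators
  have key : ∀ (i : Fin (n + 1)) (b : Br (n + 1)),
      (∃ (y : ℕ) (_ : y ≤ n + 1) (h : Br n) (p : Br (n + 1)), p ∈ sqN (n + 1) ∧
        b = cyc (n + 1) y * incl h * p) →
      (∃ (y : ℕ) (_ : y ≤ n + 1) (h : Br n) (p : Br (n + 1)), p ∈ sqN (n + 1) ∧
        sg i * b = cyc (n + 1) y * incl h * p) := by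
    rintro i b ⟨y, hy, h, p, hp, rfl⟩
    have hi := i.isLt
    rcases Nat.lt_trichotomy (i : ℕ) y with hlt | heq | hgt
    · rcases Nat.lt_or_ge ((i : ℕ) + 1) y with h1 | h1
      · -- far
        refine ⟨y, hy, sg ⟨i, by omega⟩ * h, p, hp, ?_⟩
        have := sg_cyc_far i (y := y) (by omega)
        rw [← mul_assoc, ← mul_assoc, this, map_mul, incl_sg]
        have e : (Fin.castSucc ⟨(i : ℕ), by omega⟩ : Fin (n + 1)) = i := Fin.ext rfl
        rw [e]
        simp only [mul_assoc]
      · -- y = i + 1
        have e : y = (i : ℕ) + 1 := by omega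
        subst e
        refine ⟨i, by omega, h, p, hp, ?_⟩
        rw [cyc_lt hi]
        simp only [mul_assoc]
    · -- y = i
      subst heq
      refine ⟨i + 1, by omega, h, (incl h)⁻¹ * (cyc (n + 1) (i + 1))⁻¹ * (sg i * sg i) *
        cyc (n + 1) (i + 1) * incl h * p, ?_, ?_⟩
      · apply Subgroup.mul_mem _ _ hp
        have := (inferInstance : (sqN (n + 1)).Normal).conj_mem _ (sq_mem i)
          ((incl h)⁻¹ * (cyc (n + 1) (i + 1))⁻¹)
        simpa [mul_assoc] using this
      · rw [cyc_lt hi]
        group
    · -- y < i
      refine ⟨y, hy, sg ⟨i - 1, by omega⟩ * h, p, hp, ?_⟩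
      have := sg_cyc_near i (y := y) (by omega)
      rw [← mul_assoc, ← mul_assoc, this, map_mul, incl_sg]
      have e : (Fin.castSucc ⟨(i : ℕ) - 1, by omega⟩ : Fin (n + 1)) = ⟨i - 1, by omega⟩ :=
        Fin.ext rfl
      rw [e]
      simp only [mul_assoc]
  have keyinv : ∀ (i : Fin (n + 1)) (b : Br (n + 1)),
      (∃ (y : ℕ) (_ : y ≤ n + 1) (h : Br n) (p : Br (n + 1)), p ∈ sqN (n + 1) ∧
        b = cyc (n + 1) y * incl h * p) →
      (∃ (y : ℕ) (_ : y ≤ n + 1) (h : Br n) (p : Br (n + 1)), p ∈ sqN (n + 1) ∧
        (sg i)⁻¹ * b = cyc (n + 1) y * incl h * p) := by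
    intro i b hb
    obtain ⟨y, hy, h, p, hp, e⟩ := key i b hb
    refine ⟨y, hy, h, p * (b⁻¹ * (sg i * sg i)⁻¹ * b), ?_, ?_⟩
    · apply Subgroup.mul_mem _ hp
      have := (inferInstance : (sqN (n + 1)).Normal).conj_mem _
        (Subgroup.inv_mem _ (sq_mem i)) b⁻¹
      simpa [mul_assoc] using this
    · rw [← mul_assoc, ← e]
      group
  induction b using PresentedGroup.induction_on with
  | _ w =>
    have : ∀ b : Br (n + 1),
      (∃ (y : ℕ) (_ : y ≤ n + 1) (h : Br n) (p : Br (n + 1)), p ∈ sqN (n + 1) ∧
        b = cyc (n + 1) y * incl h * p) →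
      (∃ (y : ℕ) (_ : y ≤ n + 1) (h : Br n) (p : Br (n + 1)), p ∈ sqN (n + 1) ∧
        PresentedGroup.mk _ w * b = cyc (n + 1) y * incl h * p) := by
      induction w using FreeGroup.induction_on with
      | C1 => intro b hb; simpa using hb
      | of i => intro b hb; exact key i b hb
      | inv_of i _ => intro b hb; exact keyinv i b hb
      | mul u w hu hw =>
        intro b hb
        rw [map_mul, mul_assoc]
        exact hu _ (hw _ hb)
    have h1 := this 1 ⟨n + 1, le_refl _, 1, 1, Subgroup.one_mem _, by simp [cyc_self]⟩
    simpa using h1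

theorem perm_mem_sqN {p : Br n} (h : p ∈ sqN n) : perm p = 1 := by
  have : sqN n ≤ (perm (n := n)).ker := by
    apply Subgroup.normalClosure_le_normal
    rintro _ ⟨i, rfl⟩
    simp [MonoidHom.mem_ker]
  exact this h

theorem perm_incl_eq_one {b : Br n} (h : perm (incl b) = 1) : perm b = 1 := by
  ext x
  have := congrArg (fun σ => σ x.castSucc) h
  simp only [perm_incl_castSucc, Equiv.Perm.coe_one, id_eq, Fin.castSucc_inj] at this
  rw [this]; rfl

/-- A braid whose permutation is trivial lies in the normal closure of the squares. -/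
theorem mem_sqN_of_perm : ∀ {n : ℕ} {b : Br n}, perm b = 1 → b ∈ sqN n := by
  intro n
  induction n with
  | zero =>
    intro b hb
    clear hb
    have : b = 1 := by
      induction b using PresentedGroup.induction_on with
      | _ w =>
        induction w using FreeGroup.induction_on with
        | C1 => simp
        | of i => exact i.elim0
        | inv_of i _ => exact i.elim0
        | mul u w hu hw => rw [map_mul, hu, hw, one_mul]
    rw [this]; exact Subgroup.one_mem _
  | succ n ih =>
    intro b hb
    obtain ⟨y, hy, h, p, hp, rfl⟩ := exists_form b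
    have hpp := perm_mem_sqN hp
    rw [map_mul, map_mul, hpp, mul_one] at hb
    have h1 := congrArg (fun σ => σ (Fin.last (n + 1))) hb
    simp only [Equiv.Perm.mul_apply, perm_incl_last, Equiv.Perm.coe_one, id_eq] at h1
    have h2 := perm_cyc_last (n := n + 1) ⟨y, by omega⟩
    simp only at h2
    rw [h2] at h1
    have hy' : y = n + 1 := by simpa [Fin.ext_iff] using h1
    subst hy'
    rw [cyc_self, map_one, one_mul] at hb
    have h3 := ih (perm_incl_eq_one hb)
    rw [cyc_self, one_mul]
    exact Subgroup.mul_mem _ (incl_mem_sqN h3) hp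

theorem Vanishes.pure {p : Br n} (hp : perm p = 1) : ∀ {k : ℕ} {f : Br n → A},
    Vanishes (k + 1) f → Vanishes k (fun x => f (p * x) - f x) := by
  have hp' := mem_sqN_of_perm hp
  clear hp
  unfold sqN Subgroup.normalClosure at hp'
  induction hp' using Subgroup.closure_induction with
  | mem p hp =>
    intro k f hf
    rw [Group.mem_conjugatesOfSet_iff] at hp
    obtain ⟨_, ⟨i, rfl⟩, hc⟩ := hp
    rw [isConj_iff] at hc
    obtain ⟨g, rfl⟩ := hc
    have := (hf (g * sg i) i).left g⁻¹
    refine (congrArg (Vanishes k) ?_).mp this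
    funext x
    simp [mul_assoc]
  | one => intro k f hf; simpa using (vanishes_zero : Vanishes k (fun _ : Br n => (0 : A)))
  | mul p q _ _ hp hq =>
    intro k f hf
    have := ((hp hf).left q).add (hq hf)
    refine (congrArg (Vanishes k) ?_).mp this
    funext x
    simp only [mul_assoc]
    abel
  | inv p _ hp =>
    intro k f hf
    have := ((hp hf).left p⁻¹).neg
    refine (congrArg (Vanishes k) ?_).mp this
    funext x
    simp

/-- Changing a braid within its permutation class. -/
theorem Vanishes.congr_perm {a b : Br n} (h : perm a = perm b) {k : ℕ} {f : Br n → A}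
    (hf : Vanishes (k + 1) f) : Vanishes k (fun x => f (a * x) - f (b * x)) := by
  have h1 : perm (b⁻¹ * a) = 1 := by rw [map_mul, map_inv, h, inv_mul_cancel]
  have := Vanishes.pure h1 (hf.left b)
  refine (congrArg (Vanishes k) ?_).mp this
  funext x
  simp [mul_assoc]

/-! ### Evaluation on singular braids given by lists -/

/-- The value on the singular braid `a_1 τ_{i_1} ⋯ a_k τ_{i_k} b`. -/
def sing : (Br n → A) → List (Br n × Fin n) → Br n → A
  | f, [], b => f b
  | f, (a, i) :: L, b => sing (dif a i f) L b

@[simp] theorem sing_nil (f : Br n → A) (b : Br n) : sing f [] b = f b := rfl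

@[simp] theorem sing_cons (f : Br n → A) (a : Br n) (i : Fin n) (L : List (Br n × Fin n))
    (b : Br n) : sing f ((a, i) :: L) b = sing (dif a i f) L b := rfl

theorem sing_sub (L : List (Br n × Fin n)) : ∀ (f g : Br n → A) (b : Br n),
    sing (fun x => f x - g x) L b = sing f L b - sing g L b := by
  induction L with
  | nil => intro f g b; rfl
  | cons c L ih =>
    obtain ⟨a, i⟩ := c
    intro f g b
    simp only [sing_cons]
    rw [← ih]
    congr 1
    funext x
    simp only [dif]
    abel

theorem sing_map (φ : A →+ C) (L : List (Br n × Fin n)) : ∀ (f : Br n → A) (b : Br n),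
    sing (fun x => φ (f x)) L b = φ (sing f L b) := by
  induction L with
  | nil => intro f b; rfl
  | cons c L ih =>
    obtain ⟨a, i⟩ := c
    intro f b
    simp only [sing_cons]
    rw [← ih]
    congr 1
    funext x
    simp only [dif, map_sub]

theorem vanishes_iff_sing {k : ℕ} : ∀ {f : Br n → A},
    Vanishes k f ↔ ∀ L : List (Br n × Fin n), L.length = k → ∀ b, sing f L b = 0 := by
  induction k with
  | zero =>
    intro f
    constructor
    · intro h L hL b
      rw [List.length_eq_zero_iff] at hL
      subst hL
      exact h b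
    · intro h x
      exact h [] rfl x
  | succ k ih =>
    intro f
    constructor
    · intro h L hL b
      match L, hL with
      | (a, i) :: L, hL =>
        exact (ih.mp (h a i)) L (by simpa using hL) b
    · intro h a i
      refine ih.mpr ?_
      intro L hL b
      exact h ((a, i) :: L) (by simp [hL]) b

theorem Vanishes.sing_eq_zero {f : Br n → A} {L : List (Br n × Fin n)}
    (h : Vanishes L.length f) (b : Br n) : sing f L b = 0 :=
  vanishes_iff_sing.mp h L rfl b

theorem dif_congr_perm {a a' : Br n} (h : perm a = perm a') (i : Fin n) {k : ℕ} {f : Br n → A}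
    (hf : Vanishes (k + 2) f) : Vanishes k (fun x => dif a i f x - dif a' i f x) := by
  have h1 := hf.congr_perm h
  have h2 := h1 1 i
  refine (congrArg (Vanishes k) ?_).mp h2
  funext x
  simp only [dif, one_mul, mul_assoc]
  abel

/-- The value on a singular braid with `k` double points of a function vanishing on those with
`k + 1` double points depends only on the permutations of the intermediate braids. -/
theorem sing_congr_perm : ∀ (L L' : List (Br n × Fin n)) (f : Br n → A) (b b' : Br n),
    Vanishes (L.length + 1) f →
    L.map (fun c => (perm c.1, c.2)) = L'.map (fun c => (perm c.1, c.2)) →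
    perm b = perm b' → sing f L b = sing f L' b' := by
  intro L
  induction L with
  | nil =>
    intro L' f b b' hf hL hb
    have : L' = [] := by simpa using hL.symm
    subst this
    have := (hf.congr_perm hb) 1
    simpa [sub_eq_zero] using this
  | cons c L ih =>
    intro L' f b b' hf hL hb
    obtain ⟨a, i⟩ := c
    match L', hL with
    | [], hL => simp at hL
    | (a', i') :: L', hL =>
      simp only [List.map_cons, List.cons.injEq, Prod.mk.injEq] at hL
      obtain ⟨⟨h1, rfl⟩, h2⟩ := hL
      simp only [sing_cons]
      have e1 : sing (dif a i f) L b = sing (dif a' i f) L b := by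
        rw [← sub_eq_zero, ← sing_sub]
        exact (dif_congr_perm h1 i hf).sing_eq_zero b
      rw [e1]
      exact ih L' _ b b' (hf a' i) h2 hb

end Pool.Agent.LibH11
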