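import Mathlib

/-! An odd power of a positive definite matrix with nonzero twisted trace, and integer valued
functions with constant odd order differences. -/

namespace Pool.Agent.LibH11

open Matrix

theorem exists_odd_trace {ι : Type*} [Fintype ι] [DecidableEq ι] {A : Matrix ι ι ℝ}
    (hA : A.PosDef) (P : Matrix ι ι ℝ) (hP : P.trace ≠ 0) :
    ∃ k : ℕ, Odd k ∧ (P * A ^ k).trace ≠ 0 := by
  by_contra hcon
  push Not at hcon
  set lam := hA.1.eigenvalues with hlam
  have hpos : ∀ i, 0 < lam i := hA.eigenvalues_pos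
  let S : Finset ℝ := Finset.univ.image (fun i => lam i ^ 2)
  let p : Polynomial ℝ := Lagrange.interpolate S id (fun v => (Real.sqrt v)⁻¹)
  have hp : ∀ i, p.eval (lam i ^ 2) = (lam i)⁻¹ := by
    intro i
    have h1 := Lagrange.eval_interpolate_at_node (s := S) (v := id)
      (fun v => (Real.sqrt v)⁻¹) Function.injective_id.injOn
      (Finset.mem_image_of_mem (fun i => lam i ^ 2) (Finset.mem_univ i))
    simp only [id_eq] at h1
    rw [Real.sqrt_sq (hpos i).le] at h1
    exact h1
  set φ := Unitary.conjStarAlgAut ℝ (Matrix ι ι ℝ) hA.1.eigenvectorUnitary with hφ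
  have hspec : A = φ (diagonal lam) := by
    have := hA.1.spectral_theorem
    exact this
  have hpow : ∀ k, A ^ k = φ (diagonal (fun i => lam i ^ k)) := by
    intro k
    rw [hspec, ← map_pow, diagonal_pow]
    rfl
  have h1 : ∑ j ∈ Finset.range (p.natDegree + 1), p.coeff j • A ^ (2 * j + 1) = 1 := by
    have h2 : ∀ j, p.coeff j • A ^ (2 * j + 1) =
        φ (diagonal (fun i => p.coeff j * lam i ^ (2 * j + 1))) := by
      intro j
      rw [hpow, ← map_smul]
      congr 1
      ext a b
      simp [diagonal_apply]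
    rw [Finset.sum_congr rfl (fun j _ => h2 j), ← map_sum]
    have h3 : ∑ j ∈ Finset.range (p.natDegree + 1),
        diagonal (fun i => p.coeff j * lam i ^ (2 * j + 1)) = (1 : Matrix ι ι ℝ) := by
      ext a b
      rw [Matrix.sum_apply]
      by_cases hab : a = b
      · subst hab
        simp only [diagonal_apply_eq, one_apply_eq]
        have h4 : ∑ j ∈ Finset.range (p.natDegree + 1), p.coeff j * lam a ^ (2 * j + 1) =
            lam a * p.eval (lam a ^ 2) := by
          rw [Polynomial.eval_eq_sum_range, Finset.mul_sum]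
          apply Finset.sum_congr rfl
          intro j _
          rw [pow_succ, pow_mul]; ring
        rw [h4, hp a, mul_inv_cancel₀ (hpos a).ne']
      · simp only [diagonal_apply_ne _ hab, one_apply_ne hab, Finset.sum_const_zero]
    rw [h3, map_one]
  apply hP
  calc P.trace = (P * 1).trace := by rw [mul_one]
    _ = ∑ j ∈ Finset.range (p.natDegree + 1), p.coeff j * (P * A ^ (2 * j + 1)).trace := by
        rw [← h1, Finset.mul_sum, trace_sum]
        apply Finset.sum_congr rfl
        intro j _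
        rw [mul_smul_comm, trace_smul, smul_eq_mul]
    _ = 0 := by
        apply Finset.sum_eq_zero
        intro j _
        rw [hcon (2 * j + 1) ⟨j, rfl⟩, mul_zero]

/-! ### Integer valued functions -/

theorem up_right {f : ℤ → ℤ} {R : ℤ} (h : ∀ m, R ≤ m → 1 ≤ fwdDiff (1 : ℤ) f m) :
    ∀ (j : ℕ) (a : ℤ), R ≤ a → f a + j ≤ f (a + j) := by
  intro j
  induction j with
  | zero => intro a _; simp
  | succ j ih =>
    intro a ha
    have h1 := ih a ha
    have h2 := h (a + j) (by omega)
    simp only [fwdDiff] at h2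
    push_cast
    rw [show a + ((j : ℤ) + 1) = a + j + 1 by ring]
    linarith

theorem up_left {f : ℤ → ℤ} {R : ℤ} (h : ∀ m, m ≤ R → 1 ≤ fwdDiff (1 : ℤ) f m) :
    ∀ (j : ℕ) (a : ℤ), a ≤ R + 1 → f (a - j) + j ≤ f a := by
  intro j
  induction j with
  | zero => intro a _; simp
  | succ j ih =>
    intro a ha
    have h1 := ih a ha
    have h2 := h (a - j - 1) (by omega)
    simp only [fwdDiff, sub_add_cancel] at h2
    push_cast
    rw [show a - ((j : ℤ) + 1) = a - j - 1 by ring]
    linarith

/-- Positive outside a finite set. -/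
def FarPos (f : ℤ → ℤ) : Prop := ∃ R : ℤ, ∀ m, (R ≤ m ∨ m ≤ -R) → 1 ≤ f m

/-- Tends to plus infinity on the right, to minus infinity on the left. -/
def OddInf (f : ℤ → ℤ) : Prop :=
  ∀ B : ℤ, ∃ R : ℤ, (∀ m, R ≤ m → B ≤ f m) ∧ (∀ m, m ≤ -R → f m ≤ -B)

theorem oddInf_of {f : ℤ → ℤ} (h : FarPos (fwdDiff (1 : ℤ) f)) : OddInf f := by
  obtain ⟨R, hR⟩ := h
  intro B
  refine ⟨max (R + |B - f R|) (R + |B + f (-R + 1)|), ?_, ?_⟩
  · intro m hm
    have h1 := up_right (f := f) (R := R) (fun m hm => hR m (Or.inl hm)) (m - R).toNat R le_rfl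
    have h2 : R + |B - f R| ≤ m := le_trans (le_max_left _ _) hm
    have h3 := abs_nonneg (B - f R)
    have h4 := le_abs_self (B - f R)
    have h5 : ((m - R).toNat : ℤ) = m - R := Int.toNat_of_nonneg (by linarith)
    rw [h5, add_sub_cancel] at h1
    linarith
  · intro m hm
    have h2 : R + |B + f (-R + 1)| ≤ -m := by
      have := le_trans (le_max_right (R + |B - f R|) (R + |B + f (-R + 1)|)) (by linarith : _ ≤ -m)
      exact this
    have h3 := abs_nonneg (B + f (-R + 1))
    have h4 := le_abs_self (B + f (-R + 1))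
    have h5 : ((-R + 1 - m).toNat : ℤ) = -R + 1 - m := Int.toNat_of_nonneg (by linarith)
    have h1 := up_left (f := f) (R := -R) (fun m hm => hR m (Or.inr hm)) (-R + 1 - m).toNat
      (-R + 1) le_rfl
    rw [h5, sub_sub_cancel] at h1
    linarith

theorem farPos_of {f : ℤ → ℤ} (h : OddInf (fwdDiff (1 : ℤ) f)) : FarPos f := by
  obtain ⟨R, hR1, hR2⟩ := h 1
  refine ⟨max (R + |1 - f R|) (R + |1 - f (-R + 1)|), ?_⟩
  rintro m (hm | hm)
  · have h1 := up_right (f := f) (R := R) hR1 (m - R).toNat R le_rfl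
    have h2 : R + |1 - f R| ≤ m := le_trans (le_max_left _ _) hm
    have h3 := abs_nonneg (1 - f R)
    have h4 := le_abs_self (1 - f R)
    have h5 : ((m - R).toNat : ℤ) = m - R := Int.toNat_of_nonneg (by linarith)
    rw [h5, add_sub_cancel] at h1
    linarith
  · have h2 : R + |1 - f (-R + 1)| ≤ -m := by
      have := le_trans (le_max_right (R + |1 - f R|) (R + |1 - f (-R + 1)|))
        (by linarith : _ ≤ -m)
      exact this
    have h3 := abs_nonneg (1 - f (-R + 1))
    have h4 := le_abs_self (1 - f (-R + 1))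
    have h5 : ((-R + 1 - m).toNat : ℤ) = -R + 1 - m := Int.toNat_of_nonneg (by linarith)
    have h1 := up_left (f := fun m => - f m) (R := -R) (fun m hm => by
      have := hR2 m hm
      simp only [fwdDiff] at this ⊢
      linarith) (-R + 1 - m).toNat (-R + 1) le_rfl
    rw [h5, sub_sub_cancel] at h1
    linarith

theorem farPos_fwdDiff : ∀ (j : ℕ) (f : ℤ → ℤ) (c : ℤ), 0 < c →
    (fwdDiff (1 : ℤ))^[2 * j + 1] f = (fun _ => c) → FarPos (fwdDiff (1 : ℤ) f) := by
  intro j
  induction j with
  | zero =>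
    intro f c hc h
    refine ⟨0, fun m _ => ?_⟩
    rw [mul_zero, zero_add, Function.iterate_one] at h
    rw [h]
    change 1 ≤ c
    omega
  | succ j ih =>
    intro f c hc h
    rw [show 2 * (j + 1) + 1 = (2 * j + 1) + 2 by ring, Function.iterate_add_apply] at h
    have h1 := ih _ c hc h
    exact farPos_of (oddInf_of h1)

theorem finite_coincidences {k : ℕ} (hk : Odd k) {f : ℤ → ℤ} {c : ℤ} (hc : 0 < c)
    (h : (fwdDiff (1 : ℤ))^[k] f = fun _ => c) :
    {x : ℤ × ℤ | x.1 ≠ x.2 ∧ f x.1 = f x.2}.Finite := by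
  obtain ⟨j, rfl⟩ := hk
  have h1 := farPos_fwdDiff j f c hc h
  have h2 := oddInf_of h1
  obtain ⟨R0', hR0'⟩ := h1
  -- enlarge the radius
  obtain ⟨R0, hR0, hpos⟩ : ∃ R0 : ℤ, 0 ≤ R0 ∧ ∀ m, (R0 ≤ m ∨ m ≤ -R0) →
      1 ≤ fwdDiff (1 : ℤ) f m := by
    refine ⟨max R0' 0, le_max_right _ _, fun m hm => hR0' m ?_⟩
    have := le_max_left R0' 0
    rcases hm with hm | hm
    · left; omega
    · right; omega
  -- bound on the middle part
  obtain ⟨B, hB⟩ : ∃ B : ℤ, ∀ m ∈ Finset.Icc (-R0) R0, |f m| < B := by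
    refine ⟨(∑ m ∈ Finset.Icc (-R0) R0, |f m|) + 1, fun m hm => ?_⟩
    have := Finset.single_le_sum (f := fun m => |f m|) (fun i _ => abs_nonneg (f i)) hm
    linarith
  have hB0 : 0 < B := lt_of_le_of_lt (abs_nonneg _) (hB 0 (by simp [hR0]))
  obtain ⟨R1, hr, hl⟩ := h2 B
  have incr : ∀ a m, R0 ≤ a → a ≤ m → f a + (m - a) ≤ f m := by
    intro a m ha hm
    have := up_right (f := f) (R := R0) (fun m hm => hpos m (Or.inl hm)) (m - a).toNat a ha
    rw [Int.toNat_of_nonneg (by omega), add_sub_cancel] at this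
    exact this
  have incl' : ∀ a m, a ≤ -R0 → m ≤ a → f m + (a - m) ≤ f a := by
    intro a m ha hm
    have := up_left (f := f) (R := -R0) (fun m hm => hpos m (Or.inr hm)) (a - m).toNat a
      (by omega)
    rw [Int.toNat_of_nonneg (by omega), sub_sub_cancel] at this
    exact this
  have hbR : |f R0| < B := hB R0 (by simp [hR0])
  have hbL : |f (-R0)| < B := hB (-R0) (by simp [hR0])
  rw [abs_lt] at hbR hbL
  have key : ∀ m m' : ℤ, m < m' → f m = f m' → -R1 - 1 < m ∧ m' < R1 + 1 := by
    intro m m' hlt heq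
    constructor
    · by_contra hcon
      push Not at hcon
      have e1 := hl m (by omega)
      by_cases c1 : m' ≤ -R0
      · have := incl' m' m c1 hlt.le; omega
      · by_cases c2 : R0 ≤ m'
        · have := incr R0 m' le_rfl c2; omega
        · have := hB m' (by rw [Finset.mem_Icc]; omega)
          rw [abs_lt] at this; omega
    · by_contra hcon
      push Not at hcon
      have e1 := hr m' (by omega)
      by_cases c1 : m ≤ -R0
      · have := incl' (-R0) m le_rfl c1; omega
      · by_cases c2 : R0 ≤ m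
        · have := incr m m' c2 hlt.le; omega
        · have := hB m (by rw [Finset.mem_Icc]; omega)
          rw [abs_lt] at this; omega
  refine ((Set.finite_Icc (-R1 - 1) (R1 + 1)).prod (Set.finite_Icc (-R1 - 1) (R1 + 1))).subset ?_
  rintro ⟨m, m'⟩ ⟨hne, heq⟩
  simp only at hne heq
  rw [Set.mem_prod, Set.mem_Icc, Set.mem_Icc]
  simp only
  rcases lt_or_gt_of_ne hne with hlt | hgt
  · have := key m m' hlt heq; omega
  · have := key m' m hgt heq.symm; omega

end Pool.Agent.LibH11
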