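import Pool.Agent.LibH11.RMatrix

/-! The quantum trace and the `gl_N` invariants of knots. -/

namespace Pool.Agent.LibH11

variable {R : Type*} [CommRing R] {n N : ℕ}

/-- The weights of the quantum trace. -/
def mu (q a : Rˣ) (c : Fin N) : R := ((a⁻¹ : Rˣ) : R) * (q : R) ^ (2 * (c : ℕ) + 1)

/-- The weight of a colouring. -/
def mus (q a : Rˣ) {n : ℕ} (s : Fin (n + 1) → Fin N) : R := ∏ i, mu q a (s i)

theorem mus_swap (q a : Rˣ) (s : Fin (n + 1) → Fin N) (g : Equiv.Perm (Fin (n + 1))) :
    mus q a (s ∘ g) = mus q a s := by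
  unfold mus
  exact Equiv.prod_comp g (fun i => mu q a (s i))

theorem mus_snoc (q a : Rˣ) (t : Fin (n + 1) → Fin N) (c : Fin N) :
    mus q a (Fin.snoc t c : Fin (n + 2) → Fin N) = mus q a t * mu q a c := by
  unfold mus
  rw [Fin.prod_univ_castSucc]
  simp only [Fin.snoc_castSucc, Fin.snoc_last]

/-- Multiplication by the weights. -/
def mulMu (q a : Rˣ) (n N : ℕ) : Module.End R ((Fin (n + 1) → Fin N) → R) where
  toFun f s := mus q a s * f s
  map_add' f g := by funext s; simp [mul_add]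
  map_smul' c f := by funext s; simp [mul_left_comm]

/-- The quantum trace. -/
noncomputable def qtr (q a : Rˣ) (A : Module.End R ((Fin (n + 1) → Fin N) → R)) : R :=
  LinearMap.trace R _ (mulMu q a n N * A)

theorem qtr_eq (q a : Rˣ) (A : Module.End R ((Fin (n + 1) → Fin N) → R)) :
    qtr q a A = ∑ s, mus q a s * A (Pi.single s 1) s := by
  unfold qtr
  rw [LinearMap.trace_eq_matrix_trace R (Pi.basisFun R _), LinearMap.toMatrix_eq_toMatrix',
    Matrix.trace]
  apply Finset.sum_congr rfl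
  intro s _
  rw [Matrix.diag_apply, LinearMap.toMatrix'_apply]
  rfl

theorem mulMu_comm (q a : Rˣ) (b : Br n) :
    mulMu q a n N * (rep (Fin N) q a n b).val = (rep (Fin N) q a n b).val * mulMu q a n N := by
  induction b using br_induction with
  | h1 => simp
  | hs i =>
    refine LinearMap.ext fun f => funext fun s => ?_
    rw [rep_sg]
    have h := mus_swap q a s (Equiv.swap i.castSucc i.succ)
    simp only [opU, Module.End.mul_apply, mulMu, LinearMap.coe_mk, AddHom.coe_mk,
      LinearMap.smul_apply, Pi.smul_apply, smul_eq_mul, op_apply, h]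
    split_ifs <;> ring
  | hm x y hx hy =>
    rw [map_mul, Units.val_mul, ← mul_assoc, hx, mul_assoc, hy, mul_assoc]
  | hi x hx =>
    rw [map_inv]
    set A := rep (Fin N) q a n x
    calc mulMu q a n N * A⁻¹.val = A⁻¹.val * (A.val * mulMu q a n N) * A⁻¹.val := by
          rw [← mul_assoc, Units.inv_mul, one_mul]
      _ = A⁻¹.val * mulMu q a n N := by
          rw [← hx, mul_assoc, mul_assoc, Units.mul_inv, mul_one]

theorem qtr_comm (q a : Rˣ) (b : Br n) (A : Module.End R ((Fin (n + 1) → Fin N) → R)) :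
    qtr q a ((rep (Fin N) q a n b).val * A) = qtr q a (A * (rep (Fin N) q a n b).val) := by
  unfold qtr
  rw [← mul_assoc, mulMu_comm, mul_assoc, LinearMap.trace_mul_comm, mul_assoc]

/-- The coefficient of the R-matrix that matters for the partial trace. -/
def kap (q : Rˣ) (a c : Fin N) : R := if a = c then (q : R) else if a < c then zz q else 0

theorem sum_mu_aux (q a : Rˣ) (N : ℕ) (ha : a = q ^ N) (M : ℕ) (hM : M ≤ N) :
    ∑ c : Fin N, (if M ≤ (c : ℕ) then mu q a c * zz q else 0) =
      (a : R) - ((a⁻¹ : Rˣ) : R) * (q : R) ^ (2 * M) := by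
  have h1 : ∀ c : Fin N, (if M ≤ (c : ℕ) then mu q a c * zz q else 0) =
      (fun j : ℕ => if M ≤ j then ((a⁻¹ : Rˣ) : R) * ((q : R) ^ (2 * (j + 1)) - (q : R) ^ (2 * j))
        else 0) (c : ℕ) := by
    intro c
    simp only [mu, zz]
    split_ifs
    · have e : (q : R) ^ (2 * (c : ℕ) + 1) * ((q⁻¹ : Rˣ) : R) = (q : R) ^ (2 * (c : ℕ)) := by
        rw [pow_succ, mul_assoc, Units.mul_inv, mul_one]
      calc ((a⁻¹ : Rˣ) : R) * (q : R) ^ (2 * (c : ℕ) + 1) * ((q : R) - ((q⁻¹ : Rˣ) : R)) =
          ((a⁻¹ : Rˣ) : R) * ((q : R) ^ (2 * (c : ℕ) + 1) * q -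
            (q : R) ^ (2 * (c : ℕ) + 1) * ((q⁻¹ : Rˣ) : R)) := by ring
        _ = _ := by rw [e]; ring
    · rfl
  rw [Finset.sum_congr rfl (fun c _ => h1 c),
    Fin.sum_univ_eq_sum_range (fun j : ℕ => if M ≤ j then ((a⁻¹ : Rˣ) : R) *
      ((q : R) ^ (2 * (j + 1)) - (q : R) ^ (2 * j)) else 0) N]
  have h2 : ∀ K, M ≤ K → ∑ j ∈ Finset.range K, (if M ≤ j then ((a⁻¹ : Rˣ) : R) *
      ((q : R) ^ (2 * (j + 1)) - (q : R) ^ (2 * j)) else 0) =
      ((a⁻¹ : Rˣ) : R) * ((q : R) ^ (2 * K) - (q : R) ^ (2 * M)) := by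
    intro K hK
    induction K, hK using Nat.le_induction with
    | base =>
      rw [sub_self, mul_zero]
      apply Finset.sum_eq_zero
      intro j hj
      rw [if_neg (by simpa using hj)]
    | succ K hK ih =>
      rw [Finset.sum_range_succ, ih, if_pos hK]
      ring
  rw [h2 N hM, mul_sub]
  congr 1
  subst ha
  rw [two_mul, pow_add, ← mul_assoc]
  have : ((((q ^ N)⁻¹ : Rˣ)) : R) * (q : R) ^ N = 1 := by
    rw [← Units.val_pow_eq_pow_val, Units.inv_mul]
  rw [this, one_mul, Units.val_pow_eq_pow_val]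

theorem sum_mu (q a : Rˣ) (ha : a = q ^ N) :
    ∑ c : Fin N, mu q a c * zz q = (a : R) - ((a⁻¹ : Rˣ) : R) := by
  have := sum_mu_aux q a N ha 0 (Nat.zero_le _)
  simpa using this

theorem sum_mu_kap (q a : Rˣ) (ha : a = q ^ N) (b : Fin N) :
    ∑ c : Fin N, mu q a c * kap q b c = (a : R) := by
  have h1 : ∀ c : Fin N, mu q a c * kap q b c =
      (if c = b then mu q a b * (q : R) else 0) +
        (if (b : ℕ) + 1 ≤ (c : ℕ) then mu q a c * zz q else 0) := by
    intro c
    unfold kap
    rcases lt_trichotomy b c with h | h | h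
    · have h' : (b : ℕ) + 1 ≤ c := h
      rw [if_neg h.ne, if_pos h, if_neg h.ne', if_pos h', zero_add]
    · subst h; simp
    · have h' : ¬ (b : ℕ) + 1 ≤ c := by have : (c : ℕ) < b := h; omega
      rw [if_neg h.ne', if_neg h.not_gt, if_neg h.ne, if_neg h']; simp
  rw [Finset.sum_congr rfl (fun c _ => h1 c), Finset.sum_add_distrib,
    sum_mu_aux q a N ha ((b : ℕ) + 1) b.isLt]
  simp only [Finset.sum_ite_eq', Finset.mem_univ, if_true, mu]
  ring

/-- The partial trace of the R-matrix. -/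
theorem op_last (q : Rˣ) (t : Fin (n + 1) → Fin N) (c : Fin N) :
    (fun t' : Fin (n + 1) → Fin N => op (q : R) (zz q) (Fin.last n).castSucc (Fin.last n).succ
      (Pi.single (Fin.snoc t c : Fin (n + 2) → Fin N) (1 : R)) (Fin.snoc t' c)) =
      kap q (t (Fin.last n)) c • Pi.single t (1 : R) := by
  funext t'
  have hs : ∀ t t' : Fin (n + 1) → Fin N, (Fin.snoc t c : Fin (n + 2) → Fin N) = Fin.snoc t' c ↔
      t = t' := by
    intro t t'
    constructor
    · intro h
      funext i
      have := congrFun h i.castSucc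
      simpa only [Fin.snoc_castSucc] using this
    · rintro rfl; rfl
  simp only [op_apply, Fin.snoc_castSucc, Fin.succ_last, Fin.snoc_last, Pi.smul_apply,
    smul_eq_mul, Pi.single_apply, hs, kap]
  by_cases h0 : t' (Fin.last n) = c
  · rw [if_pos h0]
    by_cases h1 : t' = t
    · subst h1; rw [if_pos rfl, if_pos h0]
    · rw [if_neg h1, mul_zero, mul_zero]
  · rw [if_neg h0]
    have h2 : ¬ ((Fin.snoc t' c : Fin (n + 2) → Fin N) ∘
        Equiv.swap (Fin.last n).castSucc (Fin.last (n + 1)) = Fin.snoc t c) := by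
      intro h
      have := congrFun h (Fin.last (n + 1))
      simp only [Function.comp_apply, Equiv.swap_apply_right, Fin.snoc_castSucc,
        Fin.snoc_last] at this
      exact h0 this
    rw [if_neg h2, zero_add]
    by_cases h1 : t' = t
    · subst h1; rw [if_pos rfl, if_neg h0]
      split_ifs <;> simp
    · rw [if_neg h1, mul_zero, mul_zero, ite_self]

theorem sum_snoc (F : (Fin (n + 2) → Fin N) → R) :
    ∑ s, F s = ∑ t : Fin (n + 1) → Fin N, ∑ c : Fin N, F (Fin.snoc t c) := by
  rw [← Equiv.sum_comp (Fin.snocEquiv (fun _ : Fin (n + 2) => Fin N)) F]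
  rw [Fintype.sum_prod_type, Finset.sum_comm]
  rfl

theorem qtr_incl_op (q a : Rˣ) (ha : a = q ^ N) (b : Br n) :
    qtr q a ((rep (Fin N) q a (n + 1) (incl b)).val *
      op (q : R) (zz q) (Fin.last n).castSucc (Fin.last n).succ) =
      (a : R) * qtr q a (rep (Fin N) q a n b).val := by
  rw [qtr_eq, qtr_eq, sum_snoc, Finset.mul_sum]
  apply Finset.sum_congr rfl
  intro t _
  have h : ∀ c : Fin N, mus q a (Fin.snoc t c : Fin (n + 2) → Fin N) *
      ((rep (Fin N) q a (n + 1) (incl b)).val *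
      op (q : R) (zz q) (Fin.last n).castSucc (Fin.last n).succ :
        Module.End R ((Fin (n + 2) → Fin N) → R))
        (Pi.single (Fin.snoc t c : Fin (n + 2) → Fin N) 1) (Fin.snoc t c) =
      (mus q a t * (rep (Fin N) q a n b).val (Pi.single t 1) t) *
        (mu q a c * kap q (t (Fin.last n)) c) := by
    intro c
    rw [Module.End.mul_apply, rep_incl, op_last q t c, map_smul, Pi.smul_apply, mus_snoc,
      smul_eq_mul]
    ring
  rw [Finset.sum_congr rfl (fun c _ => h c), ← Finset.mul_sum, sum_mu_kap q a ha]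
  ring

theorem qtr_incl (q a : Rˣ) (ha : a = q ^ N) (b : Br n) :
    zz q * qtr q a (rep (Fin N) q a (n + 1) (incl b)).val =
      ((a : R) - ((a⁻¹ : Rˣ) : R)) * qtr q a (rep (Fin N) q a n b).val := by
  rw [qtr_eq, qtr_eq, sum_snoc, Finset.mul_sum, Finset.mul_sum]
  apply Finset.sum_congr rfl
  intro t _
  have h : ∀ c : Fin N, mus q a (Fin.snoc t c : Fin (n + 2) → Fin N) *
      (rep (Fin N) q a (n + 1) (incl b)).val
        (Pi.single (Fin.snoc t c : Fin (n + 2) → Fin N) 1) (Fin.snoc t c) =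
      (mus q a t * (rep (Fin N) q a n b).val (Pi.single t 1) t) * mu q a c := by
    intro c
    have h1 : (fun t' : Fin (n + 1) → Fin N =>
        (Pi.single (Fin.snoc t c : Fin (n + 2) → Fin N) (1 : R) : (Fin (n + 2) → Fin N) → R)
          (Fin.snoc t' c)) = Pi.single t 1 := by
      funext t'
      simp only [Pi.single_apply]
      congr 1
      apply propext
      constructor
      · intro h
        funext i
        have := congrFun h i.castSucc
        simpa only [Fin.snoc_castSucc] using this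
      · rintro rfl; rfl
    rw [rep_incl, h1, mus_snoc]
    ring
  rw [Finset.sum_congr rfl (fun c _ => h c), ← Finset.mul_sum]
  have h2 := sum_mu q a ha
  rw [← Finset.sum_mul] at h2
  linear_combination (mus q a t * (rep (Fin N) q a n b).val (Pi.single t 1) t) * h2

theorem qtr_smul (q a : Rˣ) (r : R) (A : Module.End R ((Fin (n + 1) → Fin N) → R)) :
    qtr q a (r • A) = r * qtr q a A := by
  unfold qtr; rw [mul_smul_comm, map_smul, smul_eq_mul]

theorem qtr_add (q a : Rˣ) (A B : Module.End R ((Fin (n + 1) → Fin N) → R)) :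
    qtr q a (A + B) = qtr q a A + qtr q a B := by
  unfold qtr; rw [mul_add, map_add]

theorem qtr_sub (q a : Rˣ) (A B : Module.End R ((Fin (n + 1) → Fin N) → R)) :
    qtr q a (A - B) = qtr q a A - qtr q a B := by
  unfold qtr; rw [mul_sub, map_sub]

theorem qtr_stab (q a : Rˣ) (ha : a = q ^ N) (b : Br n) :
    qtr q a (rep (Fin N) q a (n + 1) (incl b * sg (Fin.last n))).val =
      qtr q a (rep (Fin N) q a n b).val := by
  rw [map_mul, rep_sg, Units.val_mul]
  simp only [opU]
  rw [mul_smul_comm, qtr_smul, qtr_incl_op q a ha, ← mul_assoc, Units.inv_mul, one_mul]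

theorem qtr_stabNeg (q a : Rˣ) (ha : a = q ^ N) (b : Br n) :
    qtr q a (rep (Fin N) q a (n + 1) (incl b * (sg (Fin.last n))⁻¹)).val =
      qtr q a (rep (Fin N) q a n b).val := by
  rw [map_mul, map_inv, rep_sg, Units.val_mul]
  change qtr q a ((rep (Fin N) q a (n + 1) (incl b)).val * ((a : R) •
    (op (q : R) (zz q) (Fin.last n).castSucc (Fin.last n).succ - zz q • 1))) = _
  rw [mul_smul_comm, qtr_smul, mul_sub, qtr_sub, qtr_incl_op q a ha, mul_smul_comm, mul_one,
    qtr_smul, qtr_incl q a ha, ← sub_mul, sub_sub_cancel, ← mul_assoc, Units.mul_inv, one_mul]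

theorem qtr_conj (q a : Rˣ) (x b : Br n) :
    qtr q a (rep (Fin N) q a n (x * b * x⁻¹)).val = qtr q a (rep (Fin N) q a n b).val := by
  rw [mul_assoc, map_mul, Units.val_mul, qtr_comm, ← Units.val_mul, ← map_mul,
    inv_mul_cancel_right]

/-- The `gl_N` invariant of knots, with `a = q ^ N`. -/
noncomputable def glInv (q : Rˣ) (N : ℕ) : Knot → R :=
  Quot.lift (fun x : KnotBraid => qtr q (q ^ N) (rep (Fin N) q (q ^ N) x.1.1 x.1.2).val) (by
    rintro ⟨x, hx⟩ ⟨y, hy⟩ h
    simp only at h
    cases h with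
    | conj n x b => exact (qtr_conj q _ x b).symm
    | stabPos n b => exact (qtr_stab q _ rfl b).symm
    | stabNeg n b => exact (qtr_stabNeg q _ rfl b).symm)

theorem glInv_closure (q : Rˣ) (N : ℕ) (b : Br n) (h : IsKnot b) :
    glInv q N (closure b h) = qtr q (q ^ N) (rep (Fin N) q (q ^ N) n b).val := rfl

end Pool.Agent.LibH11
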