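import Pool.Agent.LibH11.SlicedKnots
import Pool.Agent.LibH11.Ker

/-! Calculus of finite type functions on sliced diagrams. -/

namespace Pool.Agent.LibH11.Sliced

open Pool.Agent.LibH11 (Br sg liftBr liftBr_sg Vanishes)

variable {A : Type*} [AddCommGroup A]

/-! ### Running diagrams -/

/-- The starting state. -/
def start : State := (1, fun _ => 0, 1)

theorem run_append (u w : Diag) : ∀ s : State, run (u ++ w) s = (run u s).bind (run w) := by
  induction u with
  | nil => intro s; rfl
  | cons p u ih =>
    intro s
    simp only [List.cons_append, run]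
    cases h : step p s with
    | none => rfl
    | some t => simpa using ih t

theorem isLongKnot_iff (w : Diag) :
    IsLongKnot w ↔ ∃ (lab : ℕ → ℕ) (c : ℕ), run w start = some (1, lab, c) := Iff.rfl

theorem onDiags_of {v : Knot → A} {w : Diag} (h : IsLongKnot w) : onDiags v w = v (ofDiag w h) := by
  unfold onDiags; rw [dif_pos h]

theorem onDiags_of_not {v : Knot → A} {w : Diag} (h : ¬ IsLongKnot w) : onDiags v w = 0 := by
  unfold onDiags; rw [dif_neg h]

theorem onDiags_move (v : Knot → A) {a b : Diag} (hab : Move a b) (u w : Diag)
    (h : ∀ s, run u start = some s → run a s = run b s) :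
    onDiags v (u ++ a ++ w) = onDiags v (u ++ b ++ w) := by
  have hk : run (u ++ a ++ w) start = run (u ++ b ++ w) start := by
    rw [run_append, run_append, run_append (u ++ b) w, run_append u b]
    cases hu : run u start with
    | none => rfl
    | some s => simp only [Option.bind_some]; rw [h s hu]
  by_cases h1 : IsLongKnot (u ++ a ++ w)
  · have h2 : IsLongKnot (u ++ b ++ w) := by
      rw [isLongKnot_iff, ← hk]; exact h1
    rw [onDiags_of h1, onDiags_of h2]
    exact congrArg v (Quot.sound ⟨u, a, b, w, hab, rfl, rfl⟩)
  · have h2 : ¬ IsLongKnot (u ++ b ++ w) := by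
      rw [isLongKnot_iff, ← hk]; exact h1
    rw [onDiags_of_not h1, onDiags_of_not h2]

/-- The number of strands after a diagram. -/
def cnt : ℕ → Diag → Option ℕ
  | N, [] => some N
  | N, (k, i) :: w => if i + k.ins ≤ N then cnt (N - k.ins + k.outs) w else none

theorem cnt_append (u w : Diag) : ∀ N : ℕ, cnt N (u ++ w) = (cnt N u).bind (fun M => cnt M w) := by
  induction u with
  | nil => intro s; rfl
  | cons p u ih =>
    obtain ⟨k, i⟩ := p
    intro N
    simp only [List.cons_append, cnt]
    split_ifs
    · exact ih _
    · rfl

theorem step_fst {k : Kind} {i N : ℕ} {lab : ℕ → ℕ} {c : ℕ} {t : State}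
    (h : step (k, i) (N, lab, c) = some t) : i + k.ins ≤ N ∧ t.1 = N - k.ins + k.outs := by
  cases k with
  | cup =>
    simp only [step, Kind.ins, Kind.outs] at h ⊢
    split_ifs at h with h1
    · simp only [Option.some.injEq] at h
      subst h
      exact ⟨by omega, rfl⟩
  | cap =>
    simp only [step, Kind.ins, Kind.outs] at h ⊢
    split_ifs at h with h1
    · simp only [Option.some.injEq] at h
      subst h
      exact ⟨by omega, rfl⟩
  | crs e =>
    simp only [step, Kind.ins, Kind.outs] at h ⊢
    split_ifs at h with h1
    · simp only [Option.some.injEq] at h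
      subst h
      exact ⟨by omega, by simp only; omega⟩

theorem run_cnt : ∀ (u : Diag) (s t : State), run u s = some t → cnt s.1 u = some t.1 := by
  intro u
  induction u with
  | nil => intro s t h; simp only [run, Option.some.injEq] at h; subst h; rfl
  | cons p u ih =>
    obtain ⟨k, i⟩ := p
    intro s t h
    simp only [run] at h
    cases hs : step (k, i) s with
    | none => rw [hs] at h; simp at h
    | some r =>
      rw [hs] at h
      simp only [Option.bind_some] at h
      obtain ⟨h1, h2⟩ := step_fst (lab := s.2.1) (c := s.2.2) hs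
      simp only [cnt]
      rw [if_pos h1, ← h2]
      exact ih r t h

/-! ### Braid words inside diagrams -/

/-- The element of the braid group given by a word. -/
def wd {n : ℕ} (x : List (Fin n × Bool)) : Br n :=
  (x.map fun p => if p.2 then sg p.1 else (sg p.1)⁻¹).prod

/-- The diagram of a braid word. -/
def bw {n : ℕ} (x : List (Fin n × Bool)) : Diag := x.map fun p => (Kind.crs p.2, (p.1 : ℕ))

@[simp] theorem bw_nil {n : ℕ} : bw ([] : List (Fin n × Bool)) = [] := rfl
@[simp] theorem bw_cons {n : ℕ} (p : Fin n × Bool) (x : List (Fin n × Bool)) :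
    bw (p :: x) = (Kind.crs p.2, (p.1 : ℕ)) :: bw x := rfl
theorem bw_append {n : ℕ} (x y : List (Fin n × Bool)) : bw (x ++ y) = bw x ++ bw y := by
  simp [bw]
theorem wd_append {n : ℕ} (x y : List (Fin n × Bool)) : wd (x ++ y) = wd x * wd y := by
  simp [wd]
@[simp] theorem wd_nil {n : ℕ} : wd ([] : List (Fin n × Bool)) = 1 := rfl
theorem wd_cons {n : ℕ} (p : Fin n × Bool) (x : List (Fin n × Bool)) :
    wd (p :: x) = (if p.2 then sg p.1 else (sg p.1)⁻¹) * wd x := by simp [wd]

theorem wd_surjective {n : ℕ} (b : Br n) : ∃ x, wd x = b := by
  induction b using PresentedGroup.induction_on with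
  | _ w =>
    induction w using FreeGroup.induction_on with
    | C1 => exact ⟨[], by simp⟩
    | of i => exact ⟨[(i, true)], by simp [wd, sg, PresentedGroup.of]⟩
    | inv_of i _ => exact ⟨[(i, false)], by simp [wd, sg, PresentedGroup.of]⟩
    | mul u w hu hw =>
      obtain ⟨x, hx⟩ := hu
      obtain ⟨y, hy⟩ := hw
      exact ⟨x ++ y, by rw [wd_append, hx, hy, map_mul]⟩

/-- A chosen word for a braid. -/
noncomputable def rep {n : ℕ} (b : Br n) : List (Fin n × Bool) := (wd_surjective b).choose

@[simp] theorem wd_rep {n : ℕ} (b : Br n) : wd (rep b) = b := (wd_surjective b).choose_spec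

theorem run_bw {n : ℕ} : ∀ (x : List (Fin n × Bool)) (lab : ℕ → ℕ) (c : ℕ),
    ∃ lab', run (bw x) (n + 1, lab, c) = some (n + 1, lab', c) := by
  intro x
  induction x with
  | nil => intro lab c; exact ⟨lab, rfl⟩
  | cons p x ih =>
    intro lab c
    obtain ⟨lab', h⟩ := ih (fun j => lab (Equiv.swap (p.1 : ℕ) (p.1 + 1) j)) c
    refine ⟨lab', ?_⟩
    have hp := p.1.isLt
    simp only [bw_cons, run, step]
    rw [if_pos (by omega)]
    simpa using h

theorem cnt_bw {n : ℕ} (x : List (Fin n × Bool)) : cnt (n + 1) (bw x) = some (n + 1) := by
  obtain ⟨lab', h⟩ := run_bw x (fun _ => 0) 0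
  exact run_cnt _ _ _ h

/-- Words of braids can be replaced by equivalent words at the bottom of diagrams. -/
def Good (n : ℕ) (f : Diag → A) : Prop :=
  ∀ x y : List (Fin n × Bool), wd x = wd y → ∀ w, f (bw x ++ w) = f (bw y ++ w)

/-- The congruence of words that are interchangeable in all diagrams. -/
def wordCon (n : ℕ) (v : Knot → A) : Con (FreeMonoid (Fin n × Bool)) where
  r x y := ∀ (u : Diag) (lab : ℕ → ℕ) (c : ℕ), run u start = some (n + 1, lab, c) →
    ∀ w, onDiags v (u ++ bw x.toList ++ w) = onDiags v (u ++ bw y.toList ++ w)
  iseqv := by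
    constructor
    · intro x u lab c _ w; rfl
    · intro x y h u lab c hu w; exact (h u lab c hu w).symm
    · intro x y z h1 h2 u lab c hu w; exact (h1 u lab c hu w).trans (h2 u lab c hu w)
  mul' := by
    intro x y x' y' h1 h2 u lab c hu w
    rw [FreeMonoid.toList_mul, FreeMonoid.toList_mul, bw_append, bw_append]
    have e1 := h1 u lab c hu (bw x'.toList ++ w)
    obtain ⟨lab', hy⟩ := run_bw y.toList lab c
    have e2 := h2 (u ++ bw y.toList) lab' c (by rw [run_append, hu]; simpa using hy) w
    simp only [List.append_assoc] at e1 e2 ⊢
    rw [e1, e2]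

theorem swap_swap_nat (i j : ℕ) : Equiv.swap i (i + 1) (Equiv.swap i (i + 1) j) = j := by simp

theorem wordCon_r2 {n : ℕ} (v : Knot → A) (i : Fin n) (e : Bool) :
    wordCon n v (FreeMonoid.of (i, e) * FreeMonoid.of (i, !e)) 1 := by
  intro u lab c hu w
  have := onDiags_move v (Move.r2 i e) u w (by
    intro s hs
    rw [hu] at hs
    simp only [Option.some.injEq] at hs
    subst hs
    have hi := i.isLt
    simp only [run, step]
    rw [if_pos (by omega)]
    simp only [Option.bind_some]
    rw [if_pos (by omega)]
    simp)
  simpa [bw] using this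

theorem wordCon_far {n : ℕ} (v : Knot → A) (i j : Fin n) (h : (i : ℕ) + 2 ≤ j) :
    wordCon n v (FreeMonoid.of (i, true) * FreeMonoid.of (j, true))
      (FreeMonoid.of (j, true) * FreeMonoid.of (i, true)) := by
  intro u lab c hu w
  have hm := Move.far (.crs true) (.crs true) i (j - (i + 2))
  have e : (i : ℕ) + 2 + (j - (i + 2)) = j := by omega
  simp only [Kind.outs, Kind.ins, e] at hm
  have := onDiags_move v hm u w (by
    intro s hs
    rw [hu] at hs
    simp only [Option.some.injEq] at hs
    subst hs
    have hi := i.isLt
    have hj := j.isLt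
    simp only [run, step]
    rw [if_pos (by omega), if_pos (by omega)]
    simp only [Option.bind_some]
    rw [if_pos (by omega), if_pos (by omega)]
    simp only [Option.bind_some, Option.some.injEq, Prod.mk.injEq, true_and, and_true]
    funext m
    congr 1
    simp only [Equiv.swap_apply_def]
    split_ifs <;> omega)
  simpa [bw] using this

theorem wordCon_braid {n : ℕ} (v : Knot → A) (i j : Fin n) (h : (i : ℕ) + 1 = j) :
    wordCon n v (FreeMonoid.of (i, true) * FreeMonoid.of (j, true) * FreeMonoid.of (i, true))
      (FreeMonoid.of (j, true) * FreeMonoid.of (i, true) * FreeMonoid.of (j, true)) := by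
  intro u lab c hu w
  have hm := Move.r3 i
  have := onDiags_move v hm u w (by
    intro s hs
    rw [hu] at hs
    simp only [Option.some.injEq] at hs
    subst hs
    have hi := i.isLt
    have hj := j.isLt
    simp only [run, step]
    rw [if_pos (by omega), if_pos (by omega)]
    simp only [Option.bind_some]
    rw [if_pos (by omega), if_pos (by omega)]
    simp only [Option.bind_some]
    rw [if_pos (by omega), if_pos (by omega)]
    simp only [Option.bind_some, Option.some.injEq, Prod.mk.injEq, true_and, and_true]
    funext m
    congr 1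
    simp only [Equiv.swap_apply_def]
    split_ifs <;> omega)
  simpa [bw, h] using this

/-- The generators as units of the quotient monoid. -/
def wordUnit {n : ℕ} (v : Knot → A) (i : Fin n) : (wordCon n v).Quotientˣ where
  val := ((FreeMonoid.of (i, true) : FreeMonoid (Fin n × Bool)) : (wordCon n v).Quotient)
  inv := ((FreeMonoid.of (i, false) : FreeMonoid (Fin n × Bool)) : (wordCon n v).Quotient)
  val_inv := by
    rw [← Con.coe_mul, ← Con.coe_one]
    exact (Con.eq _).mpr (wordCon_r2 v i true)
  inv_val := by
    rw [← Con.coe_mul, ← Con.coe_one]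
    exact (Con.eq _).mpr (wordCon_r2 v i false)

/-- The braid group acts through the quotient monoid. -/
def wordHom (n : ℕ) (v : Knot → A) : Br n →* (wordCon n v).Quotientˣ :=
  liftBr (wordUnit v)
    (by
      intro i j h
      ext
      simp only [Units.val_mul, wordUnit]
      rw [← Con.coe_mul, ← Con.coe_mul]
      exact (Con.eq _).mpr (wordCon_far v i j h))
    (by
      intro i j h
      ext
      simp only [Units.val_mul, wordUnit]
      rw [← Con.coe_mul, ← Con.coe_mul, ← Con.coe_mul, ← Con.coe_mul]
      exact (Con.eq _).mpr (wordCon_braid v i j h))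

theorem wordHom_wd {n : ℕ} (v : Knot → A) (x : List (Fin n × Bool)) :
    ((wordHom n v (wd x) : (wordCon n v).Quotientˣ) : (wordCon n v).Quotient) =
      ((FreeMonoid.ofList x : FreeMonoid (Fin n × Bool)) : (wordCon n v).Quotient) := by
  induction x with
  | nil => simp
  | cons p x ih =>
    obtain ⟨i, e⟩ := p
    rw [wd_cons, map_mul, Units.val_mul, ih, FreeMonoid.ofList_cons, Con.coe_mul]
    congr 1
    cases e
    · simp [wordHom, wordUnit]
    · simp [wordHom, wordUnit]

theorem good_onDiags {n : ℕ} (v : Knot → A) {u : Diag} {lab : ℕ → ℕ} {c : ℕ}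
    (hu : run u start = some (n + 1, lab, c)) : Good n (fun w => onDiags v (u ++ w)) := by
  intro x y hxy w
  have h1 : ((FreeMonoid.ofList x : FreeMonoid (Fin n × Bool)) : (wordCon n v).Quotient) =
      ((FreeMonoid.ofList y : FreeMonoid (Fin n × Bool)) : (wordCon n v).Quotient) := by
    rw [← wordHom_wd, ← wordHom_wd, hxy]
  have h2 := (Con.eq _).mp h1 u lab c hu w
  simpa [List.append_assoc] using h2

/-- The function on diagrams over `N` strands is compatible with braid moves at all levels and
vanishes on impossible diagrams. -/
def AG (N : ℕ) (f : Diag → A) : Prop :=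
  ∀ u : Diag, (cnt N u = none → ∀ w, f (u ++ w) = 0) ∧
    ∀ n, cnt N u = some (n + 1) → Good n (fun w => f (u ++ w))

theorem ag_onDiags (v : Knot → A) : AG 1 (onDiags v) := by
  intro u
  constructor
  · intro h w
    apply onDiags_of_not
    rintro ⟨lab, c, hk⟩
    rw [show ((1 : ℕ), (fun _ => 0 : ℕ → ℕ), (1 : ℕ)) = start from rfl, run_append] at hk
    cases hu : run u start with
    | none => rw [hu] at hk; simp at hk
    | some s =>
      have := run_cnt _ _ _ hu
      simp only [start] at this
      rw [h] at this
      simp at this
  · intro n hn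
    cases hu : run u start with
    | none =>
      intro x y _ w
      have : ∀ w, onDiags v (u ++ w) = 0 := by
        intro w
        apply onDiags_of_not
        rintro ⟨lab, c, hk⟩
        rw [show ((1 : ℕ), (fun _ => 0 : ℕ → ℕ), (1 : ℕ)) = start from rfl, run_append, hu] at hk
        simp at hk
      simp only [this]
    | some s =>
      have := run_cnt _ _ _ hu
      simp only [start] at this
      rw [hn] at this
      simp only [Option.some.injEq] at this
      obtain ⟨N, lab, c⟩ := s
      simp only at this
      subst this
      exact good_onDiags v hu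

theorem AG.shift {N M : ℕ} {f : Diag → A} (h : AG N f) {u : Diag} (hu : cnt N u = some M) :
    AG M (fun w => f (u ++ w)) := by
  intro u'
  have h' := h (u ++ u')
  rw [cnt_append, hu] at h'
  simp only [Option.bind_some] at h'
  constructor
  · intro h1 w
    have := h'.1 h1 w
    rwa [List.append_assoc] at this
  · intro n hn x y hxy w
    have := h'.2 n hn x y hxy w
    simpa only [List.append_assoc] using this

theorem AG.good {n : ℕ} {f : Diag → A} (h : AG (n + 1) f) : Good n f := by
  have := (h []).2 n rfl
  simpa using this

theorem AG.sub {N : ℕ} {f g : Diag → A} (hf : AG N f) (hg : AG N g) :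
    AG N (fun w => f w - g w) := by
  intro u
  constructor
  · intro h w
    have h1 := (hf u).1 h w
    have h2 := (hg u).1 h w
    simp only
    rw [h1, h2, sub_zero]
  · intro n hn x y hxy w
    have h1 := (hf u).2 n hn x y hxy w
    have h2 := (hg u).2 n hn x y hxy w
    simp only at h1 h2 ⊢
    rw [h1, h2]

theorem AG.zero_of_none {N : ℕ} {f : Diag → A} (h : AG N f) {u : Diag} (hu : cnt N u = none)
    (w : Diag) : f (u ++ w) = 0 := (h u).1 hu w

/-! ### Functions vanishing on singular diagrams -/

/-- The function vanishes on singular diagrams with `k` double points. -/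
def Van (k : ℕ) (f : Diag → A) : Prop := ∀ s : SDiag, dbl s = k → resolve f s = 0

theorem resolve_sub (s : SDiag) : ∀ f g : Diag → A,
    resolve (fun w => f w - g w) s = resolve f s - resolve g s := by
  induction s with
  | nil => intro f g; rfl
  | cons p s ih =>
    intro f g
    cases p with
    | inl p => exact ih _ _
    | inr i =>
      simp only [resolve]
      rw [ih, ih]
      abel

theorem resolve_add (s : SDiag) : ∀ f g : Diag → A,
    resolve (fun w => f w + g w) s = resolve f s + resolve g s := by
  induction s with
  | nil => intro f g; rfl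
  | cons p s ih =>
    intro f g
    cases p with
    | inl p => exact ih _ _
    | inr i =>
      simp only [resolve]
      rw [ih, ih]
      abel

theorem resolve_map {C : Type*} [AddCommGroup C] (φ : A →+ C) (s : SDiag) : ∀ f : Diag → A,
    resolve (fun w => φ (f w)) s = φ (resolve f s) := by
  induction s with
  | nil => intro f; rfl
  | cons p s ih =>
    intro f
    cases p with
    | inl p => exact ih _
    | inr i =>
      simp only [resolve, map_sub]
      rw [ih, ih]

theorem Van.sub {k : ℕ} {f g : Diag → A} (hf : Van k f) (hg : Van k g) :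
    Van k (fun w => f w - g w) := by
  intro s hs
  rw [resolve_sub, hf s hs, hg s hs, sub_zero]

theorem Van.add {k : ℕ} {f g : Diag → A} (hf : Van k f) (hg : Van k g) :
    Van k (fun w => f w + g w) := by
  intro s hs
  rw [resolve_add, hf s hs, hg s hs, add_zero]

theorem Van.map {C : Type*} [AddCommGroup C] {k : ℕ} {f : Diag → A} (hf : Van k f) (φ : A →+ C) :
    Van k (fun w => φ (f w)) := by
  intro s hs
  rw [resolve_map, hf s hs, map_zero]

theorem Van.cons {k : ℕ} {f : Diag → A} (hf : Van k f) (p : Kind × ℕ) :
    Van k (fun w => f (p :: w)) := fun s hs => hf (Sum.inl p :: s) hs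

theorem Van.shift {k : ℕ} {f : Diag → A} (hf : Van k f) (u : Diag) :
    Van k (fun w => f (u ++ w)) := by
  induction u generalizing f with
  | nil => exact hf
  | cons p u ih => exact ih (hf.cons p)

theorem Van.diff {k : ℕ} {f : Diag → A} (hf : Van (k + 1) f) (i : ℕ) :
    Van k (fun w => f ((.crs true, i) :: w) - f ((.crs false, i) :: w)) := by
  intro s hs
  rw [resolve_sub]
  exact hf (Sum.inr i :: s) (by simp [dbl, hs])

theorem Van.succ {k : ℕ} {f : Diag → A} (hf : Van k f) : Van (k + 1) f := by
  intro s
  induction s generalizing f with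
  | nil => intro h; simp [dbl] at h
  | cons p s ih =>
    intro h
    cases p with
    | inl p => exact ih (hf.cons p) h
    | inr i =>
      simp only [dbl, Nat.add_right_cancel_iff] at h
      simp only [resolve]
      rw [hf.cons _ s h, hf.cons _ s h, sub_zero]

theorem Van.mono {k l : ℕ} {f : Diag → A} (h : Van k f) (hkl : k ≤ l) : Van l f := by
  induction hkl with
  | refl => exact h
  | step _ ih => exact ih.succ

theorem Van.mul {R : Type*} [CommRing R] : ∀ (s : SDiag) (a b : ℕ) (f g : Diag → R),
    Van (a + 1) f → Van (b + 1) g → dbl s = a + b + 1 → resolve (fun w => f w * g w) s = 0 := by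
  have hz : ∀ (s : SDiag) (f g : Diag → R), Van 0 f → resolve (fun w => f w * g w) s = 0 := by
    intro s
    induction s with
    | nil =>
      intro f g hf
      have := hf [] rfl
      simp only [resolve] at this ⊢
      rw [this, zero_mul]
    | cons p s ih =>
      intro f g hf
      cases p with
      | inl p => exact ih _ _ (hf.cons p)
      | inr i =>
        simp only [resolve]
        rw [ih _ _ (hf.cons _), ih _ _ (hf.cons _), sub_zero]
  intro s
  induction s with
  | nil => intro a b f g _ _ h; simp [dbl] at h
  | cons p s ih =>
    intro a b f g hf hg h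
    cases p with
    | inl p => exact ih a b _ _ (hf.cons p) (hg.cons p) h
    | inr i =>
      simp only [dbl, Nat.add_right_cancel_iff] at h
      simp only [resolve]
      rw [← resolve_sub]
      have e : (fun w => f ((Kind.crs true, i) :: w) * g ((Kind.crs true, i) :: w) -
          f ((Kind.crs false, i) :: w) * g ((Kind.crs false, i) :: w)) =
        fun w => (f ((Kind.crs true, i) :: w) - f ((Kind.crs false, i) :: w)) *
            g ((Kind.crs true, i) :: w) +
          (g ((Kind.crs true, i) :: w) - g ((Kind.crs false, i) :: w)) *
            f ((Kind.crs false, i) :: w) := by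
        funext w; ring
      rw [e, resolve_add]
      have h1 : resolve (fun w => (f ((Kind.crs true, i) :: w) - f ((Kind.crs false, i) :: w)) *
            g ((Kind.crs true, i) :: w)) s = 0 := by
        cases a with
        | zero => exact hz s _ _ (hf.diff i)
        | succ a => exact ih a b _ _ (hf.diff i) (hg.cons _) (by omega)
      have h2 : resolve (fun w => (g ((Kind.crs true, i) :: w) - g ((Kind.crs false, i) :: w)) *
            f ((Kind.crs false, i) :: w)) s = 0 := by
        cases b with
        | zero => exact hz s _ _ (hg.diff i)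
        | succ b => exact ih b a _ _ (hg.diff i) (hf.cons _) (by omega)
      rw [h1, h2, add_zero]

/-! ### From diagrams to functions on braid groups -/

/-- The function on the braid group obtained by inserting braids at the bottom. -/
noncomputable def braidFun {n : ℕ} (f : Diag → A) (w : Diag) (b : Br n) : A := f (bw (rep b) ++ w)

theorem braidFun_wd {n : ℕ} {f : Diag → A} (hf : Good n f) (w : Diag) (x : List (Fin n × Bool)) :
    braidFun f w (wd x) = f (bw x ++ w) := hf _ _ (wd_rep _) w

theorem vanishes_braidFun {n : ℕ} : ∀ (j : ℕ) (f : Diag → A) (w : Diag), Good n f → Van j f →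
    Vanishes j (braidFun (n := n) f w) := by
  intro j
  induction j with
  | zero =>
    intro f w _ hf b
    have : ∀ u : Diag, f u = 0 := by
      intro u
      have h1 := hf (u.map Sum.inl) (by
        induction u with
        | nil => rfl
        | cons p u ih => simpa [dbl] using ih)
      have h2 : ∀ (u : Diag) (f : Diag → A), resolve f (u.map Sum.inl) = f u := by
        intro u
        induction u with
        | nil => intro f; rfl
        | cons p u ih => intro f; simpa [resolve] using ih _
      rwa [h2] at h1
    exact this _
  | succ j ih =>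
    intro f w hg hf a i
    have key := ih (fun w => f (bw (rep a) ++ (Kind.crs true, (i : ℕ)) :: w) -
      f (bw (rep a) ++ (Kind.crs false, (i : ℕ)) :: w)) w (by
        intro x y hxy w
        have h1 := hg (rep a ++ (i, true) :: x) (rep a ++ (i, true) :: y)
          (by rw [wd_append, wd_append, wd_cons, wd_cons, hxy]) w
        have h2 := hg (rep a ++ (i, false) :: x) (rep a ++ (i, false) :: y)
          (by rw [wd_append, wd_append, wd_cons, wd_cons, hxy]) w
        simp only [bw_append, bw_cons, List.append_assoc, List.cons_append] at h1 h2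
        simp only
        rw [h1, h2]) ((hf.shift (bw (rep a))).diff i)
    refine (congrArg (Vanishes j) ?_).mp key
    funext x
    simp only [braidFun]
    have h1 := hg (rep a ++ (i, true) :: rep x) (rep (a * sg i * x))
      (by rw [wd_append, wd_cons]; simp [mul_assoc]) w
    have h2 := hg (rep a ++ (i, false) :: rep x) (rep (a * (sg i)⁻¹ * x))
      (by rw [wd_append, wd_cons]; simp [mul_assoc]) w
    rw [← h1, ← h2]
    simp [bw_append]

end Pool.Agent.LibH11.Sliced
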