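import Pool.Agent.LibH11.SlicedNoether

/-! Finite determinacy: one rational finite type invariant determines all the others on the knots
of bounded complexity. -/

namespace Pool.Agent.LibH11.Sliced

open Pool.Agent.LibH11 (Br sg Vanishes perm)

/-- A common exponent of the symmetric groups on at most `M` letters. -/
theorem perm_pow_factorial {M n : ℕ} (h : n + 1 ≤ M) (b : Br n) :
    perm b ^ M.factorial = 1 := by
  have h1 : perm b ^ Fintype.card (Equiv.Perm (Fin (n + 1))) = 1 := pow_card_eq_one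
  rw [Fintype.card_perm, Fintype.card_fin] at h1
  obtain ⟨c, hc⟩ := Nat.factorial_dvd_factorial h
  rw [hc, pow_mul, h1, one_pow]

/-- The templates for complexity `L`. -/
def Tmpl (L : ℕ) : Set (List TB) :=
  {T | (T.length ≤ L ∧ ∀ t ∈ T, t.ok L (2 * L + 1) (2 * L + 1).factorial) ∧ VT 1 T}

theorem tmpl_finite (L : ℕ) : (Tmpl L).Finite :=
  (finite_templates L (2 * L + 1) (2 * L + 1).factorial).subset fun _ h => h.1

theorem exists_tmpl {L : ℕ} {K : Knot} (hK : BuiltFrom L K) :
    ∃ T ∈ Tmpl L, ∃ κ : Fin L → ℤ, ∀ (A : Type*) [AddCommGroup A] (v : Knot → A),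
      v K = onDiags v (tdiag (2 * L + 1).factorial T (ext0 κ)) := by
  obtain ⟨B, h, hB, hS, rfl⟩ := hK
  have hc : cnt 1 (B.map Block.toDiag).flatten ≠ none := by
    obtain ⟨lab, c, hr⟩ := h
    have := run_cnt _ _ _ hr
    rw [this]
    simp
  obtain ⟨T, k, h1, h2, h3, h4, h5⟩ := exists_template (M := 2 * L + 1)
    (e := (2 * L + 1).factorial) (Nat.factorial_pos _) B 1 hc (by omega) hS
  refine ⟨T, ⟨⟨by omega, h2⟩, h3⟩, fun i => k i, ?_⟩
  intro A _ v
  have hk : ext0 (fun i : Fin L => k i) = k := by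
    funext i
    unfold ext0
    split_ifs with hi
    · rfl
    · exact (h4 i (by omega)).symm
  rw [hk, h5, onDiags_of h]

theorem tmpl_pf {L : ℕ} {T : List TB} (hT : T ∈ Tmpl L) {v : Knot → ℚ} (hv : IsFiniteType v) :
    PF (fun k => onDiags v (tdiag (2 * L + 1).factorial T k)) := by
  obtain ⟨d, hd⟩ := hv
  have := hT.1.1
  exact pf_template (M := 2 * L + 1) (fun n hn b => perm_pow_factorial hn b) T 1 (d + 1)
    (onDiags v) (ag_onDiags v) (van_onDiags hd) hT.2 (by omega)

/-- Finitely many rational invariants determine the others. -/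
theorem exists_finite_set (L : ℕ) : ∃ S : Set (Knot → ℚ), S.Finite ∧ (∀ v ∈ S, IsFiniteType v) ∧
    ∀ K K' : Knot, BuiltFrom L K → BuiltFrom L K' → (∀ v ∈ S, v K = v K') →
      ∀ v : Knot → ℚ, IsFiniteType v → v K = v K' := by
  classical
  have hex : ∀ p : List TB × List TB, p.1 ∈ Tmpl L → p.2 ∈ Tmpl L →
      ∃ S : Set (Knot → ℚ), S.Finite ∧ (∀ v ∈ S, IsFiniteType v) ∧
      ∀ κ κ' : Fin L → ℤ,
        (∀ v ∈ S, onDiags v (tdiag (2 * L + 1).factorial p.1 (ext0 κ)) =
          onDiags v (tdiag (2 * L + 1).factorial p.2 (ext0 κ'))) →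
        ∀ v : Knot → ℚ, IsFiniteType v →
          onDiags v (tdiag (2 * L + 1).factorial p.1 (ext0 κ)) =
            onDiags v (tdiag (2 * L + 1).factorial p.2 (ext0 κ')) := by
    intro p h1 h2
    have l1 := h1.1.1
    have l2 := h2.1.1
    exact noether_pair (M := 2 * L + 1) (fun n hn b => perm_pow_factorial hn b) p.1 p.2 h1.2 h2.2
      (by omega) (by omega)
  choose! S hS1 hS2 hS3 using hex
  refine ⟨⋃ p ∈ Tmpl L ×ˢ Tmpl L, S p, ?_, ?_, ?_⟩
  · exact ((tmpl_finite L).prod (tmpl_finite L)).biUnion fun p hp => hS1 p hp.1 hp.2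
  · intro v hv
    simp only [Set.mem_iUnion] at hv
    obtain ⟨p, hp, hv⟩ := hv
    exact hS2 p hp.1 hp.2 v hv
  · intro K K' hK hK' hS v hv
    obtain ⟨T, hT, κ, hκ⟩ := exists_tmpl hK
    obtain ⟨T', hT', κ', hκ'⟩ := exists_tmpl hK'
    rw [hκ ℚ v, hκ' ℚ v]
    refine hS3 (T, T') hT hT' κ κ' (fun w hw => ?_) v hv
    rw [← hκ ℚ w, ← hκ' ℚ w]
    exact hS w (Set.mem_biUnion (x := (T, T')) ⟨hT, hT'⟩ hw)

/-- Bounded denominators. -/
theorem exists_common_denom (L : ℕ) {v : Knot → ℚ} (hv : IsFiniteType v) :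
    ∃ N : ℕ, N ≠ 0 ∧ ∀ K, BuiltFrom L K → ∃ z : ℤ, (N : ℚ) * v K = z := by
  have key : ∀ s : Set (List TB), s.Finite → s ⊆ Tmpl L → ∃ N : ℕ, N ≠ 0 ∧ ∀ T ∈ s,
      ∀ k : ℕ → ℤ, ∃ z : ℤ, (N : ℚ) * onDiags v (tdiag (2 * L + 1).factorial T k) = z := by
    intro s hs
    induction s, hs using Set.Finite.induction_on with
    | empty => intro _; exact ⟨1, one_ne_zero, by simp⟩
    | @insert T s _ _ ih =>
      intro hsub
      obtain ⟨N, hN, h1⟩ := ih (fun t ht => hsub (Set.mem_insert_of_mem _ ht))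
      obtain ⟨P, hP⟩ := tmpl_pf (hsub (Set.mem_insert _ _)) hv
      obtain ⟨N', hN', h2⟩ := exists_denom P
      refine ⟨N * N', mul_ne_zero hN hN', ?_⟩
      intro t ht k
      rcases Set.mem_insert_iff.mp ht with rfl | ht
      · obtain ⟨z, hz⟩ := h2 k
        refine ⟨N * z, ?_⟩
        have := hP k
        simp only at this
        rw [this]
        push_cast
        rw [← hz]; ring
      · obtain ⟨z, hz⟩ := h1 t ht k
        refine ⟨N' * z, ?_⟩
        push_cast
        rw [← hz]; ring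
  obtain ⟨N, hN, h⟩ := key _ (tmpl_finite L) subset_rfl
  refine ⟨N, hN, fun K hK => ?_⟩
  obtain ⟨T, hT, κ, hκ⟩ := exists_tmpl hK
  rw [hκ ℚ v]
  exact h T hT _

/-- One invariant, integer valued on the knots of complexity at most `L`, that determines finitely
many given ones. -/
theorem exists_combine (L : ℕ) (S : Set (Knot → ℚ)) (hS : S.Finite)
    (hft : ∀ v ∈ S, IsFiniteType v) :
    ∃ w : Knot → ℚ, IsFiniteType w ∧ (∀ K, BuiltFrom L K → ∃ z : ℤ, w K = z) ∧
      ∀ K K', BuiltFrom L K → BuiltFrom L K' → w K = w K' → ∀ v ∈ S, v K = v K' := by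
  induction S, hS using Set.Finite.induction_on with
  | empty => exact ⟨fun _ => 0, isFiniteType_zero, fun _ _ => ⟨0, by simp⟩, by simp⟩
  | @insert v S _ _ ih =>
    obtain ⟨w, hw1, hw2, hw3⟩ := ih (fun u hu => hft u (Set.mem_insert_of_mem _ hu))
    have hv := hft v (Set.mem_insert _ _)
    obtain ⟨N, hN, hv2⟩ := exists_common_denom L hv
    -- polynomials in invariants
    have hsq : ∀ u : Knot → ℚ, IsFiniteType u → IsFiniteType (fun K => 2 * (u K * u K) + u K) :=
      fun u hu => ((hu.mul hu).const_mul 2).add hu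
    have ha := hsq _ (hv.const_mul N)
    have hb := hsq _ hw1
    refine ⟨fun K => ((2 * ((N * v K) * (N * v K)) + N * v K) + (2 * (w K * w K) + w K)) *
      ((2 * ((N * v K) * (N * v K)) + N * v K) + (2 * (w K * w K) + w K)) +
      (2 * ((N * v K) * (N * v K)) + N * v K), ?_, ?_, ?_⟩
    · exact ((ha.add hb).mul (ha.add hb)).add ha
    · intro K hK
      obtain ⟨x, hx⟩ := hv2 K hK
      obtain ⟨y, hy⟩ := hw2 K hK
      refine ⟨((2 * (x * x) + x) + (2 * (y * y) + y)) * ((2 * (x * x) + x) + (2 * (y * y) + y)) +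
        (2 * (x * x) + x), ?_⟩
      push_cast
      rw [hx, hy]
    · intro K K' hK hK' heq
      obtain ⟨x, hx⟩ := hv2 K hK
      obtain ⟨y, hy⟩ := hw2 K hK
      obtain ⟨x', hx'⟩ := hv2 K' hK'
      obtain ⟨y', hy'⟩ := hw2 K' hK'
      simp only [hx, hy, hx', hy'] at heq
      have heq' : ((2 * x ^ 2 + x) + (2 * y ^ 2 + y)) ^ 2 + (2 * x ^ 2 + x) =
          ((2 * x' ^ 2 + x') + (2 * y' ^ 2 + y')) ^ 2 + (2 * x' ^ 2 + x') := by
        have : (((((2 * x ^ 2 + x) + (2 * y ^ 2 + y)) ^ 2 + (2 * x ^ 2 + x)) : ℤ) : ℚ) =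
          (((((2 * x' ^ 2 + x') + (2 * y' ^ 2 + y')) ^ 2 + (2 * x' ^ 2 + x')) : ℤ) : ℚ) := by
          push_cast
          linear_combination heq
        exact_mod_cast this
      obtain ⟨h1, h2⟩ := pair_inj (sq_nonneg' x) (sq_nonneg' y) (sq_nonneg' x') (sq_nonneg' y')
        heq'
      have h3 := sq_inj h1
      have h4 := sq_inj h2
      have hwK : w K = w K' := by rw [hy, hy', h4]
      have hvK : v K = v K' := by
        have hN' : (N : ℚ) ≠ 0 := by exact_mod_cast hN
        have : (N : ℚ) * v K = N * v K' := by rw [hx, hx', h3]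
        exact mul_left_cancel₀ hN' this
      intro u hu
      rcases Set.mem_insert_iff.mp hu with rfl | hu
      · exact hvK
      · exact hw3 K K' hK hK' hwK u hu

/-- An element of infinite order of an abelian group is detected by a homomorphism to `ℚ`. -/
theorem exists_hom_rat {A : Type*} [AddCommGroup A] {x : A} (hx : ∀ m : ℕ, 0 < m → m • x ≠ 0) :
    ∃ φ : A →+ ℚ, φ x ≠ 0 := by
  have hinj : Function.Injective (zmultiplesHom A x) := by
    rw [injective_iff_map_eq_zero]
    intro m hm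
    rw [zmultiplesHom_apply] at hm
    by_contra hne
    have h1 : (m.natAbs : ℤ) • x = 0 := by
      rcases Int.natAbs_eq m with h | h
      · rw [← h]; exact hm
      · rw [show ((m.natAbs : ℤ)) = -m by omega, neg_smul, hm, neg_zero]
    rw [natCast_zsmul] at h1
    exact hx _ (Int.natAbs_pos.mpr hne) h1
  obtain ⟨φ, hφ⟩ := (Module.Baer.of_divisible ℚ).extension_property_addMonoidHom _ hinj
    (Int.castAddHom ℚ)
  refine ⟨φ, ?_⟩
  have := DFunLike.congr_fun hφ 1
  simp only [AddMonoidHom.comp_apply, zmultiplesHom_apply, one_smul, Int.coe_castAddHom,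
    Int.cast_one] at this
  rw [this]
  exact one_ne_zero

/-- The block of a single slice. -/
def sliceBlock : Kind × ℕ → Block
  | (.cup, i) => .cup i
  | (.cap, i) => .cap i
  | (.crs e, i) => .pow [(i, e)] (Int.ofNat 1)

theorem sliceBlock_toDiag (p : Kind × ℕ) : (sliceBlock p).toDiag = [p] := by
  obtain ⟨k, i⟩ := p
  cases k <;> rfl

/-- Every knot is built from blocks of some size. -/
theorem exists_builtFrom (K : Knot) : ∃ L, BuiltFrom L K := by
  obtain ⟨⟨w, hw⟩⟩ := K
  have e1 : ((w.map sliceBlock).map Block.toDiag).flatten = w := by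
    induction w with
    | nil => rfl
    | cons p w ih =>
      simp only [List.map_cons, List.flatten_cons, sliceBlock_toDiag, List.cons_append,
        List.nil_append, List.cons.injEq, true_and]
      clear ih hw
      induction w with
      | nil => rfl
      | cons p w ih =>
        simp only [List.map_cons, List.flatten_cons, sliceBlock_toDiag, List.cons_append,
          List.nil_append, ih]
  refine ⟨w.length + 1, w.map sliceBlock, by rw [e1]; exact hw, by simp, ?_, ?_⟩
  · intro b hb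
    obtain ⟨⟨k, i⟩, _, rfl⟩ := List.mem_map.mp hb
    cases k <;> simp [sliceBlock, Block.SizeLE]
  · change ofDiag w hw = _
    congr 1
    exact e1.symm

/-- Finite determinacy. -/
theorem finite_determinacy.{u} (L : ℕ) : ∃ w : Knot → ℚ, IsFiniteType w ∧
    ∀ K K' : Knot, BuiltFrom L K → BuiltFrom L K' →
      (w K = w K' ↔ ∀ (A : Type u) [AddCommGroup A] (v : Knot → A), IsFiniteType v →
        ∃ m : ℕ, 0 < m ∧ m • v K = m • v K') := by
  obtain ⟨S, hS1, hS2, hS3⟩ := exists_finite_set L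
  obtain ⟨w, hw1, -, hw3⟩ := exists_combine L S hS1 hS2
  refine ⟨w, hw1, fun K K' hK hK' => ⟨?_, ?_⟩⟩
  · intro heq A _ v hv
    by_contra hcon
    push Not at hcon
    obtain ⟨φ, hφ⟩ := exists_hom_rat (x := v K - v K') (fun m hm => by
      rw [smul_sub, sub_ne_zero]; exact hcon m hm)
    apply hφ
    rw [map_sub, sub_eq_zero]
    exact hS3 K K' hK hK' (hw3 K K' hK hK' heq) (fun K => φ (v K)) (hv.map φ)
  · intro h
    obtain ⟨m, hm, heq⟩ := h (ULift.{u} ℚ) (fun K => ULift.up (w K))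
      (hw1.map ({ toFun := ULift.up, map_zero' := rfl, map_add' := fun _ _ => rfl } :
        ℚ →+ ULift.{u} ℚ))
    have h1 : m • w K = m • w K' := congrArg ULift.down heq
    rw [nsmul_eq_mul, nsmul_eq_mul] at h1
    have : (m : ℚ) ≠ 0 := by exact_mod_cast hm.ne'
    exact mul_left_cancel₀ this h1

end Pool.Agent.LibH11.Sliced
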