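import Mathlib

/-!
Oriented knots as long knots: diagrams in Morse position from one strand to one strand, cut into
elementary slices, modulo planar isotopy and Reidemeister moves (the Freyd-Yetter-Turaev
presentation of tangles), and finite type (Vassiliev) invariants. Long knots, oriented from bottom
to top, correspond bijectively to oriented knots in the 3-sphere.
-/

namespace Pool.Agent.LibH11.Sliced

/-- The kinds of elementary slices of a diagram in Morse position, read from bottom to top. -/
inductive Kind
  /-- a local minimum, creating two adjacent strands -/
  | cup : Kind
  /-- a local maximum, joining two adjacent strands -/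
  | cap : Kind
  /-- a crossing of two adjacent strands, of one of the two types -/
  | crs : Bool → Kind

/-- The number of strands entering a slice from below (apart from the vertical ones). -/
def Kind.ins : Kind → ℕ
  | .cup => 0
  | .cap => 2
  | .crs _ => 2

/-- The number of strands leaving a slice at the top (apart from the vertical ones). -/
def Kind.outs : Kind → ℕ
  | .cup => 2
  | .cap => 0
  | .crs _ => 2

/-- A diagram: a list of slices from bottom to top; each slice is a kind together with the number
of vertical strands to its left. -/
abbrev Diag := List (Kind × ℕ)

/-- The state of the partial diagram below a level: the number of strands crossing the level, a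
labelling of these strands (two strands have the same label iff they belong to the same arc below
the level), and a label not used so far. -/
abbrev State := ℕ × (ℕ → ℕ) × ℕ

/-- Adding a slice on top. The result is `none` if there are not enough strands, or if the slice
closes up a circle. -/
def step : Kind × ℕ → State → Option State
  | (.cup, i), (n, lab, c) =>
      if i ≤ n then
        some (n + 2, fun j => if j < i then lab j else if j < i + 2 then c else lab (j - 2), c + 1)
      else none
  | (.cap, i), (n, lab, c) =>
      if i + 2 ≤ n ∧ lab i ≠ lab (i + 1) then
        some (n - 2, fun j =>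
          if lab (if j < i then j else j + 2) = lab (i + 1) then lab i
          else lab (if j < i then j else j + 2), c)
      else none
  | (.crs _, i), (n, lab, c) =>
      if i + 2 ≤ n then some (n, fun j => lab (Equiv.swap i (i + 1) j), c) else none

/-- Adding the slices of a diagram one after the other. -/
def run : Diag → State → Option State
  | [], s => some s
  | p :: w, s => (step p s).bind (run w)

/-- The diagram is a diagram of a long knot: it goes from one strand to one strand, and it is
connected. -/
def IsLongKnot (w : Diag) : Prop :=
  ∃ (lab : ℕ → ℕ) (c : ℕ), run w (1, fun _ => 0, 1) = some (1, lab, c)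

/-- The local moves. -/
inductive Move : Diag → Diag → Prop
  /-- far commutation: two slices with disjoint supports are interchanged -/
  | far (p q : Kind) (i k : ℕ) :
      Move [(p, i), (q, i + p.outs + k)] [(q, i + p.ins + k), (p, i)]
  /-- straightening a strand (cancelling a minimum and a maximum) -/
  | zigzag (i : ℕ) : Move [(.cup, i), (.cap, i + 1)] []
  | zagzig (i : ℕ) : Move [(.cup, i + 1), (.cap, i)] []
  /-- moving a strand across a maximum, respectively a minimum -/
  | slideCap (i : ℕ) (e : Bool) :
      Move [(.crs e, i + 1), (.cap, i)] [(.crs (!e), i), (.cap, i + 1)]
  | slideCup (i : ℕ) (e : Bool) :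
      Move [(.cup, i), (.crs e, i + 1)] [(.cup, i + 1), (.crs (!e), i)]
  /-- the first Reidemeister move -/
  | r1Cap (i : ℕ) (e : Bool) : Move [(.crs e, i), (.cap, i)] [(.cap, i)]
  | r1Cup (i : ℕ) (e : Bool) : Move [(.cup, i), (.crs e, i)] [(.cup, i)]
  /-- the second Reidemeister move -/
  | r2 (i : ℕ) (e : Bool) : Move [(.crs e, i), (.crs (!e), i)] []
  /-- the third Reidemeister move -/
  | r3 (i : ℕ) : Move [(.crs true, i), (.crs true, i + 1), (.crs true, i)]
      [(.crs true, i + 1), (.crs true, i), (.crs true, i + 1)]

/-- Two long knot diagrams differ by one local move. -/
def MoveIn (x y : {w : Diag // IsLongKnot w}) : Prop :=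
  ∃ u a b v : Diag, Move a b ∧ x.1 = u ++ a ++ v ∧ y.1 = u ++ b ++ v

/-- Oriented knots: long knot diagrams modulo the moves. -/
def Knot : Type := Quot MoveIn

/-- The knot with the given long knot diagram. -/
def ofDiag (w : Diag) (h : IsLongKnot w) : Knot := Quot.mk _ ⟨w, h⟩

open Classical in
/-- The values of a knot invariant on diagrams, extended by zero to the diagrams that are not
diagrams of long knots. -/
noncomputable def onDiags {A : Type*} [AddCommGroup A] (v : Knot → A) (w : Diag) : A :=
  if h : IsLongKnot w then v (ofDiag w h) else 0

/-- A singular diagram: a list of slices and of double points (given by the number of strands to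
their left). -/
abbrev SDiag := List ((Kind × ℕ) ⊕ ℕ)

/-- The Vassiliev extension of a function on diagrams to singular diagrams: the alternating sum
over the resolutions of the double points. -/
def resolve {A : Type*} [AddCommGroup A] : (Diag → A) → SDiag → A
  | f, [] => f []
  | f, Sum.inl p :: s => resolve (fun w => f (p :: w)) s
  | f, Sum.inr i :: s => resolve (fun w => f ((.crs true, i) :: w)) s -
      resolve (fun w => f ((.crs false, i) :: w)) s

/-- The number of double points. -/
def dbl : SDiag → ℕ
  | [] => 0
  | Sum.inl _ :: s => dbl s
  | Sum.inr _ :: s => dbl s + 1

/-- The invariant is of finite type of order at most `k`: its Vassiliev extension vanishes on all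
singular knots with `k + 1` double points. -/
def HasOrderLE {A : Type*} [AddCommGroup A] (v : Knot → A) (k : ℕ) : Prop :=
  ∀ s : SDiag, dbl s = k + 1 → resolve (onDiags v) s = 0

/-- The invariant is of finite type. -/
def IsFiniteType {A : Type*} [AddCommGroup A] (v : Knot → A) : Prop := ∃ k : ℕ, HasOrderLE v k

/-- The braid word `u` (a list of crossings with signs) as a diagram. -/
def braidWord (u : List (ℕ × Bool)) : Diag := u.map fun p => (.crs p.2, p.1)

/-- The inverse braid word. -/
def invWord (u : List (ℕ × Bool)) : List (ℕ × Bool) := (u.map fun p => (p.1, !p.2)).reverse

/-- Building blocks: minima, maxima, and arbitrary (also negative) powers of braid words. -/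
inductive Block
  | cup : ℕ → Block
  | cap : ℕ → Block
  | pow : List (ℕ × Bool) → ℤ → Block

/-- The diagram of a block. -/
def Block.toDiag : Block → Diag
  | .cup i => [(.cup, i)]
  | .cap i => [(.cap, i)]
  | .pow u (Int.ofNat m) => braidWord (List.replicate m u).flatten
  | .pow u (Int.negSucc m) => braidWord (List.replicate (m + 1) (invWord u)).flatten

/-- The block has size at most `L`: no condition for minima and maxima; the braid word has length
at most `L`, but the exponent is arbitrary. -/
def Block.SizeLE (L : ℕ) : Block → Prop
  | .cup _ => True
  | .cap _ => True
  | .pow u _ => u.length ≤ L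

/-- The knot has a diagram built from at most `L` blocks of size at most `L`. -/
def BuiltFrom (L : ℕ) (K : Knot) : Prop :=
  ∃ (B : List Block) (h : IsLongKnot (B.map Block.toDiag).flatten),
    B.length ≤ L ∧ (∀ b ∈ B, b.SizeLE L) ∧ K = ofDiag (B.map Block.toDiag).flatten h

end Pool.Agent.LibH11.Sliced
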