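import Pool.Agent.LibH11.SlicedPoly

/-! Finite determinacy of rational finite type invariants on knots of bounded complexity. -/

namespace Pool.Agent.LibH11.Sliced

open Pool.Agent.LibH11 (Br sg Vanishes perm)

/-! ### Templates of bounded size -/

/-- The block of a template is of bounded size. -/
def TB.ok (L M e : ℕ) : TB → Prop
  | .cup i => i ≤ M
  | .cap i => i ≤ M
  | .pw u r => u.length ≤ L ∧ (∀ p ∈ u, p.1 ≤ M) ∧ r < e

theorem finite_lists {α : Type*} {S : Set α} (hS : S.Finite) (L : ℕ) :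
    {l : List α | l.length ≤ L ∧ ∀ x ∈ l, x ∈ S}.Finite := by
  have : Finite S := hS
  refine ((List.finite_length_le S L).image (List.map Subtype.val)).subset ?_
  rintro l ⟨h1, h2⟩
  refine ⟨l.attach.map (fun x => ⟨x.1, h2 x.1 x.2⟩), by simpa using h1, ?_⟩
  simp

theorem finite_ok (L M e : ℕ) : {t : TB | t.ok L M e}.Finite := by
  have h1 : (TB.cup '' {i | i ≤ M}).Finite := (Set.finite_le_nat M).image _
  have h2 : (TB.cap '' {i | i ≤ M}).Finite := (Set.finite_le_nat M).image _
  have h3 : ({p : ℕ × Bool | p.1 ≤ M}).Finite := by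
    refine ((Set.finite_le_nat M).prod (Set.finite_univ (α := Bool))).subset ?_
    rintro ⟨a, b⟩ h
    exact ⟨h, trivial⟩
  have h4 := finite_lists h3 L
  have h5 : ((fun p : List (ℕ × Bool) × ℕ => TB.pw p.1 p.2) ''
      ({l : List (ℕ × Bool) | l.length ≤ L ∧ ∀ x ∈ l, x ∈ {p : ℕ × Bool | p.1 ≤ M}} ×ˢ
        {r | r < e})).Finite := (h4.prod (Set.finite_lt_nat e)).image _
  refine ((h1.union h2).union h5).subset ?_
  intro t ht
  cases t with
  | cup i => exact Or.inl (Or.inl ⟨i, ht, rfl⟩)
  | cap i => exact Or.inl (Or.inr ⟨i, ht, rfl⟩)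
  | pw u r => exact Or.inr ⟨(u, r), ⟨⟨ht.1, ht.2.1⟩, ht.2.2⟩, rfl⟩

theorem finite_templates (L M e : ℕ) :
    {T : List TB | T.length ≤ L ∧ ∀ t ∈ T, t.ok L M e}.Finite :=
  finite_lists (finite_ok L M e) L

theorem cnt_braidWord : ∀ (u : List (ℕ × Bool)) (N : ℕ) (w : Diag),
    cnt N (braidWord u ++ w) ≠ none → (∀ p ∈ u, p.1 + 2 ≤ N) ∧ cnt N w ≠ none := by
  intro u
  induction u with
  | nil => intro N w h; exact ⟨by simp, h⟩
  | cons p u ih =>
    intro N w h
    simp only [braidWord, List.map_cons, List.cons_append, cnt, Kind.ins, Kind.outs] at h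
    split_ifs at h with h1
    · rw [show N - 2 + 2 = N by omega] at h
      obtain ⟨h2, h3⟩ := ih N w h
      refine ⟨?_, h3⟩
      intro q hq
      rcases List.mem_cons.mp hq with rfl | hq
      · exact h1
      · exact h2 q hq
    · exact absurd rfl h

theorem cnt_pow {u : List (ℕ × Bool)} {m : ℤ} (hm : m ≠ 0) {N : ℕ} {w : Diag}
    (h : cnt N ((Block.pow u m).toDiag ++ w) ≠ none) :
    (∀ p ∈ u, p.1 + 2 ≤ N) ∧ cnt N w ≠ none := by
  cases m with
  | ofNat m =>
    obtain ⟨m, rfl⟩ : ∃ m', m = m' + 1 := by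
      cases m with
      | zero => exact absurd rfl hm
      | succ m => exact ⟨m, rfl⟩
    simp only [Block.toDiag] at h
    obtain ⟨h1, h2⟩ := cnt_braidWord _ N w h
    refine ⟨fun p hp => h1 p ?_, h2⟩
    rw [List.replicate_succ, List.flatten_cons]
    exact List.mem_append_left _ hp
  | negSucc m =>
    simp only [Block.toDiag] at h
    obtain ⟨h1, h2⟩ := cnt_braidWord _ N w h
    refine ⟨fun p hp => ?_, h2⟩
    have := h1 (p.1, !p.2) (by
      rw [List.replicate_succ, List.flatten_cons]
      apply List.mem_append_left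
      simp only [invWord, List.mem_reverse, List.mem_map]
      exact ⟨p, hp, rfl⟩)
    exact this

theorem exists_template {L M e : ℕ} (he : 0 < e) : ∀ (B : List Block) (N : ℕ),
    cnt N (B.map Block.toDiag).flatten ≠ none → N + 2 * B.length ≤ M →
    (∀ b ∈ B, b.SizeLE L) →
    ∃ (T : List TB) (k : ℕ → ℤ), T.length = B.length ∧ (∀ t ∈ T, t.ok L M e) ∧ VT N T ∧
      (∀ i, B.length ≤ i → k i = 0) ∧ tdiag e T k = (B.map Block.toDiag).flatten := by
  intro B
  induction B with
  | nil => intro N _ _ _; exact ⟨[], fun _ => 0, rfl, by simp, trivial, fun _ _ => rfl, rfl⟩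
  | cons b B ih =>
    intro N hc hM hS
    simp only [List.length_cons] at hM
    simp only [List.map_cons, List.flatten_cons] at hc
    have hS' : ∀ b ∈ B, b.SizeLE L := fun b' hb' => hS b' (List.mem_cons_of_mem _ hb')
    have hb := hS b List.mem_cons_self
    -- combine the parameters
    have comb : ∀ (k : ℕ → ℤ) (k0 : ℤ), (∀ i, B.length ≤ i → k i = 0) →
        (∀ i, B.length + 1 ≤ i → (fun i => Nat.casesOn i k0 k : ℕ → ℤ) i = 0) := by
      intro k k0 hk i hi
      cases i with
      | zero => omega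
      | succ i => exact hk i (by omega)
    cases b with
    | cup i =>
      simp only [Block.toDiag, List.cons_append, List.nil_append, cnt, Kind.ins, Kind.outs] at hc
      split_ifs at hc with h1
      · obtain ⟨T, k, h2, h3, h4, h5, h6⟩ := ih (N - 0 + 2) hc (by omega) hS'
        refine ⟨.cup i :: T, fun i => Nat.casesOn i 0 k, by simp [h2], ?_, h4, comb k 0 h5, ?_⟩
        · intro t ht
          rcases List.mem_cons.mp ht with rfl | ht
          · change i ≤ M; omega
          · exact h3 t ht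
        · simp only [tdiag, List.map_cons, List.flatten_cons, Block.toDiag, List.cons_append,
            List.nil_append, h6]
      · exact absurd rfl hc
    | cap i =>
      simp only [Block.toDiag, List.cons_append, List.nil_append, cnt, Kind.ins, Kind.outs] at hc
      split_ifs at hc with h1
      · obtain ⟨T, k, h2, h3, h4, h5, h6⟩ := ih (N - 2 + 0) hc (by omega) hS'
        refine ⟨.cap i :: T, fun i => Nat.casesOn i 0 k, by simp [h2], ?_, h4, comb k 0 h5, ?_⟩
        · intro t ht
          rcases List.mem_cons.mp ht with rfl | ht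
          · change i ≤ M; omega
          · exact h3 t ht
        · simp only [tdiag, List.map_cons, List.flatten_cons, Block.toDiag, List.cons_append,
            List.nil_append, h6]
      · exact absurd rfl hc
    | pow u m =>
      by_cases hm : m = 0
      · subst hm
        have hnil : (Block.pow u 0).toDiag = [] := rfl
        rw [hnil, List.nil_append] at hc
        obtain ⟨T, k, h2, h3, h4, h5, h6⟩ := ih N hc (by omega) hS'
        refine ⟨.pw [] 0 :: T, fun i => Nat.casesOn i 0 k, by simp [h2], ?_, ⟨by simp, h4⟩,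
          comb k 0 h5, ?_⟩
        · intro t ht
          rcases List.mem_cons.mp ht with rfl | ht
          · exact ⟨by simp, by simp, he⟩
          · exact h3 t ht
        · have e1 : (Block.pow [] ((e : ℤ) * 0 + (0 : ℕ))).toDiag = [] := by
            simp only [mul_zero, Nat.cast_zero, add_zero]; rfl
          simp only [List.map_cons, List.flatten_cons, hnil]
          change (Block.pow [] ((e : ℤ) * 0 + (0 : ℕ))).toDiag ++ tdiag e T k = _
          rw [e1, h6]
      · obtain ⟨h1, hc'⟩ := cnt_pow hm hc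
        obtain ⟨T, k, h2, h3, h4, h5, h6⟩ := ih N hc' (by omega) hS'
        have he' : (e : ℤ) ≠ 0 := by exact_mod_cast he.ne'
        have hmod : ((m % (e : ℤ)).toNat : ℤ) = m % (e : ℤ) :=
          Int.toNat_of_nonneg (Int.emod_nonneg _ he')
        refine ⟨.pw u (m % (e : ℤ)).toNat :: T, fun i => Nat.casesOn i (m / e) k, by simp [h2],
          ?_, ⟨h1, h4⟩, comb k _ h5, ?_⟩
        · intro t ht
          rcases List.mem_cons.mp ht with rfl | ht
          · refine ⟨hb, fun p hp => ?_, ?_⟩
            · have := h1 p hp; omega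
            · have := Int.emod_lt_of_pos m (by exact_mod_cast he : (0 : ℤ) < e)
              omega
          · exact h3 t ht
        · simp only [List.map_cons, List.flatten_cons]
          change (Block.pow u ((e : ℤ) * (m / e) + ((m % (e : ℤ)).toNat : ℕ))).toDiag ++
            tdiag e T k = _
          rw [h6, hmod, Int.mul_ediv_add_emod]

/-! ### The Noetherian argument -/

/-- Extension of finitely many parameters by zero. -/
def ext0 {L : ℕ} (κ : Fin L → ℤ) (i : ℕ) : ℤ := if h : i < L then κ ⟨i, h⟩ else 0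

theorem van_onDiags {A : Type*} [AddCommGroup A] {v : Knot → A} {d : ℕ} (h : HasOrderLE v d) :
    Van (d + 1) (onDiags v) := h

theorem noether_pair {e M L : ℕ} (he : ∀ n, n + 1 ≤ M → ∀ b : Br n, perm b ^ e = 1)
    (T T' : List TB) (hT : VT 1 T) (hT' : VT 1 T') (hM : 1 + 2 * T.length ≤ M)
    (hM' : 1 + 2 * T'.length ≤ M) :
    ∃ S : Set (Knot → ℚ), S.Finite ∧ (∀ v ∈ S, IsFiniteType v) ∧
      ∀ κ κ' : Fin L → ℤ,
        (∀ v ∈ S, onDiags v (tdiag e T (ext0 κ)) = onDiags v (tdiag e T' (ext0 κ'))) →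
        ∀ v : Knot → ℚ, IsFiniteType v →
          onDiags v (tdiag e T (ext0 κ)) = onDiags v (tdiag e T' (ext0 κ')) := by
  classical
  have hP : ∀ v : Knot → ℚ, IsFiniteType v → ∃ P : MvPolynomial ℕ ℚ, ∀ k : ℕ → ℤ,
      onDiags v (tdiag e T k) = MvPolynomial.eval (fun i => (k i : ℚ)) P := by
    rintro v ⟨d, hd⟩
    exact pf_template he T 1 (d + 1) (onDiags v) (ag_onDiags v) (van_onDiags hd) hT hM
  have hP' : ∀ v : Knot → ℚ, IsFiniteType v → ∃ P : MvPolynomial ℕ ℚ, ∀ k : ℕ → ℤ,
      onDiags v (tdiag e T' k) = MvPolynomial.eval (fun i => (k i : ℚ)) P := by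
    rintro v ⟨d, hd⟩
    exact pf_template he T' 1 (d + 1) (onDiags v) (ag_onDiags v) (van_onDiags hd) hT' hM'
  choose! P hP using hP
  choose! P' hP' using hP'
  let R := MvPolynomial (Fin L ⊕ Fin L) ℚ
  let lft : MvPolynomial ℕ ℚ →ₐ[ℚ] R :=
    MvPolynomial.aeval (fun i => if h : i < L then MvPolynomial.X (Sum.inl ⟨i, h⟩) else 0)
  let rgt : MvPolynomial ℕ ℚ →ₐ[ℚ] R :=
    MvPolynomial.aeval (fun i => if h : i < L then MvPolynomial.X (Sum.inr ⟨i, h⟩) else 0)
  let ev : (Fin L → ℤ) → (Fin L → ℤ) → R →+* ℚ := fun κ κ' =>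
    MvPolynomial.eval (Sum.elim (fun i => (κ i : ℚ)) (fun i => (κ' i : ℚ)))
  have hl : ∀ κ κ' (Q : MvPolynomial ℕ ℚ), ev κ κ' (lft Q) =
      MvPolynomial.eval (fun i => (ext0 κ i : ℚ)) Q := by
    intro κ κ' Q
    have : (ev κ κ').comp lft.toRingHom = MvPolynomial.eval (fun i => (ext0 κ i : ℚ)) := by
      apply MvPolynomial.ringHom_ext
      · intro r; simp [ev, lft]
      · intro i
        by_cases h : i < L
        · have h1 : lft (MvPolynomial.X i) = MvPolynomial.X (Sum.inl ⟨i, h⟩) := by
            simp [lft, h]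
          change ev κ κ' (lft (MvPolynomial.X i)) = _
          rw [h1]
          change MvPolynomial.eval _ (MvPolynomial.X _ : MvPolynomial (Fin L ⊕ Fin L) ℚ) = _
          rw [MvPolynomial.eval_X, MvPolynomial.eval_X]
          simp [ext0, h]
        · simp [ev, lft, ext0, h]
    exact congrArg (fun φ => φ Q) this
  have hr : ∀ κ κ' (Q : MvPolynomial ℕ ℚ), ev κ κ' (rgt Q) =
      MvPolynomial.eval (fun i => (ext0 κ' i : ℚ)) Q := by
    intro κ κ' Q
    have : (ev κ κ').comp rgt.toRingHom = MvPolynomial.eval (fun i => (ext0 κ' i : ℚ)) := by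
      apply MvPolynomial.ringHom_ext
      · intro r; simp [ev, rgt]
      · intro i
        by_cases h : i < L
        · have h1 : rgt (MvPolynomial.X i) = MvPolynomial.X (Sum.inr ⟨i, h⟩) := by
            simp [rgt, h]
          change ev κ κ' (rgt (MvPolynomial.X i)) = _
          rw [h1]
          change MvPolynomial.eval _ (MvPolynomial.X _ : MvPolynomial (Fin L ⊕ Fin L) ℚ) = _
          rw [MvPolynomial.eval_X, MvPolynomial.eval_X]
          simp [ext0, h]
        · simp [ev, rgt, ext0, h]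
    exact congrArg (fun φ => φ Q) this
  let s : Set R := {Q | ∃ v : Knot → ℚ, IsFiniteType v ∧ Q = lft (P v) - rgt (P' v)}
  have hfg : (Submodule.span R s).FG := IsNoetherian.noetherian _
  obtain ⟨s', hs', hspan⟩ := (Submodule.fg_span_iff_fg_span_finset_subset s).mp hfg
  have hs'' : ∀ Q ∈ s', ∃ v : Knot → ℚ, IsFiniteType v ∧ Q = lft (P v) - rgt (P' v) :=
    fun Q hQ => hs' hQ
  choose! vv hvv using hs''
  refine ⟨vv '' s', s'.finite_toSet.image _, ?_, ?_⟩
  · rintro _ ⟨Q, hQ, rfl⟩
    exact (hvv Q hQ).1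
  · intro κ κ' hS v hv
    have hker : Submodule.span R s ≤ RingHom.ker (ev κ κ') := by
      rw [hspan]
      refine Submodule.span_le.mpr ?_
      intro Q hQ
      have h1 := hvv Q hQ
      have h2 := hS (vv Q) ⟨Q, hQ, rfl⟩
      rw [hP _ h1.1, hP' _ h1.1] at h2
      rw [SetLike.mem_coe, RingHom.mem_ker, h1.2, map_sub, hl, hr, h2, sub_self]
    have h3 := hker (Submodule.subset_span ⟨v, hv, rfl⟩)
    rw [RingHom.mem_ker, map_sub, hl, hr, sub_eq_zero] at h3
    rw [hP v hv, hP' v hv, h3]

/-! ### Denominators -/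

theorem exists_denom {σ : Type*} (P : MvPolynomial σ ℚ) :
    ∃ N : ℕ, N ≠ 0 ∧ ∀ k : σ → ℤ, ∃ z : ℤ, (N : ℚ) * MvPolynomial.eval (fun i => (k i : ℚ)) P = z := by
  induction P using MvPolynomial.induction_on with
  | C a =>
    refine ⟨a.den, a.den_nz, fun k => ⟨a.num, ?_⟩⟩
    rw [MvPolynomial.eval_C, mul_comm]
    exact Rat.mul_den_eq_num a
  | add P Q hP hQ =>
    obtain ⟨N, hN, h1⟩ := hP
    obtain ⟨N', hN', h2⟩ := hQ
    refine ⟨N * N', mul_ne_zero hN hN', fun k => ?_⟩
    obtain ⟨z, hz⟩ := h1 k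
    obtain ⟨z', hz'⟩ := h2 k
    refine ⟨N' * z + N * z', ?_⟩
    push_cast
    rw [map_add, ← hz, ← hz']
    ring
  | mul_X P i hP =>
    obtain ⟨N, hN, h1⟩ := hP
    refine ⟨N, hN, fun k => ?_⟩
    obtain ⟨z, hz⟩ := h1 k
    refine ⟨z * k i, ?_⟩
    push_cast
    rw [map_mul, MvPolynomial.eval_X, ← hz]
    ring

/-! ### Operations on finite type invariants -/

theorem HasOrderLE.mono {A : Type*} [AddCommGroup A] {v : Knot → A} {k l : ℕ}
    (h : HasOrderLE v k) (hkl : k ≤ l) : HasOrderLE v l :=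
  Van.mono (van_onDiags h) (Nat.succ_le_succ hkl)

theorem onDiags_comp {A C : Type*} [AddCommGroup A] [AddCommGroup C] (v : Knot → A) (φ : A → C)
    (h0 : φ 0 = 0) (w : Diag) : onDiags (fun K => φ (v K)) w = φ (onDiags v w) := by
  by_cases hb : IsLongKnot w
  · rw [onDiags_of hb, onDiags_of hb]
  · rw [onDiags_of_not hb, onDiags_of_not hb, h0]

theorem IsFiniteType.map {A C : Type*} [AddCommGroup A] [AddCommGroup C] {v : Knot → A}
    (h : IsFiniteType v) (φ : A →+ C) : IsFiniteType (fun K => φ (v K)) := by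
  obtain ⟨d, hd⟩ := h
  refine ⟨d, ?_⟩
  have : onDiags (fun K => φ (v K)) = fun w => φ (onDiags v w) :=
    funext (onDiags_comp v φ (map_zero φ))
  intro s hs
  rw [this]
  exact (van_onDiags hd).map φ s hs

theorem IsFiniteType.add {A : Type*} [AddCommGroup A] {v w : Knot → A} (hv : IsFiniteType v)
    (hw : IsFiniteType w) : IsFiniteType (fun K => v K + w K) := by
  obtain ⟨a, ha⟩ := hv
  obtain ⟨b, hb⟩ := hw
  refine ⟨max a b, ?_⟩
  have : onDiags (fun K => v K + w K) = fun D => onDiags v D + onDiags w D := by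
    funext D
    by_cases hD : IsLongKnot D
    · rw [onDiags_of hD, onDiags_of hD, onDiags_of hD]
    · rw [onDiags_of_not hD, onDiags_of_not hD, onDiags_of_not hD, add_zero]
  intro s hs
  rw [this]
  exact ((van_onDiags (ha.mono (le_max_left a b))).add
    (van_onDiags (hb.mono (le_max_right a b)))) s hs

theorem IsFiniteType.mul {v w : Knot → ℚ} (hv : IsFiniteType v)
    (hw : IsFiniteType w) : IsFiniteType (fun K => v K * w K) := by
  obtain ⟨a, ha⟩ := hv
  obtain ⟨b, hb⟩ := hw
  refine ⟨a + b, ?_⟩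
  have : onDiags (fun K => v K * w K) = fun D => onDiags v D * onDiags w D := by
    funext D
    by_cases hD : IsLongKnot D
    · rw [onDiags_of hD, onDiags_of hD, onDiags_of hD]
    · rw [onDiags_of_not hD, onDiags_of_not hD, onDiags_of_not hD, mul_zero]
  intro s hs
  rw [this]
  exact Van.mul s a b _ _ (van_onDiags ha) (van_onDiags hb) hs

theorem IsFiniteType.const_mul {v : Knot → ℚ} (hv : IsFiniteType v) (c : ℚ) :
    IsFiniteType (fun K => c * v K) := hv.map (AddMonoidHom.mulLeft c)

theorem isFiniteType_zero : IsFiniteType (fun _ : Knot => (0 : ℚ)) := by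
  refine ⟨0, ?_⟩
  intro s _
  have h0 : onDiags (fun _ : Knot => (0 : ℚ)) = fun _ => 0 := by
    funext D
    unfold onDiags; split_ifs <;> rfl
  rw [h0]
  have : ∀ s : SDiag, resolve (fun _ => (0 : ℚ)) s = 0 := by
    intro s
    induction s with
    | nil => rfl
    | cons p s ih =>
      cases p with
      | inl p => exact ih
      | inr i => simp only [resolve]; rw [ih, sub_zero]
  exact this s

/-- A polynomial map from the integers to the natural numbers that is injective. -/
theorem sq_inj {x y : ℤ} (h : 2 * x ^ 2 + x = 2 * y ^ 2 + y) : x = y := by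
  have h1 : (x - y) * (2 * (x + y) + 1) = 0 := by ring_nf; ring_nf at h; linarith
  rcases mul_eq_zero.mp h1 with h2 | h2
  · linarith
  · omega

theorem sq_nonneg' (x : ℤ) : 0 ≤ 2 * x ^ 2 + x := by nlinarith [sq_nonneg (x), sq_nonneg (2 * x + 1), Int.le_self_sq (-x)]

/-- A polynomial pairing function on the nonnegative integers. -/
theorem pair_inj {a b a' b' : ℤ} (ha : 0 ≤ a) (hb : 0 ≤ b) (ha' : 0 ≤ a') (hb' : 0 ≤ b')
    (h : (a + b) ^ 2 + a = (a' + b') ^ 2 + a') : a = a' ∧ b = b' := by
  have hs : a + b = a' + b' := by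
    by_contra hne
    rcases lt_or_gt_of_ne hne with hlt | hgt
    · nlinarith
    · nlinarith
  have : a = a' := by rw [hs] at h; linarith
  exact ⟨this, by linarith⟩

end Pool.Agent.LibH11.Sliced
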