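import Pool.Agent.LibH11.SlicedCalc

/-! Finite type invariants are polynomial on families with twisting, and finite determinacy. -/

namespace Pool.Agent.LibH11.Sliced

open Pool.Agent.LibH11 (Br sg Vanishes perm)

/-! ### Newton interpolation on the integers -/

theorem newton : ∀ (d : ℕ) (h : ℤ → ℚ), (fwdDiff (1 : ℤ))^[d] h = 0 → ∀ k : ℤ,
    h k = ∑ j ∈ Finset.range d, (fwdDiff (1 : ℤ))^[j] h 0 * (Ring.choose k j : ℤ) := by
  intro d
  induction d with
  | zero =>
    intro h hh k
    simp only [Function.iterate_zero, id_eq] at hh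
    simp [hh]
  | succ d ih =>
    intro h hh k
    have hh' : (fwdDiff (1 : ℤ))^[d] (fwdDiff (1 : ℤ) h) = 0 := by
      rw [← Function.iterate_succ_apply]; exact hh
    have ih' := ih _ hh'
    set r : ℤ → ℚ := fun k => ∑ j ∈ Finset.range (d + 1),
      (fwdDiff (1 : ℤ))^[j] h 0 * (Ring.choose k j : ℤ) with hr
    have hr0 : r 0 = h 0 := by
      simp only [hr]
      rw [Finset.sum_range_succ']
      simp [Ring.choose_zero_succ]
    have hstep : ∀ k : ℤ, h (k + 1) - r (k + 1) = h k - r k := by
      intro k
      have e1 : r (k + 1) - r k = h (k + 1) - h k := by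
        have e2 := ih' k
        simp only [fwdDiff] at e2
        rw [show h (k + 1) - h k = fwdDiff (1 : ℤ) h k from rfl, ih' k]
        simp only [hr]
        rw [Finset.sum_range_succ', Finset.sum_range_succ' _ d]
        simp only [Ring.choose_succ_succ, Ring.choose_zero_right, Int.cast_add,
          Function.iterate_succ_apply]
        rw [show ∀ a b c : ℚ, (a + b) - (c + b) = a - c by intros; ring, ← Finset.sum_sub_distrib]
        apply Finset.sum_congr rfl
        intro j _
        ring
      linarith
    have hconst : ∀ k : ℤ, h k - r k = 0 := by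
      intro k
      induction k using Int.induction_on with
      | zero => rw [hr0, sub_self]
      | succ k ihk => rw [hstep, ihk]
      | pred k ihk =>
        rw [← hstep, sub_add_cancel]; exact ihk
    have := hconst k
    linarith

/-- Functions of integer parameters given by a polynomial with rational coefficients. -/
def PF (H : (ℕ → ℤ) → ℚ) : Prop :=
  ∃ P : MvPolynomial ℕ ℚ, ∀ k, H k = MvPolynomial.eval (fun i => (k i : ℚ)) P

theorem PF.const (c : ℚ) : PF (fun _ => c) := ⟨MvPolynomial.C c, fun k => by simp⟩

theorem PF.add {H G : (ℕ → ℤ) → ℚ} (h : PF H) (g : PF G) : PF (fun k => H k + G k) := by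
  obtain ⟨P, hP⟩ := h
  obtain ⟨Q, hQ⟩ := g
  exact ⟨P + Q, fun k => by simp only [hP, hQ, map_add]⟩

theorem PF.mul {H G : (ℕ → ℤ) → ℚ} (h : PF H) (g : PF G) : PF (fun k => H k * G k) := by
  obtain ⟨P, hP⟩ := h
  obtain ⟨Q, hQ⟩ := g
  exact ⟨P * Q, fun k => by simp only [hP, hQ, map_mul]⟩

theorem PF.sum {ι : Type*} (s : Finset ι) {H : ι → (ℕ → ℤ) → ℚ} (h : ∀ i ∈ s, PF (H i)) :
    PF (fun k => ∑ i ∈ s, H i k) := by
  classical
  induction s using Finset.induction_on with
  | empty => simpa using PF.const 0
  | insert i s hi ih =>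
    simp only [Finset.sum_insert hi]
    exact (h i (Finset.mem_insert_self _ _)).add
      (ih (fun j hj => h j (Finset.mem_insert_of_mem hj)))

theorem PF.shift {H : (ℕ → ℤ) → ℚ} (h : PF H) : PF (fun k => H (fun i => k (i + 1))) := by
  obtain ⟨P, hP⟩ := h
  refine ⟨MvPolynomial.rename (fun i => i + 1) P, fun k => ?_⟩
  simp only [hP, MvPolynomial.eval_rename]
  rfl

theorem PF.choose (j : ℕ) : PF (fun k => ((Ring.choose (k 0) j : ℤ) : ℚ)) := by
  refine ⟨MvPolynomial.C (1 / (j.factorial : ℚ)) *
    Polynomial.aeval (MvPolynomial.X 0) ((descPochhammer ℤ j).map (Int.castRingHom ℚ)), ?_⟩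
  intro k
  have h1 := Ring.descPochhammer_eq_factorial_smul_choose (k 0) j
  rw [← Polynomial.eval_eq_smeval] at h1
  have h2 : (MvPolynomial.eval (fun i => (k i : ℚ)))
      (Polynomial.aeval (MvPolynomial.X 0) ((descPochhammer ℤ j).map (Int.castRingHom ℚ))) =
      (((descPochhammer ℤ j).eval (k 0) : ℤ) : ℚ) := by
    have h3 := Polynomial.hom_eval₂ ((descPochhammer ℤ j).map (Int.castRingHom ℚ))
      (algebraMap ℚ (MvPolynomial ℕ ℚ)) (MvPolynomial.eval (fun i => (k i : ℚ)))
      (MvPolynomial.X 0)
    rw [Polynomial.aeval_def, h3]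
    have h4 : (MvPolynomial.eval (fun i => (k i : ℚ))).comp (algebraMap ℚ (MvPolynomial ℕ ℚ)) =
        RingHom.id ℚ := by
      ext; simp
    rw [h4, MvPolynomial.eval_X]
    simp only [Polynomial.eval₂_id]
    rw [Polynomial.eval_map, Polynomial.eval₂_at_intCast]
    simp
  rw [map_mul, MvPolynomial.eval_C, h2, h1]
  have : (j.factorial : ℚ) ≠ 0 := by exact_mod_cast j.factorial_ne_zero
  push_cast
  rw [nsmul_eq_mul]
  push_cast
  field_simp

/-! ### Finite differences along powers of a pure braid -/

theorem fwdDiff_pow_eq_zero {n : ℕ} {p : Br n} (hp : perm p = 1) : ∀ (d : ℕ) (G : Br n → ℚ)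
    (y : Br n), Vanishes d G → (fwdDiff (1 : ℤ))^[d] (fun k : ℤ => G (p ^ k * y)) = 0 := by
  intro d
  induction d with
  | zero => intro G y hG; funext k; simpa using hG _
  | succ d ih =>
    intro G y hG
    have h1 := ih _ y (hG.pure hp)
    rw [Function.iterate_succ_apply]
    refine Eq.trans ?_ h1
    congr 1
    funext k
    simp only [fwdDiff]
    rw [add_comm k 1, zpow_add, zpow_one, mul_assoc]

/-! ### Words and their powers -/

/-- A word on few strands as a word in the generators of the braid group. -/
theorem exists_word {n : ℕ} : ∀ (u : List (ℕ × Bool)), (∀ p ∈ u, p.1 + 2 ≤ n + 1) →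
    ∃ x : List (Fin n × Bool), bw x = braidWord u ∧ bw (x.map fun p => (p.1, !p.2)).reverse =
      braidWord (invWord u) ∧ wd (x.map fun p => (p.1, !p.2)).reverse = (wd x)⁻¹ := by
  intro u
  induction u with
  | nil => intro _; exact ⟨[], rfl, rfl, by simp⟩
  | cons p u ih =>
    intro h
    obtain ⟨x, h1, h2, h3⟩ := ih (fun q hq => h q (List.mem_cons_of_mem _ hq))
    have hp := h p List.mem_cons_self
    refine ⟨(⟨p.1, by omega⟩, p.2) :: x, ?_, ?_, ?_⟩
    · simp only [bw_cons, h1, braidWord, List.map_cons]
    · simp only [List.map_cons, List.reverse_cons, bw_append, h2, invWord, braidWord,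
        List.map_append, List.map_nil, bw_cons, bw_nil]
    · simp only [List.map_cons, List.reverse_cons, wd_append, h3, wd_cons, wd_nil, mul_one,
        mul_inv_rev]
      cases p.2 <;> simp

theorem bw_flatten {n : ℕ} (x : List (Fin n × Bool)) (m : ℕ) :
    bw (List.replicate m x).flatten = (List.replicate m (bw x)).flatten := by
  simp [bw, List.map_flatten]

theorem wd_flatten {n : ℕ} (x : List (Fin n × Bool)) (m : ℕ) :
    wd (List.replicate m x).flatten = wd x ^ m := by
  induction m with
  | zero => simp
  | succ m ih => rw [List.replicate_succ, List.flatten_cons, wd_append, ih, pow_succ']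

theorem exists_pow_word {n : ℕ} {u : List (ℕ × Bool)} (hu : ∀ p ∈ u, p.1 + 2 ≤ n + 1) :
    ∃ b : Br n, ∀ m : ℤ, ∃ x : List (Fin n × Bool), bw x = (Block.pow u m).toDiag ∧
      wd x = b ^ m := by
  obtain ⟨x, h1, h2, h3⟩ := exists_word u hu
  refine ⟨wd x, fun m => ?_⟩
  cases m with
  | ofNat m =>
    refine ⟨(List.replicate m x).flatten, ?_, ?_⟩
    · rw [bw_flatten, h1]
      simp [Block.toDiag, braidWord, List.map_flatten]
    · rw [wd_flatten]; simp
  | negSucc m =>
    refine ⟨(List.replicate (m + 1) (x.map fun p => (p.1, !p.2)).reverse).flatten, ?_, ?_⟩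
    · rw [bw_flatten, h2]
      simp [Block.toDiag, braidWord, List.map_flatten]
    · rw [wd_flatten, h3, zpow_negSucc, inv_pow]

/-! ### Templates -/

/-- Blocks of templates: a power is specified by its residue. -/
inductive TB
  | cup : ℕ → TB
  | cap : ℕ → TB
  | pw : List (ℕ × Bool) → ℕ → TB

/-- The diagram of a template for given values of the parameters. -/
def tdiag (e : ℕ) : List TB → (ℕ → ℤ) → Diag
  | [], _ => []
  | .cup i :: T, k => (.cup, i) :: tdiag e T (fun i => k (i + 1))
  | .cap i :: T, k => (.cap, i) :: tdiag e T (fun i => k (i + 1))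
  | .pw u r :: T, k => (Block.pow u (e * k 0 + r)).toDiag ++ tdiag e T (fun i => k (i + 1))

/-- The words of the template fit on the available strands. -/
def VT : ℕ → List TB → Prop
  | _, [] => True
  | N, .cup _ :: T => VT (N + 2) T
  | N, .cap _ :: T => VT (N - 2) T
  | N, .pw u _ :: T => (∀ p ∈ u, p.1 + 2 ≤ N) ∧ VT N T

theorem pf_template {e M : ℕ} (he : ∀ n, n + 1 ≤ M → ∀ b : Br n, perm b ^ e = 1) :
    ∀ (T : List TB) (N d : ℕ) (f : Diag → ℚ), AG N f → Van d f → VT N T →
      N + 2 * T.length ≤ M → PF (fun k => f (tdiag e T k)) := by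
  intro T
  induction T with
  | nil => intro N d f _ _ _ _; exact PF.const (f [])
  | cons t T ih =>
    intro N d f hAG hVan hVT hM
    simp only [List.length_cons] at hM
    cases t with
    | cup i =>
      simp only [tdiag]
      by_cases h : i + 0 ≤ N
      · have hc : cnt N [(Kind.cup, i)] = some (N + 2) := by
          simp only [cnt, Kind.ins, Kind.outs]; rw [if_pos h]; rfl
        have := ih (N + 2) d (fun w => f ((Kind.cup, i) :: w)) (hAG.shift hc) (hVan.cons _)
          hVT (by omega)
        exact this.shift
      · have hc : cnt N [(Kind.cup, i)] = none := by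
          simp only [cnt, Kind.ins, Kind.outs]; rw [if_neg h]
        have : ∀ w, f ((Kind.cup, i) :: w) = 0 := fun w => hAG.zero_of_none hc w
        simp only [this]
        exact PF.const 0
    | cap i =>
      simp only [tdiag]
      by_cases h : i + 2 ≤ N
      · have hc : cnt N [(Kind.cap, i)] = some (N - 2) := by
          simp only [cnt, Kind.ins, Kind.outs]; rw [if_pos h]; rfl
        have := ih (N - 2) d (fun w => f ((Kind.cap, i) :: w)) (hAG.shift hc) (hVan.cons _)
          hVT (by omega)
        exact this.shift
      · have hc : cnt N [(Kind.cap, i)] = none := by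
          simp only [cnt, Kind.ins, Kind.outs]; rw [if_neg h]
        have : ∀ w, f ((Kind.cap, i) :: w) = 0 := fun w => hAG.zero_of_none hc w
        simp only [this]
        exact PF.const 0
    | pw u r =>
      obtain ⟨hu, hVT⟩ := hVT
      simp only [tdiag]
      cases N with
      | zero =>
        have hu0 : u = [] := by
          cases u with
          | nil => rfl
          | cons p u => have := hu p List.mem_cons_self; omega
        subst hu0
        have hnil : ∀ m : ℤ, (Block.pow [] m).toDiag = [] := by
          intro m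
          cases m <;> simp [Block.toDiag, braidWord, invWord]
        simp only [hnil, List.nil_append]
        exact (ih 0 d f hAG hVan hVT (by omega)).shift
      | succ n =>
        obtain ⟨b, hb⟩ := exists_pow_word hu
        have hpure : perm (b ^ e) = 1 := by rw [map_pow]; exact he n (by omega) b
        -- the value in terms of the braid group
        have hval : ∀ (m : ℤ) (w : Diag), f ((Block.pow u m).toDiag ++ w) =
            braidFun f w (b ^ m) := by
          intro m w
          obtain ⟨x, hx1, hx2⟩ := hb m
          rw [← hx1, ← hx2, braidFun_wd hAG.good]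
        have hcnt : ∀ m : ℤ, cnt (n + 1) (Block.pow u m).toDiag = some (n + 1) := by
          intro m
          obtain ⟨x, hx1, _⟩ := hb m
          rw [← hx1]; exact cnt_bw x
        have hdiff : ∀ w : Diag, (fwdDiff (1 : ℤ))^[d]
            (fun m : ℤ => f ((Block.pow u (e * m + r)).toDiag ++ w)) = 0 := by
          intro w
          have h1 := fwdDiff_pow_eq_zero hpure d (braidFun f w) (b ^ r)
            (vanishes_braidFun d f w hAG.good hVan)
          refine Eq.trans ?_ h1
          congr 1
          funext m
          rw [hval, zpow_add, zpow_mul, zpow_natCast, zpow_natCast]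
        have hexp : ∀ k : ℕ → ℤ, f ((Block.pow u (e * k 0 + r)).toDiag ++
            tdiag e T (fun i => k (i + 1))) =
            ∑ j ∈ Finset.range d, (∑ i ∈ Finset.range (j + 1),
              ((-1 : ℤ) ^ (j - i) * j.choose i : ℤ) *
                f ((Block.pow u (e * (i : ℤ) + r)).toDiag ++ tdiag e T (fun i => k (i + 1)))) *
              (Ring.choose (k 0) j : ℤ) := by
          intro k
          have h1 := newton d _ (hdiff (tdiag e T (fun i => k (i + 1)))) (k 0)
          rw [h1]
          apply Finset.sum_congr rfl
          intro j _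
          rw [fwdDiff_iter_eq_sum_shift]
          congr 1
          apply Finset.sum_congr rfl
          intro i _
          simp [zsmul_eq_mul]
        have : (fun k : ℕ → ℤ => f ((Block.pow u (e * k 0 + r)).toDiag ++
            tdiag e T (fun i => k (i + 1)))) = fun k : ℕ → ℤ =>
            ∑ j ∈ Finset.range d, (∑ i ∈ Finset.range (j + 1),
              ((-1 : ℤ) ^ (j - i) * j.choose i : ℤ) *
                f ((Block.pow u (e * (i : ℤ) + r)).toDiag ++ tdiag e T (fun i => k (i + 1)))) *
              (Ring.choose (k 0) j : ℤ) := funext hexp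
        rw [this]
        refine PF.sum _ (fun j _ => ?_)
        refine PF.mul (PF.sum _ (fun i _ => ?_)) (PF.choose j)
        refine PF.mul (PF.const _) ?_
        have := ih (n + 1) d (fun w => f ((Block.pow u (e * (i : ℤ) + r)).toDiag ++ w))
          (hAG.shift (hcnt _)) (hVan.shift _) hVT (by omega)
        exact this.shift

end Pool.Agent.LibH11.Sliced
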