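import Pool.Agent.LibH11.GlTwist
import Pool.Agent.LibH11.OddPower

/-! Separation of the knots in a twisting family. -/

namespace Pool.Agent.LibH11

open Matrix

variable {n N : ℕ}

/-- Colourings composed with a permutation of the places. -/
def cperm (N : ℕ) {n : ℕ} (g : Equiv.Perm (Fin (n + 1))) : Equiv.Perm (Fin (n + 1) → Fin N) :=
  Equiv.arrowCongr g.symm (Equiv.refl _)

theorem cperm_apply (g : Equiv.Perm (Fin (n + 1))) (t : Fin (n + 1) → Fin N) :
    cperm N g t = t ∘ g := rfl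

/-- The (negative) first order matrix. -/
def Mz (N : ℕ) (l : Equiv.Perm (Fin (n + 1)) → ℤ) :
    Matrix (Fin (n + 1) → Fin N) (Fin (n + 1) → Fin N) ℤ :=
  ∑ g, l g • ((N : ℤ) • 1 - pm N g)

theorem pm_mulVec (g : Equiv.Perm (Fin (n + 1))) (x : (Fin (n + 1) → Fin N) → ℝ) :
    ((pm N g).map (Int.cast : ℤ → ℝ)) *ᵥ x = fun t => x (t ∘ g) := by
  funext t
  simp only [mulVec, dotProduct, map_apply, pm, of_apply]
  rw [Finset.sum_eq_single (t ∘ g)]
  · simp
  · intro u _ hu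
    rw [if_neg (fun h => hu h.symm)]; simp
  · intro h; exact absurd (Finset.mem_univ _) h

theorem Mz_map (l : Equiv.Perm (Fin (n + 1)) → ℤ) :
    (Mz N l).map (Int.cast : ℤ → ℝ) =
      ∑ g, (l g : ℝ) • ((N : ℝ) • 1 - (pm N g).map (Int.cast : ℤ → ℝ)) := by
  ext s t
  simp only [Mz, map_apply, Matrix.sum_apply, Matrix.smul_apply, Matrix.sub_apply,
    smul_eq_mul, Int.cast_sum, Int.cast_mul, Int.cast_sub, Int.cast_natCast]
  apply Finset.sum_congr rfl
  intro g _
  by_cases hst : s = t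
  · subst hst; simp
  · simp [one_apply_ne hst]

theorem Mz_mulVec (l : Equiv.Perm (Fin (n + 1)) → ℤ) (x : (Fin (n + 1) → Fin N) → ℝ) :
    ((Mz N l).map (Int.cast : ℤ → ℝ)) *ᵥ x =
      fun t => ∑ g, (l g : ℝ) * ((N : ℝ) * x t - x (t ∘ g)) := by
  rw [Mz_map, Matrix.sum_mulVec]
  funext t
  rw [Finset.sum_apply]
  apply Finset.sum_congr rfl
  intro g _
  rw [smul_mulVec, sub_mulVec, smul_mulVec, one_mulVec, pm_mulVec]
  rfl

theorem abs_sum_le (g : Equiv.Perm (Fin (n + 1))) (x : (Fin (n + 1) → Fin N) → ℝ) :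
    |∑ t, x t * x (t ∘ g)| ≤ ∑ t, x t ^ 2 := by
  have h1 : ∑ t, x (t ∘ g) ^ 2 = ∑ t, x t ^ 2 :=
    Equiv.sum_comp (cperm N g) (fun t => x t ^ 2)
  rw [abs_le]
  constructor
  · have : ∑ t, (-(x t ^ 2 + x (t ∘ g) ^ 2) / 2) ≤ ∑ t, x t * x (t ∘ g) := by
      apply Finset.sum_le_sum
      intro t _
      nlinarith [sq_nonneg (x t + x (t ∘ g))]
    rw [← Finset.sum_div, Finset.sum_neg_distrib, Finset.sum_add_distrib, h1] at this
    linarith
  · have : ∑ t, x t * x (t ∘ g) ≤ ∑ t, ((x t ^ 2 + x (t ∘ g) ^ 2) / 2) := by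
      apply Finset.sum_le_sum
      intro t _
      nlinarith [sq_nonneg (x t - x (t ∘ g))]
    rw [← Finset.sum_div, Finset.sum_add_distrib, h1] at this
    linarith

theorem Mz_posDef (l : Equiv.Perm (Fin (n + 1)) → ℤ) (hl : ∀ g, l g ≠ 0 → g * g = 1)
    (hL : 1 ≤ ∑ g, l g) (hN : ∑ g, |l g| < N) :
    ((Mz N l).map (Int.cast : ℤ → ℝ)).PosDef := by
  rw [posDef_iff_dotProduct_mulVec]
  constructor
  · rw [Mz_map]
    unfold IsHermitian
    rw [conjTranspose_sum]
    apply Finset.sum_congr rfl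
    intro g _
    by_cases hg : l g = 0
    · rw [hg]; simp
    · have h1 := hl g hg
      have h2 : g⁻¹ = g := inv_eq_of_mul_eq_one_left h1
      have h3 : ((pm N g).map (Int.cast : ℤ → ℝ))ᴴ = (pm N g).map (Int.cast : ℤ → ℝ) := by
        ext s t
        have h4 := congrFun (congrFun (pm_transpose (N := N) g) s) t
        rw [h2] at h4
        simp only [conjTranspose_apply, map_apply, transpose_apply] at h4 ⊢
        rw [h4]; simp
      rw [conjTranspose_smul, conjTranspose_sub, conjTranspose_smul, conjTranspose_one, h3]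
      simp
  · intro x hx
    rw [Mz_mulVec]
    have hQ : 0 < ∑ t, x t ^ 2 := by
      obtain ⟨t, ht⟩ := Function.ne_iff.mp hx
      exact Finset.sum_pos' (fun t _ => sq_nonneg _)
        ⟨t, Finset.mem_univ _, by have : x t ≠ 0 := ht; positivity⟩
    have h1 : star x ⬝ᵥ (fun t => ∑ g, (l g : ℝ) * ((N : ℝ) * x t - x (t ∘ g))) =
        ∑ g, (l g : ℝ) * ((N : ℝ) * ∑ t, x t ^ 2 - ∑ t, x t * x (t ∘ g)) := by
      simp only [dotProduct, star_trivial, Pi.star_apply]
      simp only [Finset.mul_sum, mul_sub, ← Finset.sum_sub_distrib]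
      rw [Finset.sum_comm]
      apply Finset.sum_congr rfl
      intro g _
      apply Finset.sum_congr rfl
      intro t _
      ring
    rw [h1]
    have h2 : ∀ g, (l g : ℝ) * ((N : ℝ) * ∑ t, x t ^ 2) - |(l g : ℝ)| * ∑ t, x t ^ 2 ≤
        (l g : ℝ) * ((N : ℝ) * ∑ t, x t ^ 2 - ∑ t, x t * x (t ∘ g)) := by
      intro g
      have h3 := abs_sum_le g x
      have h4 : (l g : ℝ) * ∑ t, x t * x (t ∘ g) ≤ |(l g : ℝ)| * ∑ t, x t ^ 2 := by
        calc (l g : ℝ) * ∑ t, x t * x (t ∘ g) ≤ |(l g : ℝ) * ∑ t, x t * x (t ∘ g)| :=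
              le_abs_self _
          _ = |(l g : ℝ)| * |∑ t, x t * x (t ∘ g)| := abs_mul _ _
          _ ≤ _ := mul_le_mul_of_nonneg_left h3 (abs_nonneg _)
      rw [mul_sub]
      linarith
    refine lt_of_lt_of_le ?_ (Finset.sum_le_sum (fun g _ => h2 g))
    rw [Finset.sum_sub_distrib, ← Finset.sum_mul, ← Finset.sum_mul]
    have h5 : (1 : ℝ) ≤ ∑ g, (l g : ℝ) := by exact_mod_cast hL
    have h6 : ∑ g, |(l g : ℝ)| + 1 ≤ (N : ℝ) := by
      have : ∑ g, |l g| + 1 ≤ (N : ℤ) := hN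
      exact_mod_cast this
    have h7 : 0 ≤ (N : ℝ) * ∑ t, x t ^ 2 := by positivity
    nlinarith

theorem trace_pm_pos (g : Equiv.Perm (Fin (n + 1))) (hN : 0 < N) : 0 < (pm N g).trace := by
  unfold Matrix.trace
  refine Finset.sum_pos' (fun t _ => ?_) ⟨fun _ => ⟨0, hN⟩, Finset.mem_univ _, ?_⟩
  · simp only [pm, diag_apply, of_apply]; split_ifs <;> simp
  · simp only [pm, diag_apply, of_apply]
    rw [if_pos (by funext x; rfl)]
    exact one_pos

theorem exists_trace_ne {l : Equiv.Perm (Fin (n + 1)) → ℤ} (hl : ∀ g, l g ≠ 0 → g * g = 1)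
    (hL : ∑ g, l g ≠ 0) (h : Equiv.Perm (Fin (n + 1))) :
    ∃ N k : ℕ, Odd k ∧
      (pm N h * (∑ g, (2 * l g) • (pm N g - (N : ℤ) • 1)) ^ k).trace ≠ 0 := by
  obtain ⟨s, hs, hsL⟩ : ∃ s : ℤ, s * s = 1 ∧ 1 ≤ ∑ g, s * l g := by
    rcases lt_or_gt_of_ne hL with h1 | h1
    · exact ⟨-1, by norm_num, by rw [← Finset.mul_sum]; omega⟩
    · exact ⟨1, by norm_num, by rw [← Finset.mul_sum]; omega⟩
  set N : ℕ := (∑ g, |s * l g|).toNat + 1 with hNdef
  have hN : ∑ g, |s * l g| < (N : ℤ) := by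
    have := Int.self_le_toNat (∑ g, |s * l g|)
    rw [hNdef]; push_cast; linarith
  have hpd := Mz_posDef (N := N) (fun g => s * l g)
    (fun g hg => hl g (by rintro h0; apply hg; simp only [h0, mul_zero])) hsL hN
  have hP : ((pm N h).map (Int.cast : ℤ → ℝ)).trace ≠ 0 := by
    have h1 := trace_pm_pos (N := N) h (by omega)
    have h2 : ((pm N h).map (Int.cast : ℤ → ℝ)).trace = ((pm N h).trace : ℝ) := by
      simp [Matrix.trace]
    rw [h2]
    exact_mod_cast h1.ne'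
  obtain ⟨k, hk, hne⟩ := exists_odd_trace hpd _ hP
  refine ⟨N, k, hk, ?_⟩
  have h3 : (∑ g, (2 * l g) • (pm N g - (N : ℤ) • 1) :
      Matrix (Fin (n + 1) → Fin N) (Fin (n + 1) → Fin N) ℤ) =
      (-2 * s) • Mz N (fun g => s * l g) := by
    unfold Mz
    rw [Finset.smul_sum]
    apply Finset.sum_congr rfl
    intro g _
    rw [smul_smul]
    have : -2 * s * (s * l g) = - (2 * l g) := by
      linear_combination (-2 * l g) * hs
    rw [this, neg_smul, ← smul_neg, neg_sub]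
  rw [h3, smul_pow, mul_smul_comm, trace_smul, smul_eq_mul]
  have hs0 : s ≠ 0 := by rintro rfl; norm_num at hs
  refine mul_ne_zero (pow_ne_zero _ (mul_ne_zero (by norm_num) hs0)) ?_
  intro h0
  apply hne
  have h4 : (pm N h).map (Int.cast : ℤ → ℝ) * (Mz N (fun g => s * l g)).map (Int.cast : ℤ → ℝ) ^ k
      = (pm N h * Mz N (fun g => s * l g) ^ k).map (Int.cast : ℤ → ℝ) := by
    have e := (Int.castRingHom ℝ).mapMatrix.map_mul (pm N h) (Mz N (fun g => s * l g) ^ k)
    rw [map_pow] at e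
    exact e.symm
  rw [h4]
  have h5 : ((pm N h * Mz N (fun g => s * l g) ^ k).map (Int.cast : ℤ → ℝ)).trace =
      ((pm N h * Mz N (fun g => s * l g) ^ k).trace : ℝ) := by
    simp [Matrix.trace]
  rw [h5, h0]; simp

theorem IsFiniteType.neg' {v : Knot → ℤ} (h : IsFiniteType v) : IsFiniteType (fun K => - v K) := by
  obtain ⟨k, hk⟩ := h
  refine ⟨k, fun n => ?_⟩
  have h1 : onBraids (fun K => - v K) n = fun b => - onBraids v n b := by
    funext b
    unfold onBraids
    split_ifs <;> simp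
  rw [h1]
  exact (hk n).neg

theorem twist_separation (b p : Br n) (hb : IsKnot b) (hp : perm p = 1) (he : expSum p ≠ 1) :
    ∃ v : Knot → ℤ, IsFiniteType v ∧
      {x : ℤ × ℤ | x.1 ≠ x.2 ∧ v (twist b p hb hp x.1) = v (twist b p hb hp x.2)}.Finite := by
  obtain ⟨l, hl1, hl2, hl3⟩ := exists_hasLk hp
  have hL : ∑ g, l g ≠ 0 := by
    intro h0
    apply he
    rw [h0, mul_zero] at hl2
    exact hl2
  obtain ⟨N, k, hk, hne⟩ := exists_trace_ne hl1 hL (perm b)
  set c := (pm N (perm b) * (∑ g, (2 * l g) • (pm N g - (N : ℤ) • 1)) ^ k).trace with hc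
  have hdiff : (fwdDiff (1 : ℤ))^[k] (fun m : ℤ => glCoeff N k (twist b p hb hp m)) =
      fun _ => c := by
    have := top_diff hp (hl3 N) k (rp N n b).val
    rw [red_rp] at this
    rw [← this]
    congr 1
    funext m
    unfold twist
    rw [glCoeff_closure, map_mul, Units.val_mul]
  have hft : IsFiniteType (glCoeff N k) := ⟨k, glCoeff_order N k⟩
  rcases lt_or_gt_of_ne hne with hneg | hpos
  · refine ⟨fun K => - glCoeff N k K, hft.neg', ?_⟩
    refine finite_coincidences hk (c := -c) (by omega)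
      (f := fun m => - glCoeff N k (twist b p hb hp m)) ?_
    have h1 : (fun m => - glCoeff N k (twist b p hb hp m)) =
        (-1 : ℤ) • (fun m : ℤ => glCoeff N k (twist b p hb hp m)) := by
      funext m; simp
    rw [h1, fwdDiff_iter_const_smul, hdiff]
    funext m; simp
  · exact ⟨glCoeff N k, hft, finite_coincidences hk hpos hdiff⟩

end Pool.Agent.LibH11
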